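import Pool.Agent.Lib.MP_0087d5_lc.FN.Sem
import Pool.Agent.Lib.MP_0087d5_lcF.Pert

set_option autoImplicit false

/-!
# Good parameters exist
-/

namespace Pool.Agent.FNC

open Matrix

variable {T K : Type*} [Fintype T] [DecidableEq T] [Field K]

/-- the matrix `om u v • (E u v - E v u)` for the pair `x = (u, v)` -/
def Dm (om : T → T → K) (x : T × T) : Matrix T T K :=
  Matrix.of fun r c => om x.1 x.2 *
    ((if r = x.1 then (if c = x.2 then 1 else 0) else 0) - (if r = x.2 then (if c = x.1 then 1 else 0) else 0))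

theorem Dm_conj (Q : Matrix T T K) (om : T → T → K) (x : T × T) (i j : T) :
    (Q * Dm om x * Q) i j = om x.1 x.2 * (Q i x.1 * Q x.2 j - Q i x.2 * Q x.1 j) := by
  have h1 : ∀ b, (Q * Dm om x) i b = om x.1 x.2 *
      (Q i x.1 * (if b = x.2 then 1 else 0) - Q i x.2 * (if b = x.1 then 1 else 0)) := by
    intro b
    rw [Matrix.mul_apply]
    unfold Dm
    simp only [Matrix.of_apply]
    have h2 : ∀ a, Q i a * (om x.1 x.2 * ((if a = x.1 then (if b = x.2 then 1 else 0) else 0) -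
        (if a = x.2 then (if b = x.1 then 1 else 0) else 0))) =
        (if a = x.1 then om x.1 x.2 * (Q i a * (if b = x.2 then 1 else 0)) else 0) -
        (if a = x.2 then om x.1 x.2 * (Q i a * (if b = x.1 then 1 else 0)) else 0) := by
      intro a
      split_ifs <;> ring
    rw [Finset.sum_congr rfl (fun a _ => h2 a), Finset.sum_sub_distrib, Finset.sum_ite_eq',
      Finset.sum_ite_eq', if_pos (Finset.mem_univ _), if_pos (Finset.mem_univ _)]
    ring
  rw [Matrix.mul_apply, Finset.sum_congr rfl (fun b _ => by rw [h1 b])]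
  have h3 : ∀ b, om x.1 x.2 * (Q i x.1 * (if b = x.2 then 1 else 0) -
      Q i x.2 * (if b = x.1 then 1 else 0)) * Q b j =
      (if b = x.2 then om x.1 x.2 * (Q i x.1 * Q b j) else 0) -
      (if b = x.1 then om x.1 x.2 * (Q i x.2 * Q b j) else 0) := by
    intro b
    split_ifs <;> ring
  rw [Finset.sum_congr rfl (fun b _ => h3 b), Finset.sum_sub_distrib, Finset.sum_ite_eq',
    Finset.sum_ite_eq', if_pos (Finset.mem_univ _), if_pos (Finset.mem_univ _)]
  ring

open Classical in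
/-- the perturbation is a sum over the pairs -/
theorem Cs_eq {Du : T → Prop} {Ok : T → T → Prop} (hsym : ∀ u v, Ok u v → Ok v u)
    (hirr : ∀ u, ¬ Ok u u) (lt : T → T → Prop)
    (hlt : ∀ r c, r ≠ c → (lt r c ↔ ¬ lt c r)) (idx : T → T → ℕ) (L : ℕ)
    (om : T → T → K) (hom : ∀ r c, om r c = om c r) (s : K) :
    s ^ L • Cs Du Ok lt idx om s =
      ∑ f : {x : T × T // lt x.1 x.2 ∧ ¬ Du x.1 ∧ ¬ Du x.2 ∧ Ok x.1 x.2},
        s ^ (L + idx f.1.1 f.1.2) • Dm om f.1 := by
  ext r c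
  rw [Matrix.sum_apply, Matrix.smul_apply]
  unfold Cs Dm
  simp only [Matrix.of_apply, Matrix.smul_apply, smul_eq_mul]
  by_cases h : ¬ Du r ∧ ¬ Du c ∧ Ok r c
  · have hrc : r ≠ c := by
      rintro rfl
      exact hirr _ h.2.2
    rw [if_pos h]
    by_cases hl : lt r c
    · rw [if_pos hl, Finset.sum_eq_single (⟨(r, c), hl, h⟩ :
        {x : T × T // lt x.1 x.2 ∧ ¬ Du x.1 ∧ ¬ Du x.2 ∧ Ok x.1 x.2})]
      · simp only [if_true]
        rw [if_neg hrc]
        rw [pow_add]
        ring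
      · rintro ⟨⟨u, v⟩, hf⟩ _ hne
        simp only at hf ⊢
        have h1 : ¬ (r = u ∧ c = v) := by
          rintro ⟨rfl, rfl⟩
          exact hne rfl
        have h2 : ¬ (r = v ∧ c = u) := by
          rintro ⟨rfl, rfl⟩
          exact (hlt _ _ hrc).1 hl hf.1
        rw [← ite_and, ← ite_and, if_neg h1, if_neg h2]
        ring
      · intro h1
        exact absurd (Finset.mem_univ _) h1
    · have hl' : lt c r := by
        by_contra h1
        exact hl ((hlt _ _ hrc).2 h1)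
      rw [if_neg hl, Finset.sum_eq_single (⟨(c, r), hl', h.2.1, h.1, hsym _ _ h.2.2⟩ :
        {x : T × T // lt x.1 x.2 ∧ ¬ Du x.1 ∧ ¬ Du x.2 ∧ Ok x.1 x.2})]
      · simp only [if_true]
        rw [if_neg hrc]
        rw [pow_add, hom c r]
        ring
      · rintro ⟨⟨u, v⟩, hf⟩ _ hne
        simp only at hf ⊢
        have h1 : ¬ (r = u ∧ c = v) := by
          rintro ⟨rfl, rfl⟩
          exact hl hf.1
        have h2 : ¬ (r = v ∧ c = u) := by
          rintro ⟨rfl, rfl⟩
          exact hne rfl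
        rw [← ite_and, ← ite_and, if_neg h1, if_neg h2]
        ring
      · intro h1
        exact absurd (Finset.mem_univ _) h1
  · rw [if_neg h, mul_zero]
    symm
    refine Finset.sum_eq_zero ?_
    rintro ⟨⟨u, v⟩, hf⟩ _
    simp only at hf ⊢
    have h1 : ¬ (r = u ∧ c = v) := by
      rintro ⟨rfl, rfl⟩
      exact h hf.2
    have h2 : ¬ (r = v ∧ c = u) := by
      rintro ⟨rfl, rfl⟩
      exact h ⟨hf.2.2.1, hf.2.1, hsym _ _ hf.2.2.2⟩
    rw [← ite_and, ← ite_and, if_neg h1, if_neg h2]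
    ring

/-- Good parameters exist. `lt` is the order of the rows, `idx` an injective numbering of the pairs of rows
by numbers smaller than `L`, the perturbation is `∑ (u < v) s ^ (L + idx u v) • (om u v • (E u v - E v u))`. This is
`pert` for one entry `(d, d')` (if the labels are not parallel along some edge) or for one entry `(d, v)` for each
vertex `v` reached. -/
theorem exists_good {Du : T → Prop} {Ok : T → T → Prop} {M : Matrix T T K} (hK : (2 : K) ≠ 0)
    (h : Inv Du Ok M) (hsym : ∀ u v, Ok u v → Ok v u) (hirr : ∀ u, ¬ Ok u u)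
    (hfl : ¬ FlM Du M) (lt : T → T → Prop)
    (hlt : ∀ r c, r ≠ c → (lt r c ↔ ¬ lt c r)) (idx : T → T → ℕ)
    (hidx : ∀ a b c d, idx a b = idx c d → a = c ∧ b = d) {L : ℕ} (hL : ∀ a b, idx a b < L)
    (om : T → T → K) (hom : ∀ r c, om r c = om c r) (hom0 : ∀ r c, om r c ≠ 0) (S : Finset K)
    (hS : (1 + Fintype.card T + Fintype.card T ^ 2) * (2 * L * Fintype.card T) < S.card) :
    ∃ s ∈ S, GoodM Du Ok M (M + s ^ L • Cs Du Ok lt idx om s) := by
  classical
  have hsk := h.sk hK hsym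
  set Q : Matrix T T K := M⁻¹ with hQ
  have hunit : IsUnit M.det := isUnit_iff_ne_zero.2 h.det
  have hMQ : M * Q = 1 := Matrix.mul_nonsing_inv M hunit
  -- the index set
  let ι := {x : T × T // lt x.1 x.2 ∧ ¬ Du x.1 ∧ ¬ Du x.2 ∧ Ok x.1 x.2}
  let D : ι → Matrix T T K := fun f => Dm om f.1
  let m : ι → ℕ := fun f => L + idx f.1.1 f.1.2
  have hm : Function.Injective m := by
    intro f g hfg
    have h1 : idx f.1.1 f.1.2 = idx g.1.1 g.1.2 := Nat.add_left_cancel hfg
    obtain ⟨h2, h3⟩ := hidx _ _ _ _ h1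
    exact Subtype.ext (Prod.ext h2 h3)
  have hmL : ∀ f, L ≤ m f := fun f => Nat.le_add_right _ _
  have hmU : ∀ f, m f < 2 * L := fun f => by
    have := hL f.1.1 f.1.2
    show L + idx f.1.1 f.1.2 < 2 * L
    omega
  -- a 2 × 2 minor that does not vanish gives a pair
  have hpair : ∀ d w u v, ¬ Du u → ¬ Du v → Ok u v →
      Q d u * Q v w - Q d v * Q u w ≠ 0 → ∃ f : ι, (Q * D f * Q) d w ≠ 0 := by
    intro d w u v hu hv huv hne
    have huv' : u ≠ v := by
      rintro rfl
      exact hirr _ huv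
    by_cases hl : lt u v
    · refine ⟨⟨(u, v), hl, hu, hv, huv⟩, ?_⟩
      show (Q * Dm om (u, v) * Q) d w ≠ 0
      rw [Dm_conj]
      exact mul_ne_zero (hom0 _ _) hne
    · have hl' : lt v u := by
        by_contra h1
        exact hl ((hlt _ _ huv').2 h1)
      refine ⟨⟨(v, u), hl', hv, hu, hsym _ _ huv⟩, ?_⟩
      show (Q * Dm om (v, u) * Q) d w ≠ 0
      rw [Dm_conj]
      refine mul_ne_zero (hom0 _ _) ?_
      intro h1
      apply hne
      rw [← neg_sub]
      exact neg_eq_zero.2 h1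
  let E : Finset (T × T) := Finset.univ.filter fun t => ¬ Du t.1 ∧ ¬ Du t.2 ∧ Ok t.1 t.2
  have hE : ∀ t ∈ E, M t.1 t.2 ≠ 0 := by
    intro t ht
    have h1 := (Finset.mem_filter.1 ht).2
    exact (h.ok _ _ h1.1 h1.2.1).2 h1.2.2
  have hEc : E.card ≤ Fintype.card T ^ 2 := by
    refine (Finset.card_le_univ _).trans ?_
    rw [Fintype.card_prod, sq]
  -- the entries of the inverse of the perturbed matrix
  have hinv : ∀ (N : Matrix T T K), N.det ≠ 0 → ∀ i j, N.adjugate i j ≠ 0 → N⁻¹ i j ≠ 0 := by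
    intro N hN i j hij
    rw [Matrix.inv_def, Matrix.smul_apply, smul_eq_mul, Ring.inverse_eq_inv']
    exact mul_ne_zero (inv_ne_zero hN) hij
  -- the general step
  have hmain : ∀ T' : Finset (T × T), T'.card ≤ Fintype.card T →
      (∀ t ∈ T', Q t.1 t.2 ≠ 0 ∨ ∃ f, (Q * D f * Q) t.1 t.2 ≠ 0) →
      ∃ s ∈ S, (M + s ^ L • Cs Du Ok lt idx om s).det ≠ 0 ∧
        (∀ t ∈ T', (M + s ^ L • Cs Du Ok lt idx om s)⁻¹ t.1 t.2 ≠ 0) ∧
        ∀ u v, ¬ Du u → ¬ Du v → Ok u v → (M + s ^ L • Cs Du Ok lt idx om s) u v ≠ 0 := by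
    intro T' hT'c hT'
    have hcard : (1 + T'.card + E.card) * (2 * L * Fintype.card T) < S.card := by
      refine lt_of_le_of_lt ?_ hS
      refine Nat.mul_le_mul_right _ ?_
      omega
    obtain ⟨s, hs, h1, h2, h3⟩ := Pool.Agent.Lib.MP_0087d5_lcF.pert M Q hMQ D m L hm hmL hmU T' E
      hT' hE S hcard
    have h4 : M + s ^ L • Cs Du Ok lt idx om s = M + ∑ f, s ^ m f • D f := by
      rw [Cs_eq hsym hirr lt hlt idx L om hom s]
    refine ⟨s, hs, ?_, ?_, ?_⟩
    · rw [h4]
      exact h1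
    · intro t ht
      rw [h4]
      exact hinv _ h1 _ _ (h2 t ht)
    · intro u v hu hv huv
      rw [h4]
      exact h3 (u, v) (Finset.mem_filter.2 ⟨Finset.mem_univ _, hu, hv, huv⟩)
  by_cases hpar : ParM Du Ok M
  · -- one entry for each vertex that is reached
    have hch : ∀ w, (LbM Du M w ∨ RcM Du Ok M w) → ¬ Du w ∧ ∃ d, ActM Du M d ∧
        (Q d w ≠ 0 ∨ ∃ f, (Q * D f * Q) d w ≠ 0) := by
      rintro w (hw | hw)
      · obtain ⟨h1, d, hd, h2⟩ := hw
        exact ⟨h1, d, hd, Or.inl h2⟩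
      · obtain ⟨h1, d, u, v, hd, hu, hv, huv, h2⟩ := hw
        exact ⟨h1, d, hd, Or.inr (hpair d w u v hu hv huv h2)⟩
    choose h1 g hg1 hg2 using hch
    have hmem : ∀ w : {w // w ∈ Finset.univ.filter fun w => LbM Du M w ∨ RcM Du Ok M w},
        LbM Du M w.1 ∨ RcM Du Ok M w.1 := fun w => (Finset.mem_filter.1 w.2).2
    let T' : Finset (T × T) := (Finset.univ.filter fun w => LbM Du M w ∨ RcM Du Ok M w).attach.image
      fun w => (g w.1 (hmem w), w.1)
    have hT'c : T'.card ≤ Fintype.card T := by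
      refine Finset.card_image_le.trans ?_
      rw [Finset.card_attach]
      exact Finset.card_le_univ _
    obtain ⟨s, hs, h2, h3, h4⟩ := hmain T' hT'c (by
      intro t ht
      obtain ⟨w, _, rfl⟩ := Finset.mem_image.1 ht
      exact hg2 w.1 (hmem w))
    refine ⟨s, hs, h2, h4, Or.inr ⟨hpar, ?_⟩⟩
    intro w hw
    refine ⟨h1 w hw, g w hw, ?_, ?_⟩
    · rw [act_pert]
      exact hg1 w hw
    · exact h3 (g w hw, w) (Finset.mem_image.2 ⟨⟨w, Finset.mem_filter.2 ⟨Finset.mem_univ _, hw⟩⟩,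
        Finset.mem_attach _ _, rfl⟩)
  · -- one entry
    unfold ParM at hpar
    push Not at hpar
    obtain ⟨d, d', u, v, hd, hd', hu, hv, huv, hne⟩ := hpar
    have hs1 : ∀ x, ¬ Du x → M⁻¹ x d' = - M⁻¹ d' x := fun x hx =>
      hsk.Qskew x d' (Or.inl hx) (Or.inr hd')
    obtain ⟨s, hs, h2, h3, h4⟩ := hmain {(d, d')} (by
      rw [Finset.card_singleton]
      have : Nonempty T := ⟨d⟩
      exact Fintype.card_pos) (by
      intro t ht
      rw [Finset.mem_singleton] at ht
      subst ht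
      refine Or.inr (hpair d d' u v hu hv huv ?_)
      rw [hQ, hs1 v hv, hs1 u hu]
      intro h5
      apply hne
      linear_combination -h5)
    refine ⟨s, hs, h2, h4, Or.inl ⟨d, d', ?_, ?_, h3 (d, d') (Finset.mem_singleton_self _)⟩⟩
    · rw [act_pert]
      exact hd
    · rw [act_pert]
      exact hd'

end Pool.Agent.FNC
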