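import Pool.Agent.Lib.MP_0087d5_lc.FN.Stage
import Pool.Agent.Lib.MP_0087d5_lc.FN.Par

set_option autoImplicit false
set_option linter.all false

/-!
# The meaning of one stage over the field of rational functions over the field with `p` elements
-/

namespace Pool.Agent.PMNC

open Relation Matrix FNC Polynomial

section bri
variable {T S : ℕ → Type} [Env T] [Env S] [∀ n, Fintype (T n)] [∀ n, Fintype (S n)] {n : ℕ}
variable {p : S n} {Du : T n → Prop} {Ok : T n → T n → Prop} {w : T n → T n → ℕ}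
  {B B' : T n → T n → ℤ}

/-- the order of the rows -/
def ltT (r c : T n) : Prop := nv r < nv c

/-- the exponents -/
noncomputable def ixT (r c : T n) : ℕ := nv (S := fun n => T n × T n) (r, c)

theorem ltT_iff (r c : T n) (h : r ≠ c) : ltT r c ↔ ¬ ltT c r := by
  unfold ltT
  have h1 : nv r ≠ nv c := fun hc => h (nv_injective hc)
  omega

theorem ixT_inj (a b c d : T n) (h : ixT a b = ixT c d) : a = c ∧ b = d := by
  have h1 := nv_injective (S := fun n => T n × T n) h
  exact ⟨congrArg Prod.fst h1, congrArg Prod.snd h1⟩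

theorem ixT_lt (a b : T n) : ixT a b < n ^ (dim T + dim T) := nv_lt (S := fun n => T n × T n) _

/-- the weighted matrix with polynomial entries -/
noncomputable def pM (p : S n) (w : T n → T n → ℕ) (B : T n → T n → ℤ) :
    Matrix (T n) (T n) (ZMod (nv p))[X] :=
  Matrix.of fun r c => C ((B r c : ℤ) : ZMod (nv p)) * X ^ w r c

/-- the weighted matrix over the field of rational functions -/
noncomputable def wM (p : S n) [Fact (nv p).Prime] (w : T n → T n → ℕ) (B : T n → T n → ℤ) :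
    Matrix (T n) (T n) (RatFunc (ZMod (nv p))) :=
  (pM p w B).map (algebraMap (ZMod (nv p))[X] (RatFunc (ZMod (nv p))))

/-- constants -/
noncomputable def cK (p : S n) [Fact (nv p).Prime] (a : ZMod (nv p)) : RatFunc (ZMod (nv p)) :=
  algebraMap (ZMod (nv p))[X] (RatFunc (ZMod (nv p))) (C a)

/-- the weights of the edges -/
noncomputable def omK (p : S n) [Fact (nv p).Prime] (w : T n → T n → ℕ) (r c : T n) :
    RatFunc (ZMod (nv p)) :=
  algebraMap (ZMod (nv p))[X] (RatFunc (ZMod (nv p))) (X ^ w r c)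

/-- the assumptions on the weights: zero on the dummies, symmetric, and smaller than `N`, where the prime
number `p` is larger than `2 * |T| * N` -/
structure Wok (p : S n) (Du : T n → Prop) (w : T n → T n → ℕ) (N : ℕ) : Prop where
  zero : ∀ r c, Du r ∨ Du c → w r c = 0
  symm : ∀ r c, w r c = w c r
  lt : ∀ r c, w r c < N
  deg : 2 * Fintype.card (T n) * N < nv p

theorem pM_apply (r c : T n) : pM p w B r c = C ((B r c : ℤ) : ZMod (nv p)) * X ^ w r c := rfl

open Classical in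
/-- a nonzero polynomial of small degree has a nonzero value -/
theorem exists_val [Fact (nv p).Prime] (P : (ZMod (nv p))[X]) (hP : P ≠ 0) (hd : P.natDegree < nv p) :
    ∃ x : S n, P.eval ((nv x : ℕ) : ZMod (nv p)) ≠ 0 := by
  by_contra hc
  push Not at hc
  apply hP
  refine Polynomial.eq_zero_of_natDegree_lt_card_of_eval_eq_zero' P Finset.univ (fun a _ => ?_) ?_
  · obtain ⟨x, hx⟩ := nv_down (b := p) (m := a.val) (ZMod.val_lt a)
    have h1 := hc x
    rw [hx, ZMod.natCast_zmod_val] at h1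
    exact h1
  · rw [Finset.card_univ, ZMod.card]
    exact hd

open Classical in
theorem pM_deg {N : ℕ} (hw : Wok p Du w N) (r c : T n) : (pM p w B r c).natDegree ≤ N := by
  rw [pM_apply]
  exact (natDegree_C_mul_X_pow_le _ _).trans (hw.lt r c).le

/-- the degree of a determinant -/
theorem det_deg {m R : Type*} [Fintype m] [DecidableEq m] [CommRing R] (M : Matrix m m R[X]) (N : ℕ)
    (h : ∀ r c, (M r c).natDegree ≤ N) : M.det.natDegree ≤ Fintype.card m * N := by
  rw [Matrix.det_apply]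
  refine natDegree_sum_le_of_forall_le _ _ fun σ _ => ?_
  refine le_trans (natDegree_smul_le _ _) ?_
  refine (natDegree_prod_le _ _).trans ?_
  refine (Finset.sum_le_card_nsmul _ _ N fun i _ => h _ _).trans ?_
  rw [Finset.card_univ, smul_eq_mul]

open Classical in
theorem adj_deg {N : ℕ} (hw : Wok p Du w N) (i j : T n) :
    ((pM p w B).adjugate i j).natDegree ≤ Fintype.card (T n) * N := by
  rw [Matrix.adjugate_apply]
  refine det_deg _ _ fun r c => ?_
  by_cases h : r = j
  · subst h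
    rw [Matrix.updateRow_self]
    by_cases hc : c = i
    · subst hc
      rw [Pi.single_eq_same, natDegree_one]
      exact Nat.zero_le _
    · rw [Pi.single_eq_of_ne hc, natDegree_zero]
      exact Nat.zero_le _
  · rw [Matrix.updateRow_ne h]
    exact pM_deg hw r c

theorem pM_eval (x : S n) :
    (pM p w B).map (evalRingHom ((nv x : ℕ) : ZMod (nv p))) =
      Matrix.of fun r c => ((wx w B x r c : ℤ) : ZMod (nv p)) := by
  ext r c
  rw [Matrix.map_apply, pM_apply]
  unfold wx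
  simp

open Classical in
theorem det_eval (x : S n) : (pM p w B).det.eval ((nv x : ℕ) : ZMod (nv p)) =
    ((Matrix.det (Matrix.of (wx w B x)) : ℤ) : ZMod (nv p)) := by
  rw [cast_det, ← pM_eval, ← coe_evalRingHom, RingHom.map_det]
  rfl

open Classical in
theorem adj_eval (x : S n) (i j : T n) :
    ((pM p w B).adjugate i j).eval ((nv x : ℕ) : ZMod (nv p)) =
      ((adz (wx w B x) i j : ℤ) : ZMod (nv p)) := by
  rw [adz_eq]
  have h1 := RingHom.map_adjugate (evalRingHom ((nv x : ℕ) : ZMod (nv p))) (pM p w B)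
  have h2 := congrFun (congrFun h1 i) j
  have h3 := RingHom.map_adjugate (Int.castRingHom (ZMod (nv p))) (Matrix.of (wx w B x))
  have h4 := congrFun (congrFun h3 i) j
  refine Eq.trans h2 (Eq.trans ?_ h4.symm)
  change ((pM p w B).map (evalRingHom ((nv x : ℕ) : ZMod (nv p)))).adjugate i j = _
  rw [pM_eval]
  rfl

open Classical in
/-- the entries of the adjugate matrix and of the inverse matrix -/
theorem inv_entry [Fact (nv p).Prime] (i j : T n) :
    (wM p w B)⁻¹ i j = ((wM p w B).det)⁻¹ *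
      algebraMap (ZMod (nv p))[X] (RatFunc (ZMod (nv p))) ((pM p w B).adjugate i j) := by
  have h1 := RingHom.map_adjugate (algebraMap (ZMod (nv p))[X] (RatFunc (ZMod (nv p)))) (pM p w B)
  have h2 := congrFun (congrFun h1 i) j
  rw [Matrix.inv_def, Matrix.smul_apply, smul_eq_mul, Ring.inverse_eq_inv']
  congr 1
  exact h2.symm

theorem aM_zero [Fact (nv p).Prime] {P : (ZMod (nv p))[X]} :
    algebraMap (ZMod (nv p))[X] (RatFunc (ZMod (nv p))) P = 0 ↔ P = 0 :=
  map_eq_zero_iff _ (IsFractionRing.injective (ZMod (nv p))[X] (RatFunc (ZMod (nv p))))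

open Classical in
theorem small {N : ℕ} (hw : Wok p Du w N) : Fintype.card (T n) * N < nv p := by
  have h := hw.deg
  rw [mul_assoc] at h
  omega

open Classical in
/-- a nonzero entry of the inverse matrix -/
theorem qax_iff [Fact (nv p).Prime] {N : ℕ} (hw : Wok p Du w N) (hd : (wM p w B).det ≠ 0) (i j : T n) :
    (∃ x : S n, qa p (wx w B x) i j) ↔ (wM p w B)⁻¹ i j ≠ 0 := by
  have h0 : 0 < nv p := (Fact.out : (nv p).Prime).pos
  rw [inv_entry, mul_ne_zero_iff, Ne, Ne, aM_zero, inv_eq_zero]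
  constructor
  · rintro ⟨x, hx⟩
    refine ⟨hd, fun hc => ?_⟩
    have h1 := (nd_iff h0).1 hx
    rw [← adj_eval, hc, eval_zero] at h1
    exact h1 rfl
  · rintro ⟨-, h1⟩
    obtain ⟨x, hx⟩ := exists_val _ h1 (lt_of_le_of_lt (adj_deg hw i j) (small hw))
    refine ⟨x, (nd_iff h0).2 ?_⟩
    rw [← adj_eval]
    exact hx

open Classical in
/-- a relation between the entries of the inverse matrix -/
theorem quad_iff [Fact (nv p).Prime] {N : ℕ} (hw : Wok p Du w N) (hd : (wM p w B).det ≠ 0)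
    (i₁ j₁ i₂ j₂ i₃ j₃ i₄ j₄ : T n) :
    (∃ x : S n, nd p (adz (wx w B x) i₁ j₁ * adz (wx w B x) i₂ j₂ -
      adz (wx w B x) i₃ j₃ * adz (wx w B x) i₄ j₄)) ↔
    (wM p w B)⁻¹ i₁ j₁ * (wM p w B)⁻¹ i₂ j₂ - (wM p w B)⁻¹ i₃ j₃ * (wM p w B)⁻¹ i₄ j₄ ≠ 0 := by
  have h0 : 0 < nv p := (Fact.out : (nv p).Prime).pos
  set A := (pM p w B).adjugate with hA
  set P := A i₁ j₁ * A i₂ j₂ - A i₃ j₃ * A i₄ j₄ with hP
  have h1 : (wM p w B)⁻¹ i₁ j₁ * (wM p w B)⁻¹ i₂ j₂ - (wM p w B)⁻¹ i₃ j₃ * (wM p w B)⁻¹ i₄ j₄ =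
      ((wM p w B).det)⁻¹ ^ 2 * algebraMap (ZMod (nv p))[X] (RatFunc (ZMod (nv p))) P := by
    rw [inv_entry, inv_entry, inv_entry, inv_entry, hP, map_sub, map_mul, map_mul]
    ring
  have h2 : ∀ x : S n, P.eval ((nv x : ℕ) : ZMod (nv p)) =
      ((adz (wx w B x) i₁ j₁ * adz (wx w B x) i₂ j₂ -
        adz (wx w B x) i₃ j₃ * adz (wx w B x) i₄ j₄ : ℤ) : ZMod (nv p)) := by
    intro x
    rw [hP, eval_sub, eval_mul, eval_mul, adj_eval, adj_eval, adj_eval, adj_eval]
    push_cast
    rfl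
  have h3 : P.natDegree < nv p := by
    have h4 := adj_deg (B := B) hw
    have h5 : P.natDegree ≤ Fintype.card (T n) * N + Fintype.card (T n) * N := by
      refine (natDegree_sub_le _ _).trans (max_le ?_ ?_)
      · exact natDegree_mul_le.trans (Nat.add_le_add (h4 _ _) (h4 _ _))
      · exact natDegree_mul_le.trans (Nat.add_le_add (h4 _ _) (h4 _ _))
    have h6 := hw.deg
    rw [mul_assoc] at h6
    omega
  rw [h1, mul_ne_zero_iff, Ne, Ne, aM_zero, pow_eq_zero_iff (by norm_num), inv_eq_zero]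
  constructor
  · rintro ⟨x, hx⟩
    refine ⟨hd, fun hc => ?_⟩
    have h4 := (nd_iff h0).1 hx
    rw [← h2, hc, eval_zero] at h4
    exact h4 rfl
  · rintro ⟨-, h4⟩
    obtain ⟨x, hx⟩ := exists_val _ h4 h3
    refine ⟨x, (nd_iff h0).2 ?_⟩
    rw [← h2]
    exact hx

open Classical in
/-- an entry of a dummy -/
theorem ent_iff [Fact (nv p).Prime] (r c : T n) (h : w r c = 0) :
    dv p (B r c - dlt r c) ↔ wM p w B r c = (1 : Matrix (T n) (T n) (RatFunc (ZMod (nv p)))) r c := by
  have h0 : 0 < nv p := (Fact.out : (nv p).Prime).pos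
  have h1 : wM p w B r c = algebraMap (ZMod (nv p))[X] (RatFunc (ZMod (nv p)))
      (C ((B r c : ℤ) : ZMod (nv p))) := by
    change algebraMap _ _ (pM p w B r c) = _
    rw [pM_apply, h, pow_zero, mul_one]
  have h2 : (1 : Matrix (T n) (T n) (RatFunc (ZMod (nv p)))) r c =
      algebraMap (ZMod (nv p))[X] (RatFunc (ZMod (nv p))) (C ((dlt r c : ℤ) : ZMod (nv p))) := by
    rw [Matrix.one_apply]
    by_cases hrc : r = c
    · subst hrc
      rw [if_pos rfl, dlt_self, Int.cast_one, C_1, map_one]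
    · rw [if_neg hrc, dlt_ne hrc, Int.cast_zero, C_0, map_zero]
  rw [dv_iff h0, h1, h2, Int.cast_sub, sub_eq_zero]
  constructor
  · intro h3
    rw [h3]
  · intro h3
    exact C_injective (IsFractionRing.injective (ZMod (nv p))[X] (RatFunc (ZMod (nv p))) h3)

open Classical in
theorem act_iff [Fact (nv p).Prime] {N : ℕ} (hw : Wok p Du w N) (i : T n) :
    act p Du B i ↔ ActM Du (wM p w B) i := by
  unfold act ActM ina InaM
  refine and_congr_right fun hi => not_congr (forall_congr' fun j => ?_)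
  exact and_congr (ent_iff _ _ (hw.zero i j (Or.inl hi))) (ent_iff _ _ (hw.zero j i (Or.inr hi)))

open Classical in
theorem det_iff [Fact (nv p).Prime] {N : ℕ} (hw : Wok p Du w N) :
    (∃ y : S n, nd p (Matrix.det (Matrix.of (wx w B y)))) ↔ (wM p w B).det ≠ 0 := by
  have h0 : 0 < nv p := (Fact.out : (nv p).Prime).pos
  have h1 : (wM p w B).det = algebraMap (ZMod (nv p))[X] (RatFunc (ZMod (nv p))) (pM p w B).det :=
    (RingHom.map_det _ _).symm
  rw [h1, Ne, aM_zero]
  constructor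
  · rintro ⟨x, hx⟩ hc
    have h4 := (nd_iff h0).1 hx
    rw [← det_eval, hc, eval_zero] at h4
    exact h4 rfl
  · intro h4
    obtain ⟨x, hx⟩ := exists_val _ h4
      (lt_of_le_of_lt (det_deg _ N fun r c => pM_deg hw r c) (small hw))
    refine ⟨x, (nd_iff h0).2 ?_⟩
    rw [← det_eval]
    exact hx

open Classical in
/-- one pair of dummies -/
theorem fl1_iff [Fact (nv p).Prime] {N : ℕ} (hw : Wok p Du w N) (hd : (wM p w B).det ≠ 0)
    (d : T n × T n) :
    flz p Du w B d ↔ ActM Du (wM p w B) d.1 ∧ ActM Du (wM p w B) d.2 ∧ (wM p w B)⁻¹ d.1 d.2 ≠ 0 := by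
  unfold flz
  rw [act_iff hw, act_iff hw, qax_iff hw hd]

open Classical in
theorem flz_iff [Fact (nv p).Prime] {N : ℕ} (hw : Wok p Du w N) (hd : (wM p w B).det ≠ 0) :
    (∃ d, flz p Du w B d) ↔ FlM Du (wM p w B) := by
  unfold FlM
  constructor
  · rintro ⟨d, h⟩
    exact ⟨d.1, d.2, (fl1_iff hw hd d).1 h⟩
  · rintro ⟨d, d', h⟩
    exact ⟨(d, d'), (fl1_iff hw hd (d, d')).2 h⟩

open Classical in
theorem parz_iff [Fact (nv p).Prime] {N : ℕ} (hw : Wok p Du w N) (hd : (wM p w B).det ≠ 0) :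
    parz p Du Ok w B ↔ ParM Du Ok (wM p w B) := by
  have h0 : 0 < nv p := (Fact.out : (nv p).Prime).pos
  have hnd : ∀ a : ℤ, dv p a ↔ ¬ nd p a := fun a => by rw [dv_iff h0, nd_iff h0, not_not]
  unfold parz ParM
  constructor
  · intro h d d' u v hd1 hd2 hu hv huv
    by_contra hc
    obtain ⟨x, hx⟩ := (quad_iff hw hd _ _ _ _ _ _ _ _).2 (sub_ne_zero.2 hc)
    exact (hnd _).1 (h x d d' u v ((act_iff hw d).2 hd1) ((act_iff hw d').2 hd2) hu hv huv) hx
  · intro h x d d' u v hd1 hd2 hu hv huv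
    rw [hnd]
    intro hc
    have h1 := (quad_iff hw hd d u d' v d v d' u).1 ⟨x, hc⟩
    exact h1 (sub_eq_zero.2 (h d d' u v ((act_iff hw d).1 hd1) ((act_iff hw d').1 hd2) hu hv huv))

open Classical in
theorem lbz_iff [Fact (nv p).Prime] {N : ℕ} (hw : Wok p Du w N) (hd : (wM p w B).det ≠ 0)
    (v : T n) : lbz p Du w B v ↔ LbM Du (wM p w B) v := by
  unfold lbz LbM Lb
  refine and_congr_right fun _ => ?_
  constructor
  · rintro ⟨x, d, h1, h2⟩
    exact ⟨d, (act_iff hw d).1 h1, (qax_iff hw hd d v).1 ⟨x, h2⟩⟩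
  · rintro ⟨d, h1, h2⟩
    obtain ⟨x, hx⟩ := (qax_iff hw hd d v).2 h2
    exact ⟨x, d, (act_iff hw d).2 h1, hx⟩

open Classical in
theorem rcz_iff [Fact (nv p).Prime] {N : ℕ} (hw : Wok p Du w N) (hd : (wM p w B).det ≠ 0)
    (v : T n) : rcz p Du Ok w B v ↔ RcM Du Ok (wM p w B) v := by
  unfold rcz RcM Rc
  refine and_congr_right fun _ => ?_
  constructor
  · rintro ⟨x, d, u, u', h1, h2, h3, h4, h5⟩
    exact ⟨d, u, u', (act_iff hw d).1 h1, h2, h3, h4, (quad_iff hw hd d u u' v d u' u v).1 ⟨x, h5⟩⟩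
  · rintro ⟨d, u, u', h1, h2, h3, h4, h5⟩
    obtain ⟨x, hx⟩ := (quad_iff hw hd d u u' v d u' u v).2 h5
    exact ⟨x, d, u, u', (act_iff hw d).2 h1, h2, h3, h4, hx⟩

end bri

end Pool.Agent.PMNC
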