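import Pool.Agent.Lib.MP_0087d5_lc.FN.Bri

set_option autoImplicit false
set_option linter.all false

/-!
# One stage as a step of matrices over the field of rational functions
-/

namespace Pool.Agent.PMNC

open Relation Matrix FNC Polynomial

section bri
variable {T S : ℕ → Type} [Env T] [Env S] [∀ n, Fintype (T n)] [∀ n, Fintype (S n)] {n : ℕ}
variable {p : S n} {Du : T n → Prop} {Ok : T n → T n → Prop} {w : T n → T n → ℕ}
  {B B' : T n → T n → ℤ}

private theorem wM_apply [Fact (nv p).Prime] (B : T n → T n → ℤ) (r c : T n) :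
    wM p w B r c = algebraMap (ZMod (nv p))[X] (RatFunc (ZMod (nv p)))
      (C ((B r c : ℤ) : ZMod (nv p)) * X ^ w r c) := rfl

private theorem wM_apply_ne [Fact (nv p).Prime] (B : T n → T n → ℤ) (r c : T n) :
    wM p w B r c ≠ 0 ↔ nd p (B r c) := by
  have hp : 0 < nv p := (Fact.out : (nv p).Prime).pos
  rw [wM_apply, nd_iff hp, Ne, map_eq_zero_iff _ (RatFunc.algebraMap_injective _), mul_eq_zero,
    Polynomial.C_eq_zero]
  constructor
  · intro h hc
    exact h (Or.inl hc)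
  · rintro h (hc | hc)
    · exact h hc
    · exact pow_ne_zero _ Polynomial.X_ne_zero hc

open Classical in
theorem wM_prt [Fact (nv p).Prime] {N : ℕ} (hw : Wok p Du w N) (s e : S n) :
    wM p w (prt Du Ok B s e) = wM p w B +
      cK p (nv e : ZMod (nv p)) • Cs Du Ok ltT ixT (omK p w) (cK p (nv s : ZMod (nv p))) := by
  ext r c
  rw [Matrix.add_apply, Matrix.smul_apply, smul_eq_mul, wM_apply, wM_apply]
  unfold Cs prt
  rw [Matrix.of_apply]
  by_cases h1 : ¬ Du r ∧ ¬ Du c ∧ Ok r c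
  · rw [cnd_pos h1, if_pos h1]
    by_cases h2 : nv r < nv c
    · have h3 : ltT r c := h2
      rw [cnd_pos h2, if_pos h3]
      unfold cK omK ixT
      rw [← map_pow, ← map_mul, ← map_mul, ← map_add]
      congr 1
      push_cast
      simp only [map_add, map_mul, map_pow, map_natCast]
      ring
    · have h3 : ¬ ltT r c := h2
      rw [cnd_neg h2, if_neg h3]
      unfold cK omK ixT
      rw [← map_pow, ← map_neg, ← map_mul, ← map_mul, ← map_add]
      congr 1
      push_cast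
      simp only [map_add, map_mul, map_pow, map_natCast, map_neg]
      ring
  · rw [cnd_neg h1, if_neg h1, add_zero, mul_zero, add_zero]

/-- a matrix depends only on the residues of the entries -/
theorem wM_congr [Fact (nv p).Prime] (h : ∀ r c, (nv p : ℤ) ∣ B r c - B' r c) :
    wM p w B = wM p w B' := by
  ext r c
  rw [wM_apply, wM_apply, (cg_iff (p := p)).1 h r c]

open Classical in
/-- good parameters exist at the level of numbers iff they exist in the field with `p` elements -/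
theorem gdz_iff [Fact (nv p).Prime] {N : ℕ} (hw : Wok p Du w N) (hd : (wM p w B).det ≠ 0)
    (x : S n × S n) : gdz p Du Ok w B x ↔ (nv x.1 < nv p ∧ nv x.2 < nv p) ∧
      GoodM Du Ok (wM p w B) (wM p w B + cK p (nv x.2 : ZMod (nv p)) •
        Cs Du Ok ltT ixT (omK p w) (cK p (nv x.1 : ZMod (nv p)))) := by
  unfold gdz GoodM
  rw [← wM_prt hw]
  refine and_congr_right fun _ => ?_
  rw [det_iff hw]
  refine and_congr_right fun hN => ?_
  refine and_congr ?_ ?_
  · refine forall_congr' fun u => forall_congr' fun v => forall_congr' fun _ => forall_congr' fun _ =>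
      forall_congr' fun _ => ?_
    exact (wM_apply_ne _ u v).symm
  · refine or_congr (flz_iff hw hN) (and_congr (parz_iff hw hd) ?_)
    refine forall_congr' fun v => ?_
    rw [lbz_iff hw hd, rcz_iff hw hd, lbz_iff hw hN]

/-- a sum over one element -/
theorem sum_cnd {A : Type*} [Fintype A] {P : A → Prop} {g : A → ℤ} {a : A} (ha : P a)
    (hu : ∀ b, P b → b = a) : ∑ b, cnd (P b) (g b) 0 = g a := by
  rw [Finset.sum_eq_single a]
  · exact cnd_pos ha _ _
  · intro b _ hb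
    exact cnd_neg (fun h => hb (hu b h)) _ _
  · intro h
    exact absurd (Finset.mem_univ a) h

/-- the least element of a nonempty set -/
theorem exists_nv_min {A : ℕ → Type} [Env A] {P : A n → Prop} (h : ∃ a, P a) :
    ∃ a, (P a ∧ ∀ b, P b → nv a ≤ nv b) ∧ ∀ a', (P a' ∧ ∀ b, P b → nv a' ≤ nv b) → a' = a := by
  classical
  have h1 : ∃ m, ∃ a, P a ∧ nv a = m := by
    obtain ⟨a, ha⟩ := h
    exact ⟨_, a, ha, rfl⟩
  obtain ⟨a, ha, hm⟩ := Nat.find_spec h1
  have h2 : ∀ b, P b → nv a ≤ nv b := fun b hb => by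
    rw [hm]
    exact Nat.find_min' h1 ⟨b, hb, rfl⟩
  refine ⟨a, ⟨ha, h2⟩, fun a' h' => nv_injective (le_antisymm (h'.2 a ha) (h2 a' h'.1))⟩

open Classical in
/-- removing two dummies -/
theorem wM_rmz [Fact (nv p).Prime] {N : ℕ} (hw : Wok p Du w N) {d : T n × T n} (h1 : Du d.1)
    (h2 : Du d.2) : wM p w (rmz B d) = RemM (wM p w B) d.1 d.2 := by
  funext r c
  have key : RemM (wM p w B) d.1 d.2 r c =
      if r = d.1 ∨ c = d.1 ∨ r = d.2 ∨ c = d.2 then
        (1 : Matrix (T n) (T n) (RatFunc (ZMod (nv p)))) r c else wM p w B r c := rfl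
  rw [key, wM_apply]
  unfold rmz
  by_cases h : r = d.1 ∨ c = d.1 ∨ r = d.2 ∨ c = d.2
  · rw [if_pos h, cnd_pos h]
    have h3 : Du r ∨ Du c := by
      rcases h with h | h | h | h
      · exact Or.inl (h ▸ h1)
      · exact Or.inr (h ▸ h1)
      · exact Or.inl (h ▸ h2)
      · exact Or.inr (h ▸ h2)
    rw [hw.zero r c h3, pow_zero, mul_one]
    unfold dlt
    by_cases hrc : r = c
    · rw [cnd_pos hrc, hrc, Matrix.one_apply_eq, Int.cast_one, C_1, map_one]
    · rw [cnd_neg hrc, Matrix.one_apply_ne hrc, Int.cast_zero, C_0, map_zero]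
  · rw [if_neg h, cnd_neg h]
    rfl

theorem ex_lfz (h : ∃ d, flz p Du w B d) :
    ∃ d, lfz p Du w B d ∧ nxF p Du Ok w B = rmz B d := by
  obtain ⟨d, hd, hu⟩ := exists_nv_min (A := fun n => T n × T n) (P := flz p Du w B) h
  refine ⟨d, hd, ?_⟩
  funext r c
  unfold nxF
  rw [cnd_pos ⟨d, hd⟩]
  exact sum_cnd (P := fun d => lfz p Du w B d) (g := fun d => rmz B d r c) hd hu

theorem no_lfz (h : ¬ ∃ d, flz p Du w B d) : ¬ ∃ d, lfz p Du w B d :=
  fun ⟨d, hd⟩ => h ⟨d, hd.1⟩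

open Classical in
theorem no_flz [Fact (nv p).Prime] {N : ℕ} (hw : Wok p Du w N) (hd : (wM p w B).det ≠ 0)
    (h : ¬ FlM Du (wM p w B)) : ¬ ∃ d, flz p Du w B d := by
  rintro ⟨d, h1⟩
  obtain ⟨h2, h3, h4⟩ := (fl1_iff hw hd d).1 h1
  exact h ⟨d.1, d.2, h2, h3, h4⟩

/-- residues as numbers -/
theorem exists_res [Fact (nv p).Prime] (a : ZMod (nv p)) :
    ∃ s : S n, nv s < nv p ∧ ((nv s : ℕ) : ZMod (nv p)) = a := by
  have h0 : (nv p) ≠ 0 := (Fact.out : (nv p).Prime).ne_zero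
  haveI : NeZero (nv p) := ⟨h0⟩
  obtain ⟨s, hs⟩ := nv_down (b := p) (m := a.val) (ZMod.val_lt a)
  refine ⟨s, ?_, ?_⟩
  · rw [hs]
    exact ZMod.val_lt a
  · rw [hs]
    exact ZMod.natCast_zmod_val a

open Classical in
/-- first case: two dummies are removed -/
theorem nxF_fl [Fact (nv p).Prime] {N : ℕ} (hw : Wok p Du w N) (hd : (wM p w B).det ≠ 0)
    (h : FlM Du (wM p w B)) :
    ∃ d d', ActM Du (wM p w B) d ∧ ActM Du (wM p w B) d' ∧ (wM p w B)⁻¹ d d' ≠ 0 ∧
      wM p w (nxF p Du Ok w B) = RemM (wM p w B) d d' := by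
  obtain ⟨d₀, d₀', h1, h2, h3⟩ := h
  obtain ⟨d, h4, h5⟩ := ex_lfz (p := p) (Du := Du) (Ok := Ok) (w := w) (B := B)
    ⟨(d₀, d₀'), (fl1_iff hw hd (d₀, d₀')).2 ⟨h1, h2, h3⟩⟩
  obtain ⟨h6, h7, h8⟩ := (fl1_iff hw hd d).1 h4.1
  exact ⟨d.1, d.2, h6, h7, h8, by rw [h5]; exact wM_rmz hw h6.1 h7.1⟩

open Classical in
/-- second case: a good perturbation -/
theorem nxF_good [Fact (nv p).Prime] {N : ℕ} (hw : Wok p Du w N) (hd : (wM p w B).det ≠ 0)
    (h : ¬ FlM Du (wM p w B)) (ha : ∃ i, ActM Du (wM p w B) i)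
    (hg : ∃ s e : ZMod (nv p), GoodM Du Ok (wM p w B)
      (wM p w B + cK p e • Cs Du Ok ltT ixT (omK p w) (cK p s))) :
    ∃ s e : ZMod (nv p), GoodM Du Ok (wM p w B)
        (wM p w B + cK p e • Cs Du Ok ltT ixT (omK p w) (cK p s)) ∧
      wM p w (nxF p Du Ok w B) = wM p w B + cK p e • Cs Du Ok ltT ixT (omK p w) (cK p s) := by
  obtain ⟨s, e, hse⟩ := hg
  obtain ⟨s', hs1, hs2⟩ := exists_res (p := p) s
  obtain ⟨e', he1, he2⟩ := exists_res (p := p) e
  have h1 : gdz p Du Ok w B (s', e') := by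
    refine (gdz_iff hw hd (s', e')).2 ⟨⟨hs1, he1⟩, ?_⟩
    rw [hs2, he2]
    exact hse
  obtain ⟨x, hx, hu⟩ := exists_nv_min (A := fun n => S n × S n) (P := gdz p Du Ok w B) ⟨_, h1⟩
  have h2 : nxF p Du Ok w B = prt Du Ok B x.1 x.2 := by
    funext r c
    unfold nxF
    rw [cnd_neg (no_lfz (no_flz hw hd h)), cnd_pos]
    · exact sum_cnd (P := fun x => lgz p Du Ok w B x) (g := fun x => prt Du Ok B x.1 x.2 r c) hx hu
    · obtain ⟨i, hi⟩ := ha
      exact ⟨⟨i, (act_iff hw i).2 hi⟩, x, hx⟩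
  refine ⟨_, _, ((gdz_iff hw hd x).1 hx.1).2, ?_⟩
  rw [h2]
  exact wM_prt hw x.1 x.2

open Classical in
/-- third case: no dummy is active or there are no good parameters -/
theorem nxF_stay [Fact (nv p).Prime] {N : ℕ} (hw : Wok p Du w N) (hd : (wM p w B).det ≠ 0)
    (h : ¬ FlM Du (wM p w B))
    (ha : ¬ ((∃ i, ActM Du (wM p w B) i) ∧ ∃ s e : ZMod (nv p), GoodM Du Ok (wM p w B)
      (wM p w B + cK p e • Cs Du Ok ltT ixT (omK p w) (cK p s)))) :
    wM p w (nxF p Du Ok w B) = wM p w B := by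
  have h2 : nxF p Du Ok w B = B := by
    funext r c
    unfold nxF
    rw [cnd_neg (no_lfz (no_flz hw hd h)), cnd_neg]
    rintro ⟨⟨i, hi⟩, x, hx⟩
    exact ha ⟨⟨i, (act_iff hw i).1 hi⟩, _, _, ((gdz_iff hw hd x).1 hx.1).2⟩
  rw [h2]

/-- the matrix after one stage, stored in a relation -/
theorem wM_stgF [Fact (nv p).Prime] (R : (T n × T n) × S n → Prop) :
    wM p w (vlF (stgF p Du Ok w R)) = wM p w (nxF p Du Ok w (vlF R)) := by
  have hp : 0 < nv p := (Fact.out : (nv p).Prime).pos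
  refine (wM_congr fun r c => ?_).symm
  exact vl_eq (b := (r, c)) hp (fun s => Iff.rfl)

theorem wM_rlF [Fact (nv p).Prime] (B : T n → T n → ℤ) : wM p w (vlF (rlF p B)) = wM p w B := by
  have hp : 0 < nv p := (Fact.out : (nv p).Prime).pos
  refine (wM_congr fun r c => ?_).symm
  exact vl_eq (b := (r, c)) hp (fun s => Iff.rfl)

end bri

end Pool.Agent.PMNC
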