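import Pool.Agent.Lib.MP_0087d5_lc.ZStep

set_option autoImplicit false
set_option linter.all false

/-!
# One stage: the definitions
-/

namespace Pool.Agent.PMNC

open Relation Matrix

section defs
variable {T S : ℕ → Type} [Env T] [Env S] [∀ n, Fintype (T n)] [∀ n, Fintype (S n)] {n : ℕ}
variable (p : S n) (Du : T n → Prop) (Ok : T n → T n → Prop) (w : T n → T n → ℕ) (B : T n → T n → ℤ)

/-- the weighted matrix at the point `x` -/
noncomputable def wx (x : S n) (r c : T n) : ℤ := B r c * ((nv x : ℕ) : ℤ) ^ w r c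

/-- two active dummies can be removed -/
def flz (d : T n × T n) : Prop :=
  act p Du B d.1 ∧ act p Du B d.2 ∧ ∃ x : S n, qa p (wx w B x) d.1 d.2

/-- the least such pair -/
def lfz (d : T n × T n) : Prop :=
  flz p Du w B d ∧ ∀ d', flz p Du w B d' →
    nv (S := fun n => T n × T n) d ≤ nv (S := fun n => T n × T n) d'

/-- the labels are parallel along the edges -/
def parz : Prop := ∀ (x : S n) d d' u v, act p Du B d → act p Du B d' → ¬ Du u → ¬ Du v → Ok u v →
  dv p (adz (wx w B x) d u * adz (wx w B x) d' v - adz (wx w B x) d v * adz (wx w B x) d' u)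

/-- labelled vertices -/
def lbz (v : T n) : Prop := ¬ Du v ∧ ∃ (x : S n) (d : T n), act p Du B d ∧ qa p (wx w B x) d v

/-- vertices reached by one edge -/
def rcz (v : T n) : Prop := ¬ Du v ∧ ∃ (x : S n) (d u u' : T n),
  act p Du B d ∧ ¬ Du u ∧ ¬ Du u' ∧ Ok u u' ∧
    nd p (adz (wx w B x) d u * adz (wx w B x) u' v - adz (wx w B x) d u' * adz (wx w B x) u v)

/-- the perturbed matrix -/
noncomputable def prt (s e : S n) (r c : T n) : ℤ :=
  B r c + cnd (¬ Du r ∧ ¬ Du c ∧ Ok r c)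
    (((nv e : ℕ) : ℤ) * cnd (nv r < nv c) (((nv s : ℕ) : ℤ) ^ nv (S := fun n => T n × T n) (r, c))
      (- ((nv s : ℕ) : ℤ) ^ nv (S := fun n => T n × T n) (c, r))) 0

open Classical in
/-- good parameters -/
def gdz (x : S n × S n) : Prop :=
  (nv x.1 < nv p ∧ nv x.2 < nv p) ∧
  (∃ y : S n, nd p (Matrix.det (Matrix.of (wx w (prt Du Ok B x.1 x.2) y)))) ∧
  (∀ u v, ¬ Du u → ¬ Du v → Ok u v → nd p (prt Du Ok B x.1 x.2 u v)) ∧
  ((∃ d, flz p Du w (prt Du Ok B x.1 x.2) d) ∨
    (parz p Du Ok w B ∧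
      ∀ v, (lbz p Du w B v ∨ rcz p Du Ok w B v) → lbz p Du w (prt Du Ok B x.1 x.2) v))

/-- the least good parameters -/
def lgz (x : S n × S n) : Prop :=
  gdz p Du Ok w B x ∧ ∀ x', gdz p Du Ok w B x' →
    nv (S := fun n => S n × S n) x ≤ nv (S := fun n => S n × S n) x'

/-- remove two dummies -/
noncomputable def rmz (d : T n × T n) (r c : T n) : ℤ :=
  cnd (r = d.1 ∨ c = d.1 ∨ r = d.2 ∨ c = d.2) (dlt r c) (B r c)

/-- the matrix after one stage -/
noncomputable def nxF (r c : T n) : ℤ :=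
  cnd (∃ d, lfz p Du w B d) (∑ d : T n × T n, cnd (lfz p Du w B d) (rmz B d r c) 0)
    (cnd ((∃ i, act p Du B i) ∧ ∃ x, lgz p Du Ok w B x)
      (∑ x : S n × S n, cnd (lgz p Du Ok w B x) (prt Du Ok B x.1 x.2 r c) 0) (B r c))

end defs

section sem
variable {T S : ℕ → Type} [Env T] [Env S] [∀ n, Fintype (T n)] [∀ n, Fintype (S n)] {n : ℕ}

/-- the matrix stored in a relation -/
noncomputable def vlF (R : (T n × T n) × S n → Prop) (r c : T n) : ℤ := vl R (r, c)

/-- a matrix as a relation -/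
def rlF (p : S n) (B : T n → T n → ℤ) (y : (T n × T n) × S n) : Prop := rsd p y.2 (B y.1.1 y.1.2)

/-- one stage -/
def stgF (p : S n) (Du : T n → Prop) (Ok : T n → T n → Prop) (w : T n → T n → ℕ)
    (R : (T n × T n) × S n → Prop) (y : (T n × T n) × S n) : Prop :=
  rsd p y.2 (nxF p Du Ok w (vlF R) y.1.1 y.1.2)

open Classical in
/-- the matrix is nonsingular and no dummy is active -/
def finF (p : S n) (Du : T n → Prop) (w : T n → T n → ℕ) (R : (T n × T n) × S n → Prop) : Prop :=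
  (∃ y : S n, nd p (Matrix.det (Matrix.of (wx w (vlF R) y)))) ∧ ∀ i, ¬ act p Du (vlF R) i

end sem

end Pool.Agent.PMNC
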