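import Pool.Agent.Lib.MP_0087d5_lc.ZDefS
import Pool.Agent.Lib.MP_0087d5_lc.FN.Stage

set_option autoImplicit false
set_option linter.all false

/-!
# The stages are definable

Model: `ZDefS.lean` (same shape; `DefZ.adz`, `DefP.act`, `DefP.qa` are there).
-/

namespace Pool.Agent.PMNC

open Relation

section def_
variable {E T S : ℕ → Type} [Env E] [Env T] [Env S] [∀ n, Fintype (T n)] [∀ n, Fintype (S n)]
variable {p : ∀ n : ℕ, E n → S n}
  {Du : ∀ n : ℕ, SimpleGraph (Fin n) → Ctx n → E n → T n → Prop}
  {Ok : ∀ n : ℕ, SimpleGraph (Fin n) → Ctx n → E n → T n → T n → Prop}
  {w : ∀ n : ℕ, SimpleGraph (Fin n) → Ctx n → E n → T n → T n → ℕ}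
  {B : ∀ n : ℕ, SimpleGraph (Fin n) → Ctx n → E n → T n → T n → ℤ}

theorem DefZ.wx (hp : Tm p)
    (hw : DefZ (E := fun n => (E n × S n) × (T n × T n)) (fun n y => p n y.1.1)
      (fun n G X y => ((nv y.1.2 : ℕ) : ℤ) ^ w n G X y.1.1 y.2.1 y.2.2))
    (hB : DefZ (E := fun n => E n × (T n × T n)) (fun n y => p n y.1)
      (fun n G X y => B n G X y.1 y.2.1 y.2.2)) :
    DefZ (E := fun n => (E n × S n) × (T n × T n)) (fun n y => p n y.1.1)
      (fun n G X y => PMNC.wx (w n G X y.1.1) (B n G X y.1.1) y.1.2 y.2.1 y.2.2) := by
  unfold PMNC.wx
  have hp1 : Tm (fun n (y : (E n × S n) × (T n × T n)) => p n y.1.1) :=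
    hp.comp (Tm.fst (Tm.fst Tm.id))
  exact DefZ.mul hp1 (DefZ.comp (E := fun n => (E n × S n) × (T n × T n)) hB
    (f := fun n y => (y.1.1, y.2))
      (by (repeat' (first
            | apply DefP.nOne | apply DefP.nZero | apply DefP.nSucc | apply DefP.nAdd
            | apply DefP.nLt | apply DefP.nLe | apply DefP.nEq | apply DefP.hlf
            | apply DefP.p1le | apply DefP.p1 | apply DefP.p0 | apply DefP.aug | apply DefP.pth
            | apply DefP.nx | apply DefP.cnd | apply DefP.hmin | apply DefP.hit
            | apply DefP.cdn | apply DefP.firstEx | apply DefP.exN | apply DefP.end_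
            | apply DefP.isZero | apply DefP.isSucc | apply DefP.alt | apply DefP.exr
            | apply DefP.exl | apply DefP.side | apply DefP.oddCard | apply DefP.cardEq
            | apply DefP.cardLt | apply DefP.cardLe | apply DefP.lst | apply DefP.fst
            | apply DefP.nxt | apply DefP.keyLe | apply DefP.keyLt | apply DefP.rtc
            | (apply DefP.app4; assumption) | (apply DefP.app3'; assumption)
            | (apply DefP.app3; assumption) | (apply DefP.app2; assumption)
            | (apply DefP.comp; assumption) | exact Tm.id | exact Tm.unit | apply Tm.fst
            | apply Tm.snd | apply Tm.app | exact DefP.const _ | apply DefP.and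
            | apply DefP.not | apply DefP.or | apply DefP.iff | apply DefP.adj | apply DefP.le
            | apply DefP.lt | apply DefP.eqFin | apply DefP.eq | apply DefP.rv | apply DefP.imp
            | apply DefP.allFin | apply DefP.exFin | apply DefP.all | apply DefP.ex
            | assumption | (apply Tm.comp; assumption) | apply Tm.pair | apply Tm.lam)))) hw

theorem DefP.flz (hp : Tm p)
    (hDu : DefP (E := fun n => E n × T n) (fun n G X y => Du n G X y.1 y.2))
    (hw : DefZ (E := fun n => (E n × S n) × (T n × T n)) (fun n y => p n y.1.1)
      (fun n G X y => ((nv y.1.2 : ℕ) : ℤ) ^ w n G X y.1.1 y.2.1 y.2.2))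
    (hB : DefZ (E := fun n => E n × (T n × T n)) (fun n y => p n y.1)
      (fun n G X y => B n G X y.1 y.2.1 y.2.2)) :
    DefP (E := fun n => E n × (T n × T n))
      (fun n G X y => PMNC.flz (p n y.1) (Du n G X y.1) (w n G X y.1) (B n G X y.1) y.2) := by
  unfold PMNC.flz
  have hp' : Tm (fun n (y : E n × S n) => p n y.1) := hp.comp (Tm.fst Tm.id)
  have hact := DefP.act hp hDu hB
  have hqa := DefP.qa (E := fun n => E n × S n) (T := T) (S := S) (p := fun n y => p n y.1)
    (B := fun n G X y => PMNC.wx (w n G X y.1) (B n G X y.1) y.2) hp' (DefZ.wx hp hw hB)
  refine DefP.and ?_ (DefP.and ?_ (DefP.ex ?_))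
  · exact DefP.comp (F := fun n => E n × T n)
      (f := fun n (y : E n × (T n × T n)) => (y.1, y.2.1)) hact
        (by (repeat' (first
              | apply DefP.nOne | apply DefP.nZero | apply DefP.nSucc | apply DefP.nAdd
              | apply DefP.nLt | apply DefP.nLe | apply DefP.nEq | apply DefP.hlf
              | apply DefP.p1le | apply DefP.p1 | apply DefP.p0 | apply DefP.aug
              | apply DefP.pth | apply DefP.nx | apply DefP.cnd | apply DefP.hmin
              | apply DefP.hit | apply DefP.cdn | apply DefP.firstEx | apply DefP.exN
              | apply DefP.end_ | apply DefP.isZero | apply DefP.isSucc | apply DefP.alt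
              | apply DefP.exr | apply DefP.exl | apply DefP.side | apply DefP.oddCard
              | apply DefP.cardEq | apply DefP.cardLt | apply DefP.cardLe | apply DefP.lst
              | apply DefP.fst | apply DefP.nxt | apply DefP.keyLe | apply DefP.keyLt
              | apply DefP.rtc | (apply DefP.app4; assumption) | (apply DefP.app3'; assumption)
              | (apply DefP.app3; assumption) | (apply DefP.app2; assumption)
              | (apply DefP.comp; assumption) | exact Tm.id | exact Tm.unit | apply Tm.fst
              | apply Tm.snd | apply Tm.app | exact DefP.const _ | apply DefP.and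
              | apply DefP.not | apply DefP.or | apply DefP.iff | apply DefP.adj
              | apply DefP.le | apply DefP.lt | apply DefP.eqFin | apply DefP.eq
              | apply DefP.rv | apply DefP.imp | apply DefP.allFin | apply DefP.exFin
              | apply DefP.all | apply DefP.ex | assumption | (apply Tm.comp; assumption)
              | apply Tm.pair | apply Tm.lam)))
  · exact DefP.comp (F := fun n => E n × T n)
      (f := fun n (y : E n × (T n × T n)) => (y.1, y.2.2)) hact
        (by (repeat' (first
              | apply DefP.nOne | apply DefP.nZero | apply DefP.nSucc | apply DefP.nAdd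
              | apply DefP.nLt | apply DefP.nLe | apply DefP.nEq | apply DefP.hlf
              | apply DefP.p1le | apply DefP.p1 | apply DefP.p0 | apply DefP.aug
              | apply DefP.pth | apply DefP.nx | apply DefP.cnd | apply DefP.hmin
              | apply DefP.hit | apply DefP.cdn | apply DefP.firstEx | apply DefP.exN
              | apply DefP.end_ | apply DefP.isZero | apply DefP.isSucc | apply DefP.alt
              | apply DefP.exr | apply DefP.exl | apply DefP.side | apply DefP.oddCard
              | apply DefP.cardEq | apply DefP.cardLt | apply DefP.cardLe | apply DefP.lst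
              | apply DefP.fst | apply DefP.nxt | apply DefP.keyLe | apply DefP.keyLt
              | apply DefP.rtc | (apply DefP.app4; assumption) | (apply DefP.app3'; assumption)
              | (apply DefP.app3; assumption) | (apply DefP.app2; assumption)
              | (apply DefP.comp; assumption) | exact Tm.id | exact Tm.unit | apply Tm.fst
              | apply Tm.snd | apply Tm.app | exact DefP.const _ | apply DefP.and
              | apply DefP.not | apply DefP.or | apply DefP.iff | apply DefP.adj
              | apply DefP.le | apply DefP.lt | apply DefP.eqFin | apply DefP.eq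
              | apply DefP.rv | apply DefP.imp | apply DefP.allFin | apply DefP.exFin
              | apply DefP.all | apply DefP.ex | assumption | (apply Tm.comp; assumption)
              | apply Tm.pair | apply Tm.lam)))
  · exact DefP.comp (F := fun n => (E n × S n) × (T n × T n))
      (f := fun n (y : (E n × (T n × T n)) × S n) => ((y.1.1, y.2), y.1.2)) hqa
        (by (repeat' (first
              | apply DefP.nOne | apply DefP.nZero | apply DefP.nSucc | apply DefP.nAdd
              | apply DefP.nLt | apply DefP.nLe | apply DefP.nEq | apply DefP.hlf
              | apply DefP.p1le | apply DefP.p1 | apply DefP.p0 | apply DefP.aug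
              | apply DefP.pth | apply DefP.nx | apply DefP.cnd | apply DefP.hmin
              | apply DefP.hit | apply DefP.cdn | apply DefP.firstEx | apply DefP.exN
              | apply DefP.end_ | apply DefP.isZero | apply DefP.isSucc | apply DefP.alt
              | apply DefP.exr | apply DefP.exl | apply DefP.side | apply DefP.oddCard
              | apply DefP.cardEq | apply DefP.cardLt | apply DefP.cardLe | apply DefP.lst
              | apply DefP.fst | apply DefP.nxt | apply DefP.keyLe | apply DefP.keyLt
              | apply DefP.rtc | (apply DefP.app4; assumption) | (apply DefP.app3'; assumption)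
              | (apply DefP.app3; assumption) | (apply DefP.app2; assumption)
              | (apply DefP.comp; assumption) | exact Tm.id | exact Tm.unit | apply Tm.fst
              | apply Tm.snd | apply Tm.app | exact DefP.const _ | apply DefP.and
              | apply DefP.not | apply DefP.or | apply DefP.iff | apply DefP.adj
              | apply DefP.le | apply DefP.lt | apply DefP.eqFin | apply DefP.eq
              | apply DefP.rv | apply DefP.imp | apply DefP.allFin | apply DefP.exFin
              | apply DefP.all | apply DefP.ex | assumption | (apply Tm.comp; assumption)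
              | apply Tm.pair | apply Tm.lam)))

theorem DefP.lfz (hp : Tm p)
    (hDu : DefP (E := fun n => E n × T n) (fun n G X y => Du n G X y.1 y.2))
    (hw : DefZ (E := fun n => (E n × S n) × (T n × T n)) (fun n y => p n y.1.1)
      (fun n G X y => ((nv y.1.2 : ℕ) : ℤ) ^ w n G X y.1.1 y.2.1 y.2.2))
    (hB : DefZ (E := fun n => E n × (T n × T n)) (fun n y => p n y.1)
      (fun n G X y => B n G X y.1 y.2.1 y.2.2)) :
    DefP (E := fun n => E n × (T n × T n))
      (fun n G X y => PMNC.lfz (p n y.1) (Du n G X y.1) (w n G X y.1) (B n G X y.1) y.2) := by
  unfold PMNC.lfz
  have h := DefP.flz hp hDu hw hB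
  refine DefP.and h (DefP.all (F := fun n => T n × T n) (DefP.imp ?_
    (DefP.nLe (F := fun n => T n × T n) (H := fun n => T n × T n) ?_ ?_)))
  · exact DefP.comp (F := fun n => E n × (T n × T n))
      (f := fun n (y : (E n × (T n × T n)) × (T n × T n)) => (y.1.1, y.2)) h
        (by (repeat' (first
              | apply DefP.nOne | apply DefP.nZero | apply DefP.nSucc | apply DefP.nAdd
              | apply DefP.nLt | apply DefP.nLe | apply DefP.nEq | apply DefP.hlf
              | apply DefP.p1le | apply DefP.p1 | apply DefP.p0 | apply DefP.aug
              | apply DefP.pth | apply DefP.nx | apply DefP.cnd | apply DefP.hmin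
              | apply DefP.hit | apply DefP.cdn | apply DefP.firstEx | apply DefP.exN
              | apply DefP.end_ | apply DefP.isZero | apply DefP.isSucc | apply DefP.alt
              | apply DefP.exr | apply DefP.exl | apply DefP.side | apply DefP.oddCard
              | apply DefP.cardEq | apply DefP.cardLt | apply DefP.cardLe | apply DefP.lst
              | apply DefP.fst | apply DefP.nxt | apply DefP.keyLe | apply DefP.keyLt
              | apply DefP.rtc | (apply DefP.app4; assumption) | (apply DefP.app3'; assumption)
              | (apply DefP.app3; assumption) | (apply DefP.app2; assumption)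
              | (apply DefP.comp; assumption) | exact Tm.id | exact Tm.unit | apply Tm.fst
              | apply Tm.snd | apply Tm.app | exact DefP.const _ | apply DefP.and
              | apply DefP.not | apply DefP.or | apply DefP.iff | apply DefP.adj
              | apply DefP.le | apply DefP.lt | apply DefP.eqFin | apply DefP.eq
              | apply DefP.rv | apply DefP.imp | apply DefP.allFin | apply DefP.exFin
              | apply DefP.all | apply DefP.ex | assumption | (apply Tm.comp; assumption)
              | apply Tm.pair | apply Tm.lam)))
  · (repeat' (first
      | apply DefP.nOne | apply DefP.nZero | apply DefP.nSucc | apply DefP.nAdd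
      | apply DefP.nLt | apply DefP.nLe | apply DefP.nEq | apply DefP.hlf | apply DefP.p1le
      | apply DefP.p1 | apply DefP.p0 | apply DefP.aug | apply DefP.pth | apply DefP.nx
      | apply DefP.cnd | apply DefP.hmin | apply DefP.hit | apply DefP.cdn | apply DefP.firstEx
      | apply DefP.exN | apply DefP.end_ | apply DefP.isZero | apply DefP.isSucc
      | apply DefP.alt | apply DefP.exr | apply DefP.exl | apply DefP.side | apply DefP.oddCard
      | apply DefP.cardEq | apply DefP.cardLt | apply DefP.cardLe | apply DefP.lst
      | apply DefP.fst | apply DefP.nxt | apply DefP.keyLe | apply DefP.keyLt | apply DefP.rtc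
      | (apply DefP.app4; assumption) | (apply DefP.app3'; assumption)
      | (apply DefP.app3; assumption) | (apply DefP.app2; assumption)
      | (apply DefP.comp; assumption) | exact Tm.id | exact Tm.unit | apply Tm.fst
      | apply Tm.snd | apply Tm.app | exact DefP.const _ | apply DefP.and | apply DefP.not
      | apply DefP.or | apply DefP.iff | apply DefP.adj | apply DefP.le | apply DefP.lt
      | apply DefP.eqFin | apply DefP.eq | apply DefP.rv | apply DefP.imp | apply DefP.allFin
      | apply DefP.exFin | apply DefP.all | apply DefP.ex | assumption
      | (apply Tm.comp; assumption) | apply Tm.pair | apply Tm.lam))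
  · (repeat' (first
      | apply DefP.nOne | apply DefP.nZero | apply DefP.nSucc | apply DefP.nAdd
      | apply DefP.nLt | apply DefP.nLe | apply DefP.nEq | apply DefP.hlf | apply DefP.p1le
      | apply DefP.p1 | apply DefP.p0 | apply DefP.aug | apply DefP.pth | apply DefP.nx
      | apply DefP.cnd | apply DefP.hmin | apply DefP.hit | apply DefP.cdn | apply DefP.firstEx
      | apply DefP.exN | apply DefP.end_ | apply DefP.isZero | apply DefP.isSucc
      | apply DefP.alt | apply DefP.exr | apply DefP.exl | apply DefP.side | apply DefP.oddCard
      | apply DefP.cardEq | apply DefP.cardLt | apply DefP.cardLe | apply DefP.lst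
      | apply DefP.fst | apply DefP.nxt | apply DefP.keyLe | apply DefP.keyLt | apply DefP.rtc
      | (apply DefP.app4; assumption) | (apply DefP.app3'; assumption)
      | (apply DefP.app3; assumption) | (apply DefP.app2; assumption)
      | (apply DefP.comp; assumption) | exact Tm.id | exact Tm.unit | apply Tm.fst
      | apply Tm.snd | apply Tm.app | exact DefP.const _ | apply DefP.and | apply DefP.not
      | apply DefP.or | apply DefP.iff | apply DefP.adj | apply DefP.le | apply DefP.lt
      | apply DefP.eqFin | apply DefP.eq | apply DefP.rv | apply DefP.imp | apply DefP.allFin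
      | apply DefP.exFin | apply DefP.all | apply DefP.ex | assumption
      | (apply Tm.comp; assumption) | apply Tm.pair | apply Tm.lam))

theorem DefP.parz (hp : Tm p)
    (hDu : DefP (E := fun n => E n × T n) (fun n G X y => Du n G X y.1 y.2))
    (hOk : DefP (E := fun n => E n × (T n × T n)) (fun n G X y => Ok n G X y.1 y.2.1 y.2.2))
    (hw : DefZ (E := fun n => (E n × S n) × (T n × T n)) (fun n y => p n y.1.1)
      (fun n G X y => ((nv y.1.2 : ℕ) : ℤ) ^ w n G X y.1.1 y.2.1 y.2.2))
    (hB : DefZ (E := fun n => E n × (T n × T n)) (fun n y => p n y.1)
      (fun n G X y => B n G X y.1 y.2.1 y.2.2)) :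
    DefP (fun n G X (x : E n) => PMNC.parz (p n x) (Du n G X x) (Ok n G X x) (w n G X x) (B n G X x)) := by
  unfold PMNC.parz PMNC.dv
  have hp' : Tm (fun n (y : E n × S n) => p n y.1) := hp.comp (Tm.fst Tm.id)
  have hact := DefP.act hp hDu hB
  have had := DefZ.adz (E := fun n => E n × S n) (T := T) (S := S) (p := fun n y => p n y.1)
    (B := fun n G X y => PMNC.wx (w n G X y.1) (B n G X y.1) y.2) hp' (DefZ.wx hp hw hB)
  have hp5 : Tm (fun n (y : ((((E n × S n) × T n) × T n) × T n) × T n) => p n y.1.1.1.1.1) :=
    hp.comp (Tm.fst (Tm.fst (Tm.fst (Tm.fst (Tm.fst Tm.id)))))
  refine DefP.all (DefP.all (DefP.all (DefP.all (DefP.all (DefP.imp ?_ (DefP.imp ?_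
    (DefP.imp (DefP.not ?_) (DefP.imp (DefP.not ?_) (DefP.imp ?_ (DefZ.dvd (DefZ.sub hp5
      (DefZ.mul hp5 ?_ ?_) (DefZ.mul hp5 ?_ ?_))))))))))))
  · exact DefP.comp (F := fun n => E n × T n)
      (f := fun n (y : ((((E n × S n) × T n) × T n) × T n) × T n) => (y.1.1.1.1.1, y.1.1.1.2))
      hact
        (by (repeat' (first
              | apply DefP.nOne | apply DefP.nZero | apply DefP.nSucc | apply DefP.nAdd
              | apply DefP.nLt | apply DefP.nLe | apply DefP.nEq | apply DefP.hlf
              | apply DefP.p1le | apply DefP.p1 | apply DefP.p0 | apply DefP.aug
              | apply DefP.pth | apply DefP.nx | apply DefP.cnd | apply DefP.hmin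
              | apply DefP.hit | apply DefP.cdn | apply DefP.firstEx | apply DefP.exN
              | apply DefP.end_ | apply DefP.isZero | apply DefP.isSucc | apply DefP.alt
              | apply DefP.exr | apply DefP.exl | apply DefP.side | apply DefP.oddCard
              | apply DefP.cardEq | apply DefP.cardLt | apply DefP.cardLe | apply DefP.lst
              | apply DefP.fst | apply DefP.nxt | apply DefP.keyLe | apply DefP.keyLt
              | apply DefP.rtc | (apply DefP.app4; assumption) | (apply DefP.app3'; assumption)
              | (apply DefP.app3; assumption) | (apply DefP.app2; assumption)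
              | (apply DefP.comp; assumption) | exact Tm.id | exact Tm.unit | apply Tm.fst
              | apply Tm.snd | apply Tm.app | exact DefP.const _ | apply DefP.and
              | apply DefP.not | apply DefP.or | apply DefP.iff | apply DefP.adj
              | apply DefP.le | apply DefP.lt | apply DefP.eqFin | apply DefP.eq
              | apply DefP.rv | apply DefP.imp | apply DefP.allFin | apply DefP.exFin
              | apply DefP.all | apply DefP.ex | assumption | (apply Tm.comp; assumption)
              | apply Tm.pair | apply Tm.lam)))
  · exact DefP.comp (F := fun n => E n × T n)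
      (f := fun n (y : ((((E n × S n) × T n) × T n) × T n) × T n) => (y.1.1.1.1.1, y.1.1.2))
      hact
        (by (repeat' (first
              | apply DefP.nOne | apply DefP.nZero | apply DefP.nSucc | apply DefP.nAdd
              | apply DefP.nLt | apply DefP.nLe | apply DefP.nEq | apply DefP.hlf
              | apply DefP.p1le | apply DefP.p1 | apply DefP.p0 | apply DefP.aug
              | apply DefP.pth | apply DefP.nx | apply DefP.cnd | apply DefP.hmin
              | apply DefP.hit | apply DefP.cdn | apply DefP.firstEx | apply DefP.exN
              | apply DefP.end_ | apply DefP.isZero | apply DefP.isSucc | apply DefP.alt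
              | apply DefP.exr | apply DefP.exl | apply DefP.side | apply DefP.oddCard
              | apply DefP.cardEq | apply DefP.cardLt | apply DefP.cardLe | apply DefP.lst
              | apply DefP.fst | apply DefP.nxt | apply DefP.keyLe | apply DefP.keyLt
              | apply DefP.rtc | (apply DefP.app4; assumption) | (apply DefP.app3'; assumption)
              | (apply DefP.app3; assumption) | (apply DefP.app2; assumption)
              | (apply DefP.comp; assumption) | exact Tm.id | exact Tm.unit | apply Tm.fst
              | apply Tm.snd | apply Tm.app | exact DefP.const _ | apply DefP.and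
              | apply DefP.not | apply DefP.or | apply DefP.iff | apply DefP.adj
              | apply DefP.le | apply DefP.lt | apply DefP.eqFin | apply DefP.eq
              | apply DefP.rv | apply DefP.imp | apply DefP.allFin | apply DefP.exFin
              | apply DefP.all | apply DefP.ex | assumption | (apply Tm.comp; assumption)
              | apply Tm.pair | apply Tm.lam)))
  · exact DefP.comp (F := fun n => E n × T n)
      (f := fun n (y : ((((E n × S n) × T n) × T n) × T n) × T n) => (y.1.1.1.1.1, y.1.2)) hDu
      (by (repeat' (first
            | apply DefP.nOne | apply DefP.nZero | apply DefP.nSucc | apply DefP.nAdd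
            | apply DefP.nLt | apply DefP.nLe | apply DefP.nEq | apply DefP.hlf
            | apply DefP.p1le | apply DefP.p1 | apply DefP.p0 | apply DefP.aug | apply DefP.pth
            | apply DefP.nx | apply DefP.cnd | apply DefP.hmin | apply DefP.hit
            | apply DefP.cdn | apply DefP.firstEx | apply DefP.exN | apply DefP.end_
            | apply DefP.isZero | apply DefP.isSucc | apply DefP.alt | apply DefP.exr
            | apply DefP.exl | apply DefP.side | apply DefP.oddCard | apply DefP.cardEq
            | apply DefP.cardLt | apply DefP.cardLe | apply DefP.lst | apply DefP.fst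
            | apply DefP.nxt | apply DefP.keyLe | apply DefP.keyLt | apply DefP.rtc
            | (apply DefP.app4; assumption) | (apply DefP.app3'; assumption)
            | (apply DefP.app3; assumption) | (apply DefP.app2; assumption)
            | (apply DefP.comp; assumption) | exact Tm.id | exact Tm.unit | apply Tm.fst
            | apply Tm.snd | apply Tm.app | exact DefP.const _ | apply DefP.and
            | apply DefP.not | apply DefP.or | apply DefP.iff | apply DefP.adj | apply DefP.le
            | apply DefP.lt | apply DefP.eqFin | apply DefP.eq | apply DefP.rv | apply DefP.imp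
            | apply DefP.allFin | apply DefP.exFin | apply DefP.all | apply DefP.ex
            | assumption | (apply Tm.comp; assumption) | apply Tm.pair | apply Tm.lam)))
  · exact DefP.comp (F := fun n => E n × T n)
      (f := fun n (y : ((((E n × S n) × T n) × T n) × T n) × T n) => (y.1.1.1.1.1, y.2)) hDu
      (by (repeat' (first
            | apply DefP.nOne | apply DefP.nZero | apply DefP.nSucc | apply DefP.nAdd
            | apply DefP.nLt | apply DefP.nLe | apply DefP.nEq | apply DefP.hlf
            | apply DefP.p1le | apply DefP.p1 | apply DefP.p0 | apply DefP.aug | apply DefP.pth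
            | apply DefP.nx | apply DefP.cnd | apply DefP.hmin | apply DefP.hit
            | apply DefP.cdn | apply DefP.firstEx | apply DefP.exN | apply DefP.end_
            | apply DefP.isZero | apply DefP.isSucc | apply DefP.alt | apply DefP.exr
            | apply DefP.exl | apply DefP.side | apply DefP.oddCard | apply DefP.cardEq
            | apply DefP.cardLt | apply DefP.cardLe | apply DefP.lst | apply DefP.fst
            | apply DefP.nxt | apply DefP.keyLe | apply DefP.keyLt | apply DefP.rtc
            | (apply DefP.app4; assumption) | (apply DefP.app3'; assumption)
            | (apply DefP.app3; assumption) | (apply DefP.app2; assumption)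
            | (apply DefP.comp; assumption) | exact Tm.id | exact Tm.unit | apply Tm.fst
            | apply Tm.snd | apply Tm.app | exact DefP.const _ | apply DefP.and
            | apply DefP.not | apply DefP.or | apply DefP.iff | apply DefP.adj | apply DefP.le
            | apply DefP.lt | apply DefP.eqFin | apply DefP.eq | apply DefP.rv | apply DefP.imp
            | apply DefP.allFin | apply DefP.exFin | apply DefP.all | apply DefP.ex
            | assumption | (apply Tm.comp; assumption) | apply Tm.pair | apply Tm.lam)))
  · exact DefP.comp (F := fun n => E n × (T n × T n))
      (f := fun n (y : ((((E n × S n) × T n) × T n) × T n) × T n) =>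
        (y.1.1.1.1.1, (y.1.2, y.2))) hOk
          (by (repeat' (first
                | apply DefP.nOne | apply DefP.nZero | apply DefP.nSucc | apply DefP.nAdd
                | apply DefP.nLt | apply DefP.nLe | apply DefP.nEq | apply DefP.hlf
                | apply DefP.p1le | apply DefP.p1 | apply DefP.p0 | apply DefP.aug
                | apply DefP.pth | apply DefP.nx | apply DefP.cnd | apply DefP.hmin
                | apply DefP.hit | apply DefP.cdn | apply DefP.firstEx | apply DefP.exN
                | apply DefP.end_ | apply DefP.isZero | apply DefP.isSucc | apply DefP.alt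
                | apply DefP.exr | apply DefP.exl | apply DefP.side | apply DefP.oddCard
                | apply DefP.cardEq | apply DefP.cardLt | apply DefP.cardLe | apply DefP.lst
                | apply DefP.fst | apply DefP.nxt | apply DefP.keyLe | apply DefP.keyLt
                | apply DefP.rtc | (apply DefP.app4; assumption)
                | (apply DefP.app3'; assumption) | (apply DefP.app3; assumption)
                | (apply DefP.app2; assumption) | (apply DefP.comp; assumption) | exact Tm.id
                | exact Tm.unit | apply Tm.fst | apply Tm.snd | apply Tm.app
                | exact DefP.const _ | apply DefP.and | apply DefP.not | apply DefP.or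
                | apply DefP.iff | apply DefP.adj | apply DefP.le | apply DefP.lt
                | apply DefP.eqFin | apply DefP.eq | apply DefP.rv | apply DefP.imp
                | apply DefP.allFin | apply DefP.exFin | apply DefP.all | apply DefP.ex
                | assumption | (apply Tm.comp; assumption) | apply Tm.pair | apply Tm.lam)))
  · exact DefZ.comp (E := fun n => ((((E n × S n) × T n) × T n) × T n) × T n) had
      (f := fun n y => (y.1.1.1.1, (y.1.1.1.2, y.1.2)))
        (by (repeat' (first
              | apply DefP.nOne | apply DefP.nZero | apply DefP.nSucc | apply DefP.nAdd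
              | apply DefP.nLt | apply DefP.nLe | apply DefP.nEq | apply DefP.hlf
              | apply DefP.p1le | apply DefP.p1 | apply DefP.p0 | apply DefP.aug
              | apply DefP.pth | apply DefP.nx | apply DefP.cnd | apply DefP.hmin
              | apply DefP.hit | apply DefP.cdn | apply DefP.firstEx | apply DefP.exN
              | apply DefP.end_ | apply DefP.isZero | apply DefP.isSucc | apply DefP.alt
              | apply DefP.exr | apply DefP.exl | apply DefP.side | apply DefP.oddCard
              | apply DefP.cardEq | apply DefP.cardLt | apply DefP.cardLe | apply DefP.lst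
              | apply DefP.fst | apply DefP.nxt | apply DefP.keyLe | apply DefP.keyLt
              | apply DefP.rtc | (apply DefP.app4; assumption) | (apply DefP.app3'; assumption)
              | (apply DefP.app3; assumption) | (apply DefP.app2; assumption)
              | (apply DefP.comp; assumption) | exact Tm.id | exact Tm.unit | apply Tm.fst
              | apply Tm.snd | apply Tm.app | exact DefP.const _ | apply DefP.and
              | apply DefP.not | apply DefP.or | apply DefP.iff | apply DefP.adj
              | apply DefP.le | apply DefP.lt | apply DefP.eqFin | apply DefP.eq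
              | apply DefP.rv | apply DefP.imp | apply DefP.allFin | apply DefP.exFin
              | apply DefP.all | apply DefP.ex | assumption | (apply Tm.comp; assumption)
              | apply Tm.pair | apply Tm.lam)))
  · exact DefZ.comp (E := fun n => ((((E n × S n) × T n) × T n) × T n) × T n) had
      (f := fun n y => (y.1.1.1.1, (y.1.1.2, y.2)))
        (by (repeat' (first
              | apply DefP.nOne | apply DefP.nZero | apply DefP.nSucc | apply DefP.nAdd
              | apply DefP.nLt | apply DefP.nLe | apply DefP.nEq | apply DefP.hlf
              | apply DefP.p1le | apply DefP.p1 | apply DefP.p0 | apply DefP.aug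
              | apply DefP.pth | apply DefP.nx | apply DefP.cnd | apply DefP.hmin
              | apply DefP.hit | apply DefP.cdn | apply DefP.firstEx | apply DefP.exN
              | apply DefP.end_ | apply DefP.isZero | apply DefP.isSucc | apply DefP.alt
              | apply DefP.exr | apply DefP.exl | apply DefP.side | apply DefP.oddCard
              | apply DefP.cardEq | apply DefP.cardLt | apply DefP.cardLe | apply DefP.lst
              | apply DefP.fst | apply DefP.nxt | apply DefP.keyLe | apply DefP.keyLt
              | apply DefP.rtc | (apply DefP.app4; assumption) | (apply DefP.app3'; assumption)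
              | (apply DefP.app3; assumption) | (apply DefP.app2; assumption)
              | (apply DefP.comp; assumption) | exact Tm.id | exact Tm.unit | apply Tm.fst
              | apply Tm.snd | apply Tm.app | exact DefP.const _ | apply DefP.and
              | apply DefP.not | apply DefP.or | apply DefP.iff | apply DefP.adj
              | apply DefP.le | apply DefP.lt | apply DefP.eqFin | apply DefP.eq
              | apply DefP.rv | apply DefP.imp | apply DefP.allFin | apply DefP.exFin
              | apply DefP.all | apply DefP.ex | assumption | (apply Tm.comp; assumption)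
              | apply Tm.pair | apply Tm.lam)))
  · exact DefZ.comp (E := fun n => ((((E n × S n) × T n) × T n) × T n) × T n) had
      (f := fun n y => (y.1.1.1.1, (y.1.1.1.2, y.2)))
        (by (repeat' (first
              | apply DefP.nOne | apply DefP.nZero | apply DefP.nSucc | apply DefP.nAdd
              | apply DefP.nLt | apply DefP.nLe | apply DefP.nEq | apply DefP.hlf
              | apply DefP.p1le | apply DefP.p1 | apply DefP.p0 | apply DefP.aug
              | apply DefP.pth | apply DefP.nx | apply DefP.cnd | apply DefP.hmin
              | apply DefP.hit | apply DefP.cdn | apply DefP.firstEx | apply DefP.exN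
              | apply DefP.end_ | apply DefP.isZero | apply DefP.isSucc | apply DefP.alt
              | apply DefP.exr | apply DefP.exl | apply DefP.side | apply DefP.oddCard
              | apply DefP.cardEq | apply DefP.cardLt | apply DefP.cardLe | apply DefP.lst
              | apply DefP.fst | apply DefP.nxt | apply DefP.keyLe | apply DefP.keyLt
              | apply DefP.rtc | (apply DefP.app4; assumption) | (apply DefP.app3'; assumption)
              | (apply DefP.app3; assumption) | (apply DefP.app2; assumption)
              | (apply DefP.comp; assumption) | exact Tm.id | exact Tm.unit | apply Tm.fst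
              | apply Tm.snd | apply Tm.app | exact DefP.const _ | apply DefP.and
              | apply DefP.not | apply DefP.or | apply DefP.iff | apply DefP.adj
              | apply DefP.le | apply DefP.lt | apply DefP.eqFin | apply DefP.eq
              | apply DefP.rv | apply DefP.imp | apply DefP.allFin | apply DefP.exFin
              | apply DefP.all | apply DefP.ex | assumption | (apply Tm.comp; assumption)
              | apply Tm.pair | apply Tm.lam)))
  · exact DefZ.comp (E := fun n => ((((E n × S n) × T n) × T n) × T n) × T n) had
      (f := fun n y => (y.1.1.1.1, (y.1.1.2, y.1.2)))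
        (by (repeat' (first
              | apply DefP.nOne | apply DefP.nZero | apply DefP.nSucc | apply DefP.nAdd
              | apply DefP.nLt | apply DefP.nLe | apply DefP.nEq | apply DefP.hlf
              | apply DefP.p1le | apply DefP.p1 | apply DefP.p0 | apply DefP.aug
              | apply DefP.pth | apply DefP.nx | apply DefP.cnd | apply DefP.hmin
              | apply DefP.hit | apply DefP.cdn | apply DefP.firstEx | apply DefP.exN
              | apply DefP.end_ | apply DefP.isZero | apply DefP.isSucc | apply DefP.alt
              | apply DefP.exr | apply DefP.exl | apply DefP.side | apply DefP.oddCard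
              | apply DefP.cardEq | apply DefP.cardLt | apply DefP.cardLe | apply DefP.lst
              | apply DefP.fst | apply DefP.nxt | apply DefP.keyLe | apply DefP.keyLt
              | apply DefP.rtc | (apply DefP.app4; assumption) | (apply DefP.app3'; assumption)
              | (apply DefP.app3; assumption) | (apply DefP.app2; assumption)
              | (apply DefP.comp; assumption) | exact Tm.id | exact Tm.unit | apply Tm.fst
              | apply Tm.snd | apply Tm.app | exact DefP.const _ | apply DefP.and
              | apply DefP.not | apply DefP.or | apply DefP.iff | apply DefP.adj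
              | apply DefP.le | apply DefP.lt | apply DefP.eqFin | apply DefP.eq
              | apply DefP.rv | apply DefP.imp | apply DefP.allFin | apply DefP.exFin
              | apply DefP.all | apply DefP.ex | assumption | (apply Tm.comp; assumption)
              | apply Tm.pair | apply Tm.lam)))

theorem DefP.lbz (hp : Tm p)
    (hDu : DefP (E := fun n => E n × T n) (fun n G X y => Du n G X y.1 y.2))
    (hw : DefZ (E := fun n => (E n × S n) × (T n × T n)) (fun n y => p n y.1.1)
      (fun n G X y => ((nv y.1.2 : ℕ) : ℤ) ^ w n G X y.1.1 y.2.1 y.2.2))
    (hB : DefZ (E := fun n => E n × (T n × T n)) (fun n y => p n y.1)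
      (fun n G X y => B n G X y.1 y.2.1 y.2.2)) :
    DefP (E := fun n => E n × T n)
      (fun n G X y => PMNC.lbz (p n y.1) (Du n G X y.1) (w n G X y.1) (B n G X y.1) y.2) := by
  unfold PMNC.lbz
  have hp' : Tm (fun n (y : E n × S n) => p n y.1) := hp.comp (Tm.fst Tm.id)
  have hact := DefP.act hp hDu hB
  have hqa := DefP.qa (E := fun n => E n × S n) (T := T) (S := S) (p := fun n y => p n y.1)
    (B := fun n G X y => PMNC.wx (w n G X y.1) (B n G X y.1) y.2) hp' (DefZ.wx hp hw hB)
  refine DefP.and (DefP.not hDu) (DefP.ex (DefP.ex (DefP.and ?_ ?_)))
  · exact DefP.comp (F := fun n => E n × T n)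
      (f := fun n (y : ((E n × T n) × S n) × T n) => (y.1.1.1, y.2)) hact
        (by (repeat' (first
              | apply DefP.nOne | apply DefP.nZero | apply DefP.nSucc | apply DefP.nAdd
              | apply DefP.nLt | apply DefP.nLe | apply DefP.nEq | apply DefP.hlf
              | apply DefP.p1le | apply DefP.p1 | apply DefP.p0 | apply DefP.aug
              | apply DefP.pth | apply DefP.nx | apply DefP.cnd | apply DefP.hmin
              | apply DefP.hit | apply DefP.cdn | apply DefP.firstEx | apply DefP.exN
              | apply DefP.end_ | apply DefP.isZero | apply DefP.isSucc | apply DefP.alt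
              | apply DefP.exr | apply DefP.exl | apply DefP.side | apply DefP.oddCard
              | apply DefP.cardEq | apply DefP.cardLt | apply DefP.cardLe | apply DefP.lst
              | apply DefP.fst | apply DefP.nxt | apply DefP.keyLe | apply DefP.keyLt
              | apply DefP.rtc | (apply DefP.app4; assumption) | (apply DefP.app3'; assumption)
              | (apply DefP.app3; assumption) | (apply DefP.app2; assumption)
              | (apply DefP.comp; assumption) | exact Tm.id | exact Tm.unit | apply Tm.fst
              | apply Tm.snd | apply Tm.app | exact DefP.const _ | apply DefP.and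
              | apply DefP.not | apply DefP.or | apply DefP.iff | apply DefP.adj
              | apply DefP.le | apply DefP.lt | apply DefP.eqFin | apply DefP.eq
              | apply DefP.rv | apply DefP.imp | apply DefP.allFin | apply DefP.exFin
              | apply DefP.all | apply DefP.ex | assumption | (apply Tm.comp; assumption)
              | apply Tm.pair | apply Tm.lam)))
  · exact DefP.comp (F := fun n => (E n × S n) × (T n × T n))
      (f := fun n (y : ((E n × T n) × S n) × T n) => ((y.1.1.1, y.1.2), (y.2, y.1.1.2))) hqa
      (by (repeat' (first
            | apply DefP.nOne | apply DefP.nZero | apply DefP.nSucc | apply DefP.nAdd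
            | apply DefP.nLt | apply DefP.nLe | apply DefP.nEq | apply DefP.hlf
            | apply DefP.p1le | apply DefP.p1 | apply DefP.p0 | apply DefP.aug | apply DefP.pth
            | apply DefP.nx | apply DefP.cnd | apply DefP.hmin | apply DefP.hit
            | apply DefP.cdn | apply DefP.firstEx | apply DefP.exN | apply DefP.end_
            | apply DefP.isZero | apply DefP.isSucc | apply DefP.alt | apply DefP.exr
            | apply DefP.exl | apply DefP.side | apply DefP.oddCard | apply DefP.cardEq
            | apply DefP.cardLt | apply DefP.cardLe | apply DefP.lst | apply DefP.fst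
            | apply DefP.nxt | apply DefP.keyLe | apply DefP.keyLt | apply DefP.rtc
            | (apply DefP.app4; assumption) | (apply DefP.app3'; assumption)
            | (apply DefP.app3; assumption) | (apply DefP.app2; assumption)
            | (apply DefP.comp; assumption) | exact Tm.id | exact Tm.unit | apply Tm.fst
            | apply Tm.snd | apply Tm.app | exact DefP.const _ | apply DefP.and
            | apply DefP.not | apply DefP.or | apply DefP.iff | apply DefP.adj | apply DefP.le
            | apply DefP.lt | apply DefP.eqFin | apply DefP.eq | apply DefP.rv | apply DefP.imp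
            | apply DefP.allFin | apply DefP.exFin | apply DefP.all | apply DefP.ex
            | assumption | (apply Tm.comp; assumption) | apply Tm.pair | apply Tm.lam)))

theorem DefP.rcz (hp : Tm p)
    (hDu : DefP (E := fun n => E n × T n) (fun n G X y => Du n G X y.1 y.2))
    (hOk : DefP (E := fun n => E n × (T n × T n)) (fun n G X y => Ok n G X y.1 y.2.1 y.2.2))
    (hw : DefZ (E := fun n => (E n × S n) × (T n × T n)) (fun n y => p n y.1.1)
      (fun n G X y => ((nv y.1.2 : ℕ) : ℤ) ^ w n G X y.1.1 y.2.1 y.2.2))
    (hB : DefZ (E := fun n => E n × (T n × T n)) (fun n y => p n y.1)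
      (fun n G X y => B n G X y.1 y.2.1 y.2.2)) :
    DefP (E := fun n => E n × T n)
      (fun n G X y => PMNC.rcz (p n y.1) (Du n G X y.1) (Ok n G X y.1) (w n G X y.1) (B n G X y.1) y.2) := by
  unfold PMNC.rcz PMNC.nd
  have hp' : Tm (fun n (y : E n × S n) => p n y.1) := hp.comp (Tm.fst Tm.id)
  have hact := DefP.act hp hDu hB
  have had := DefZ.adz (E := fun n => E n × S n) (T := T) (S := S) (p := fun n y => p n y.1)
    (B := fun n G X y => PMNC.wx (w n G X y.1) (B n G X y.1) y.2) hp' (DefZ.wx hp hw hB)
  have hp5 : Tm (fun n (y : ((((E n × T n) × S n) × T n) × T n) × T n) => p n y.1.1.1.1.1) :=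
    hp.comp (Tm.fst (Tm.fst (Tm.fst (Tm.fst (Tm.fst Tm.id)))))
  refine DefP.and (DefP.not hDu) (DefP.ex (DefP.ex (DefP.ex (DefP.ex (DefP.and ?_
    (DefP.and (DefP.not ?_) (DefP.and (DefP.not ?_) (DefP.and ?_ (DefZ.ndvd hp5 (DefZ.sub hp5
      (DefZ.mul hp5 ?_ ?_) (DefZ.mul hp5 ?_ ?_)))))))))))
  · exact DefP.comp (F := fun n => E n × T n)
      (f := fun n (y : ((((E n × T n) × S n) × T n) × T n) × T n) => (y.1.1.1.1.1, y.1.1.2)) hact
      (by (repeat' (first
            | apply DefP.nOne | apply DefP.nZero | apply DefP.nSucc | apply DefP.nAdd
            | apply DefP.nLt | apply DefP.nLe | apply DefP.nEq | apply DefP.hlf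
            | apply DefP.p1le | apply DefP.p1 | apply DefP.p0 | apply DefP.aug | apply DefP.pth
            | apply DefP.nx | apply DefP.cnd | apply DefP.hmin | apply DefP.hit
            | apply DefP.cdn | apply DefP.firstEx | apply DefP.exN | apply DefP.end_
            | apply DefP.isZero | apply DefP.isSucc | apply DefP.alt | apply DefP.exr
            | apply DefP.exl | apply DefP.side | apply DefP.oddCard | apply DefP.cardEq
            | apply DefP.cardLt | apply DefP.cardLe | apply DefP.lst | apply DefP.fst
            | apply DefP.nxt | apply DefP.keyLe | apply DefP.keyLt | apply DefP.rtc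
            | (apply DefP.app4; assumption) | (apply DefP.app3'; assumption)
            | (apply DefP.app3; assumption) | (apply DefP.app2; assumption)
            | (apply DefP.comp; assumption) | exact Tm.id | exact Tm.unit | apply Tm.fst
            | apply Tm.snd | apply Tm.app | exact DefP.const _ | apply DefP.and
            | apply DefP.not | apply DefP.or | apply DefP.iff | apply DefP.adj | apply DefP.le
            | apply DefP.lt | apply DefP.eqFin | apply DefP.eq | apply DefP.rv | apply DefP.imp
            | apply DefP.allFin | apply DefP.exFin | apply DefP.all | apply DefP.ex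
            | assumption | (apply Tm.comp; assumption) | apply Tm.pair | apply Tm.lam)))
  · exact DefP.comp (F := fun n => E n × T n)
      (f := fun n (y : ((((E n × T n) × S n) × T n) × T n) × T n) => (y.1.1.1.1.1, y.1.2)) hDu
      (by (repeat' (first
            | apply DefP.nOne | apply DefP.nZero | apply DefP.nSucc | apply DefP.nAdd
            | apply DefP.nLt | apply DefP.nLe | apply DefP.nEq | apply DefP.hlf
            | apply DefP.p1le | apply DefP.p1 | apply DefP.p0 | apply DefP.aug | apply DefP.pth
            | apply DefP.nx | apply DefP.cnd | apply DefP.hmin | apply DefP.hit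
            | apply DefP.cdn | apply DefP.firstEx | apply DefP.exN | apply DefP.end_
            | apply DefP.isZero | apply DefP.isSucc | apply DefP.alt | apply DefP.exr
            | apply DefP.exl | apply DefP.side | apply DefP.oddCard | apply DefP.cardEq
            | apply DefP.cardLt | apply DefP.cardLe | apply DefP.lst | apply DefP.fst
            | apply DefP.nxt | apply DefP.keyLe | apply DefP.keyLt | apply DefP.rtc
            | (apply DefP.app4; assumption) | (apply DefP.app3'; assumption)
            | (apply DefP.app3; assumption) | (apply DefP.app2; assumption)
            | (apply DefP.comp; assumption) | exact Tm.id | exact Tm.unit | apply Tm.fst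
            | apply Tm.snd | apply Tm.app | exact DefP.const _ | apply DefP.and
            | apply DefP.not | apply DefP.or | apply DefP.iff | apply DefP.adj | apply DefP.le
            | apply DefP.lt | apply DefP.eqFin | apply DefP.eq | apply DefP.rv | apply DefP.imp
            | apply DefP.allFin | apply DefP.exFin | apply DefP.all | apply DefP.ex
            | assumption | (apply Tm.comp; assumption) | apply Tm.pair | apply Tm.lam)))
  · exact DefP.comp (F := fun n => E n × T n)
      (f := fun n (y : ((((E n × T n) × S n) × T n) × T n) × T n) => (y.1.1.1.1.1, y.2)) hDu
      (by (repeat' (first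
            | apply DefP.nOne | apply DefP.nZero | apply DefP.nSucc | apply DefP.nAdd
            | apply DefP.nLt | apply DefP.nLe | apply DefP.nEq | apply DefP.hlf
            | apply DefP.p1le | apply DefP.p1 | apply DefP.p0 | apply DefP.aug | apply DefP.pth
            | apply DefP.nx | apply DefP.cnd | apply DefP.hmin | apply DefP.hit
            | apply DefP.cdn | apply DefP.firstEx | apply DefP.exN | apply DefP.end_
            | apply DefP.isZero | apply DefP.isSucc | apply DefP.alt | apply DefP.exr
            | apply DefP.exl | apply DefP.side | apply DefP.oddCard | apply DefP.cardEq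
            | apply DefP.cardLt | apply DefP.cardLe | apply DefP.lst | apply DefP.fst
            | apply DefP.nxt | apply DefP.keyLe | apply DefP.keyLt | apply DefP.rtc
            | (apply DefP.app4; assumption) | (apply DefP.app3'; assumption)
            | (apply DefP.app3; assumption) | (apply DefP.app2; assumption)
            | (apply DefP.comp; assumption) | exact Tm.id | exact Tm.unit | apply Tm.fst
            | apply Tm.snd | apply Tm.app | exact DefP.const _ | apply DefP.and
            | apply DefP.not | apply DefP.or | apply DefP.iff | apply DefP.adj | apply DefP.le
            | apply DefP.lt | apply DefP.eqFin | apply DefP.eq | apply DefP.rv | apply DefP.imp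
            | apply DefP.allFin | apply DefP.exFin | apply DefP.all | apply DefP.ex
            | assumption | (apply Tm.comp; assumption) | apply Tm.pair | apply Tm.lam)))
  · exact DefP.comp (F := fun n => E n × (T n × T n))
      (f := fun n (y : ((((E n × T n) × S n) × T n) × T n) × T n) =>
        (y.1.1.1.1.1, (y.1.2, y.2))) hOk
          (by (repeat' (first
                | apply DefP.nOne | apply DefP.nZero | apply DefP.nSucc | apply DefP.nAdd
                | apply DefP.nLt | apply DefP.nLe | apply DefP.nEq | apply DefP.hlf
                | apply DefP.p1le | apply DefP.p1 | apply DefP.p0 | apply DefP.aug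
                | apply DefP.pth | apply DefP.nx | apply DefP.cnd | apply DefP.hmin
                | apply DefP.hit | apply DefP.cdn | apply DefP.firstEx | apply DefP.exN
                | apply DefP.end_ | apply DefP.isZero | apply DefP.isSucc | apply DefP.alt
                | apply DefP.exr | apply DefP.exl | apply DefP.side | apply DefP.oddCard
                | apply DefP.cardEq | apply DefP.cardLt | apply DefP.cardLe | apply DefP.lst
                | apply DefP.fst | apply DefP.nxt | apply DefP.keyLe | apply DefP.keyLt
                | apply DefP.rtc | (apply DefP.app4; assumption)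
                | (apply DefP.app3'; assumption) | (apply DefP.app3; assumption)
                | (apply DefP.app2; assumption) | (apply DefP.comp; assumption) | exact Tm.id
                | exact Tm.unit | apply Tm.fst | apply Tm.snd | apply Tm.app
                | exact DefP.const _ | apply DefP.and | apply DefP.not | apply DefP.or
                | apply DefP.iff | apply DefP.adj | apply DefP.le | apply DefP.lt
                | apply DefP.eqFin | apply DefP.eq | apply DefP.rv | apply DefP.imp
                | apply DefP.allFin | apply DefP.exFin | apply DefP.all | apply DefP.ex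
                | assumption | (apply Tm.comp; assumption) | apply Tm.pair | apply Tm.lam)))
  · exact DefZ.comp (E := fun n => ((((E n × T n) × S n) × T n) × T n) × T n) had
      (f := fun n y => ((y.1.1.1.1.1, y.1.1.1.2), (y.1.1.2, y.1.2)))
        (by (repeat' (first
              | apply DefP.nOne | apply DefP.nZero | apply DefP.nSucc | apply DefP.nAdd
              | apply DefP.nLt | apply DefP.nLe | apply DefP.nEq | apply DefP.hlf
              | apply DefP.p1le | apply DefP.p1 | apply DefP.p0 | apply DefP.aug
              | apply DefP.pth | apply DefP.nx | apply DefP.cnd | apply DefP.hmin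
              | apply DefP.hit | apply DefP.cdn | apply DefP.firstEx | apply DefP.exN
              | apply DefP.end_ | apply DefP.isZero | apply DefP.isSucc | apply DefP.alt
              | apply DefP.exr | apply DefP.exl | apply DefP.side | apply DefP.oddCard
              | apply DefP.cardEq | apply DefP.cardLt | apply DefP.cardLe | apply DefP.lst
              | apply DefP.fst | apply DefP.nxt | apply DefP.keyLe | apply DefP.keyLt
              | apply DefP.rtc | (apply DefP.app4; assumption) | (apply DefP.app3'; assumption)
              | (apply DefP.app3; assumption) | (apply DefP.app2; assumption)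
              | (apply DefP.comp; assumption) | exact Tm.id | exact Tm.unit | apply Tm.fst
              | apply Tm.snd | apply Tm.app | exact DefP.const _ | apply DefP.and
              | apply DefP.not | apply DefP.or | apply DefP.iff | apply DefP.adj
              | apply DefP.le | apply DefP.lt | apply DefP.eqFin | apply DefP.eq
              | apply DefP.rv | apply DefP.imp | apply DefP.allFin | apply DefP.exFin
              | apply DefP.all | apply DefP.ex | assumption | (apply Tm.comp; assumption)
              | apply Tm.pair | apply Tm.lam)))
  · exact DefZ.comp (E := fun n => ((((E n × T n) × S n) × T n) × T n) × T n) had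
      (f := fun n y => ((y.1.1.1.1.1, y.1.1.1.2), (y.2, y.1.1.1.1.2)))
        (by (repeat' (first
              | apply DefP.nOne | apply DefP.nZero | apply DefP.nSucc | apply DefP.nAdd
              | apply DefP.nLt | apply DefP.nLe | apply DefP.nEq | apply DefP.hlf
              | apply DefP.p1le | apply DefP.p1 | apply DefP.p0 | apply DefP.aug
              | apply DefP.pth | apply DefP.nx | apply DefP.cnd | apply DefP.hmin
              | apply DefP.hit | apply DefP.cdn | apply DefP.firstEx | apply DefP.exN
              | apply DefP.end_ | apply DefP.isZero | apply DefP.isSucc | apply DefP.alt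
              | apply DefP.exr | apply DefP.exl | apply DefP.side | apply DefP.oddCard
              | apply DefP.cardEq | apply DefP.cardLt | apply DefP.cardLe | apply DefP.lst
              | apply DefP.fst | apply DefP.nxt | apply DefP.keyLe | apply DefP.keyLt
              | apply DefP.rtc | (apply DefP.app4; assumption) | (apply DefP.app3'; assumption)
              | (apply DefP.app3; assumption) | (apply DefP.app2; assumption)
              | (apply DefP.comp; assumption) | exact Tm.id | exact Tm.unit | apply Tm.fst
              | apply Tm.snd | apply Tm.app | exact DefP.const _ | apply DefP.and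
              | apply DefP.not | apply DefP.or | apply DefP.iff | apply DefP.adj
              | apply DefP.le | apply DefP.lt | apply DefP.eqFin | apply DefP.eq
              | apply DefP.rv | apply DefP.imp | apply DefP.allFin | apply DefP.exFin
              | apply DefP.all | apply DefP.ex | assumption | (apply Tm.comp; assumption)
              | apply Tm.pair | apply Tm.lam)))
  · exact DefZ.comp (E := fun n => ((((E n × T n) × S n) × T n) × T n) × T n) had
      (f := fun n y => ((y.1.1.1.1.1, y.1.1.1.2), (y.1.1.2, y.2)))
        (by (repeat' (first
              | apply DefP.nOne | apply DefP.nZero | apply DefP.nSucc | apply DefP.nAdd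
              | apply DefP.nLt | apply DefP.nLe | apply DefP.nEq | apply DefP.hlf
              | apply DefP.p1le | apply DefP.p1 | apply DefP.p0 | apply DefP.aug
              | apply DefP.pth | apply DefP.nx | apply DefP.cnd | apply DefP.hmin
              | apply DefP.hit | apply DefP.cdn | apply DefP.firstEx | apply DefP.exN
              | apply DefP.end_ | apply DefP.isZero | apply DefP.isSucc | apply DefP.alt
              | apply DefP.exr | apply DefP.exl | apply DefP.side | apply DefP.oddCard
              | apply DefP.cardEq | apply DefP.cardLt | apply DefP.cardLe | apply DefP.lst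
              | apply DefP.fst | apply DefP.nxt | apply DefP.keyLe | apply DefP.keyLt
              | apply DefP.rtc | (apply DefP.app4; assumption) | (apply DefP.app3'; assumption)
              | (apply DefP.app3; assumption) | (apply DefP.app2; assumption)
              | (apply DefP.comp; assumption) | exact Tm.id | exact Tm.unit | apply Tm.fst
              | apply Tm.snd | apply Tm.app | exact DefP.const _ | apply DefP.and
              | apply DefP.not | apply DefP.or | apply DefP.iff | apply DefP.adj
              | apply DefP.le | apply DefP.lt | apply DefP.eqFin | apply DefP.eq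
              | apply DefP.rv | apply DefP.imp | apply DefP.allFin | apply DefP.exFin
              | apply DefP.all | apply DefP.ex | assumption | (apply Tm.comp; assumption)
              | apply Tm.pair | apply Tm.lam)))
  · exact DefZ.comp (E := fun n => ((((E n × T n) × S n) × T n) × T n) × T n) had
      (f := fun n y => ((y.1.1.1.1.1, y.1.1.1.2), (y.1.2, y.1.1.1.1.2)))
        (by (repeat' (first
              | apply DefP.nOne | apply DefP.nZero | apply DefP.nSucc | apply DefP.nAdd
              | apply DefP.nLt | apply DefP.nLe | apply DefP.nEq | apply DefP.hlf
              | apply DefP.p1le | apply DefP.p1 | apply DefP.p0 | apply DefP.aug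
              | apply DefP.pth | apply DefP.nx | apply DefP.cnd | apply DefP.hmin
              | apply DefP.hit | apply DefP.cdn | apply DefP.firstEx | apply DefP.exN
              | apply DefP.end_ | apply DefP.isZero | apply DefP.isSucc | apply DefP.alt
              | apply DefP.exr | apply DefP.exl | apply DefP.side | apply DefP.oddCard
              | apply DefP.cardEq | apply DefP.cardLt | apply DefP.cardLe | apply DefP.lst
              | apply DefP.fst | apply DefP.nxt | apply DefP.keyLe | apply DefP.keyLt
              | apply DefP.rtc | (apply DefP.app4; assumption) | (apply DefP.app3'; assumption)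
              | (apply DefP.app3; assumption) | (apply DefP.app2; assumption)
              | (apply DefP.comp; assumption) | exact Tm.id | exact Tm.unit | apply Tm.fst
              | apply Tm.snd | apply Tm.app | exact DefP.const _ | apply DefP.and
              | apply DefP.not | apply DefP.or | apply DefP.iff | apply DefP.adj
              | apply DefP.le | apply DefP.lt | apply DefP.eqFin | apply DefP.eq
              | apply DefP.rv | apply DefP.imp | apply DefP.allFin | apply DefP.exFin
              | apply DefP.all | apply DefP.ex | assumption | (apply Tm.comp; assumption)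
              | apply Tm.pair | apply Tm.lam)))

/-- `DefZ.pow`, `DefZ.nv'`, `DefZ.mul`, `DefZ.neg`, `DefZ.ite` -/
theorem DefZ.prt (hp : Tm p)
    (hDu : DefP (E := fun n => E n × T n) (fun n G X y => Du n G X y.1 y.2))
    (hOk : DefP (E := fun n => E n × (T n × T n)) (fun n G X y => Ok n G X y.1 y.2.1 y.2.2))
    (hB : DefZ (E := fun n => E n × (T n × T n)) (fun n y => p n y.1)
      (fun n G X y => B n G X y.1 y.2.1 y.2.2)) :
    DefZ (E := fun n => (E n × (S n × S n)) × (T n × T n)) (fun n y => p n y.1.1)
      (fun n G X y => PMNC.prt (Du n G X y.1.1) (Ok n G X y.1.1) (B n G X y.1.1) y.1.2.1 y.1.2.2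
        y.2.1 y.2.2) := by
  unfold PMNC.prt
  have hp' : Tm (fun n (y : (E n × (S n × S n)) × (T n × T n)) => p n y.1.1) :=
    hp.comp (Tm.fst (Tm.fst Tm.id))
  refine DefZ.add hp' ?_ (DefZ.ite (DefP.and (DefP.not ?_) (DefP.and (DefP.not ?_) ?_))
    (DefZ.mul hp' (DefZ.nv' (H := S) hp' ?_) (DefZ.ite (DefP.nLt ?_ ?_)
      (DefZ.pow (H := fun n => T n × T n) hp' (DefZ.nv' (H := S) hp' ?_) ?_)
      (DefZ.neg hp' (DefZ.pow (H := fun n => T n × T n) hp' (DefZ.nv' (H := S) hp' ?_) ?_))))
    (DefZ.zero hp'))
  · exact DefZ.comp (E := fun n => (E n × (S n × S n)) × (T n × T n)) hB
      (f := fun n y => (y.1.1, y.2))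
        (by (repeat' (first
              | apply DefP.nOne | apply DefP.nZero | apply DefP.nSucc | apply DefP.nAdd
              | apply DefP.nLt | apply DefP.nLe | apply DefP.nEq | apply DefP.hlf
              | apply DefP.p1le | apply DefP.p1 | apply DefP.p0 | apply DefP.aug
              | apply DefP.pth | apply DefP.nx | apply DefP.cnd | apply DefP.hmin
              | apply DefP.hit | apply DefP.cdn | apply DefP.firstEx | apply DefP.exN
              | apply DefP.end_ | apply DefP.isZero | apply DefP.isSucc | apply DefP.alt
              | apply DefP.exr | apply DefP.exl | apply DefP.side | apply DefP.oddCard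
              | apply DefP.cardEq | apply DefP.cardLt | apply DefP.cardLe | apply DefP.lst
              | apply DefP.fst | apply DefP.nxt | apply DefP.keyLe | apply DefP.keyLt
              | apply DefP.rtc | (apply DefP.app4; assumption) | (apply DefP.app3'; assumption)
              | (apply DefP.app3; assumption) | (apply DefP.app2; assumption)
              | (apply DefP.comp; assumption) | exact Tm.id | exact Tm.unit | apply Tm.fst
              | apply Tm.snd | apply Tm.app | exact DefP.const _ | apply DefP.and
              | apply DefP.not | apply DefP.or | apply DefP.iff | apply DefP.adj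
              | apply DefP.le | apply DefP.lt | apply DefP.eqFin | apply DefP.eq
              | apply DefP.rv | apply DefP.imp | apply DefP.allFin | apply DefP.exFin
              | apply DefP.all | apply DefP.ex | assumption | (apply Tm.comp; assumption)
              | apply Tm.pair | apply Tm.lam)))
  · exact DefP.comp (F := fun n => E n × T n)
      (f := fun n (y : (E n × (S n × S n)) × (T n × T n)) => (y.1.1, y.2.1)) hDu
        (by (repeat' (first
              | apply DefP.nOne | apply DefP.nZero | apply DefP.nSucc | apply DefP.nAdd
              | apply DefP.nLt | apply DefP.nLe | apply DefP.nEq | apply DefP.hlf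
              | apply DefP.p1le | apply DefP.p1 | apply DefP.p0 | apply DefP.aug
              | apply DefP.pth | apply DefP.nx | apply DefP.cnd | apply DefP.hmin
              | apply DefP.hit | apply DefP.cdn | apply DefP.firstEx | apply DefP.exN
              | apply DefP.end_ | apply DefP.isZero | apply DefP.isSucc | apply DefP.alt
              | apply DefP.exr | apply DefP.exl | apply DefP.side | apply DefP.oddCard
              | apply DefP.cardEq | apply DefP.cardLt | apply DefP.cardLe | apply DefP.lst
              | apply DefP.fst | apply DefP.nxt | apply DefP.keyLe | apply DefP.keyLt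
              | apply DefP.rtc | (apply DefP.app4; assumption) | (apply DefP.app3'; assumption)
              | (apply DefP.app3; assumption) | (apply DefP.app2; assumption)
              | (apply DefP.comp; assumption) | exact Tm.id | exact Tm.unit | apply Tm.fst
              | apply Tm.snd | apply Tm.app | exact DefP.const _ | apply DefP.and
              | apply DefP.not | apply DefP.or | apply DefP.iff | apply DefP.adj
              | apply DefP.le | apply DefP.lt | apply DefP.eqFin | apply DefP.eq
              | apply DefP.rv | apply DefP.imp | apply DefP.allFin | apply DefP.exFin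
              | apply DefP.all | apply DefP.ex | assumption | (apply Tm.comp; assumption)
              | apply Tm.pair | apply Tm.lam)))
  · exact DefP.comp (F := fun n => E n × T n)
      (f := fun n (y : (E n × (S n × S n)) × (T n × T n)) => (y.1.1, y.2.2)) hDu
        (by (repeat' (first
              | apply DefP.nOne | apply DefP.nZero | apply DefP.nSucc | apply DefP.nAdd
              | apply DefP.nLt | apply DefP.nLe | apply DefP.nEq | apply DefP.hlf
              | apply DefP.p1le | apply DefP.p1 | apply DefP.p0 | apply DefP.aug
              | apply DefP.pth | apply DefP.nx | apply DefP.cnd | apply DefP.hmin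
              | apply DefP.hit | apply DefP.cdn | apply DefP.firstEx | apply DefP.exN
              | apply DefP.end_ | apply DefP.isZero | apply DefP.isSucc | apply DefP.alt
              | apply DefP.exr | apply DefP.exl | apply DefP.side | apply DefP.oddCard
              | apply DefP.cardEq | apply DefP.cardLt | apply DefP.cardLe | apply DefP.lst
              | apply DefP.fst | apply DefP.nxt | apply DefP.keyLe | apply DefP.keyLt
              | apply DefP.rtc | (apply DefP.app4; assumption) | (apply DefP.app3'; assumption)
              | (apply DefP.app3; assumption) | (apply DefP.app2; assumption)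
              | (apply DefP.comp; assumption) | exact Tm.id | exact Tm.unit | apply Tm.fst
              | apply Tm.snd | apply Tm.app | exact DefP.const _ | apply DefP.and
              | apply DefP.not | apply DefP.or | apply DefP.iff | apply DefP.adj
              | apply DefP.le | apply DefP.lt | apply DefP.eqFin | apply DefP.eq
              | apply DefP.rv | apply DefP.imp | apply DefP.allFin | apply DefP.exFin
              | apply DefP.all | apply DefP.ex | assumption | (apply Tm.comp; assumption)
              | apply Tm.pair | apply Tm.lam)))
  · exact DefP.comp (F := fun n => E n × (T n × T n))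
      (f := fun n (y : (E n × (S n × S n)) × (T n × T n)) => (y.1.1, y.2)) hOk
        (by (repeat' (first
              | apply DefP.nOne | apply DefP.nZero | apply DefP.nSucc | apply DefP.nAdd
              | apply DefP.nLt | apply DefP.nLe | apply DefP.nEq | apply DefP.hlf
              | apply DefP.p1le | apply DefP.p1 | apply DefP.p0 | apply DefP.aug
              | apply DefP.pth | apply DefP.nx | apply DefP.cnd | apply DefP.hmin
              | apply DefP.hit | apply DefP.cdn | apply DefP.firstEx | apply DefP.exN
              | apply DefP.end_ | apply DefP.isZero | apply DefP.isSucc | apply DefP.alt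
              | apply DefP.exr | apply DefP.exl | apply DefP.side | apply DefP.oddCard
              | apply DefP.cardEq | apply DefP.cardLt | apply DefP.cardLe | apply DefP.lst
              | apply DefP.fst | apply DefP.nxt | apply DefP.keyLe | apply DefP.keyLt
              | apply DefP.rtc | (apply DefP.app4; assumption) | (apply DefP.app3'; assumption)
              | (apply DefP.app3; assumption) | (apply DefP.app2; assumption)
              | (apply DefP.comp; assumption) | exact Tm.id | exact Tm.unit | apply Tm.fst
              | apply Tm.snd | apply Tm.app | exact DefP.const _ | apply DefP.and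
              | apply DefP.not | apply DefP.or | apply DefP.iff | apply DefP.adj
              | apply DefP.le | apply DefP.lt | apply DefP.eqFin | apply DefP.eq
              | apply DefP.rv | apply DefP.imp | apply DefP.allFin | apply DefP.exFin
              | apply DefP.all | apply DefP.ex | assumption | (apply Tm.comp; assumption)
              | apply Tm.pair | apply Tm.lam)))
  · (repeat' (first
      | apply DefP.nOne | apply DefP.nZero | apply DefP.nSucc | apply DefP.nAdd
      | apply DefP.nLt | apply DefP.nLe | apply DefP.nEq | apply DefP.hlf | apply DefP.p1le
      | apply DefP.p1 | apply DefP.p0 | apply DefP.aug | apply DefP.pth | apply DefP.nx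
      | apply DefP.cnd | apply DefP.hmin | apply DefP.hit | apply DefP.cdn | apply DefP.firstEx
      | apply DefP.exN | apply DefP.end_ | apply DefP.isZero | apply DefP.isSucc
      | apply DefP.alt | apply DefP.exr | apply DefP.exl | apply DefP.side | apply DefP.oddCard
      | apply DefP.cardEq | apply DefP.cardLt | apply DefP.cardLe | apply DefP.lst
      | apply DefP.fst | apply DefP.nxt | apply DefP.keyLe | apply DefP.keyLt | apply DefP.rtc
      | (apply DefP.app4; assumption) | (apply DefP.app3'; assumption)
      | (apply DefP.app3; assumption) | (apply DefP.app2; assumption)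
      | (apply DefP.comp; assumption) | exact Tm.id | exact Tm.unit | apply Tm.fst
      | apply Tm.snd | apply Tm.app | exact DefP.const _ | apply DefP.and | apply DefP.not
      | apply DefP.or | apply DefP.iff | apply DefP.adj | apply DefP.le | apply DefP.lt
      | apply DefP.eqFin | apply DefP.eq | apply DefP.rv | apply DefP.imp | apply DefP.allFin
      | apply DefP.exFin | apply DefP.all | apply DefP.ex | assumption
      | (apply Tm.comp; assumption) | apply Tm.pair | apply Tm.lam))
  · (repeat' (first
      | apply DefP.nOne | apply DefP.nZero | apply DefP.nSucc | apply DefP.nAdd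
      | apply DefP.nLt | apply DefP.nLe | apply DefP.nEq | apply DefP.hlf | apply DefP.p1le
      | apply DefP.p1 | apply DefP.p0 | apply DefP.aug | apply DefP.pth | apply DefP.nx
      | apply DefP.cnd | apply DefP.hmin | apply DefP.hit | apply DefP.cdn | apply DefP.firstEx
      | apply DefP.exN | apply DefP.end_ | apply DefP.isZero | apply DefP.isSucc
      | apply DefP.alt | apply DefP.exr | apply DefP.exl | apply DefP.side | apply DefP.oddCard
      | apply DefP.cardEq | apply DefP.cardLt | apply DefP.cardLe | apply DefP.lst
      | apply DefP.fst | apply DefP.nxt | apply DefP.keyLe | apply DefP.keyLt | apply DefP.rtc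
      | (apply DefP.app4; assumption) | (apply DefP.app3'; assumption)
      | (apply DefP.app3; assumption) | (apply DefP.app2; assumption)
      | (apply DefP.comp; assumption) | exact Tm.id | exact Tm.unit | apply Tm.fst
      | apply Tm.snd | apply Tm.app | exact DefP.const _ | apply DefP.and | apply DefP.not
      | apply DefP.or | apply DefP.iff | apply DefP.adj | apply DefP.le | apply DefP.lt
      | apply DefP.eqFin | apply DefP.eq | apply DefP.rv | apply DefP.imp | apply DefP.allFin
      | apply DefP.exFin | apply DefP.all | apply DefP.ex | assumption
      | (apply Tm.comp; assumption) | apply Tm.pair | apply Tm.lam))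
  · (repeat' (first
      | apply DefP.nOne | apply DefP.nZero | apply DefP.nSucc | apply DefP.nAdd
      | apply DefP.nLt | apply DefP.nLe | apply DefP.nEq | apply DefP.hlf | apply DefP.p1le
      | apply DefP.p1 | apply DefP.p0 | apply DefP.aug | apply DefP.pth | apply DefP.nx
      | apply DefP.cnd | apply DefP.hmin | apply DefP.hit | apply DefP.cdn | apply DefP.firstEx
      | apply DefP.exN | apply DefP.end_ | apply DefP.isZero | apply DefP.isSucc
      | apply DefP.alt | apply DefP.exr | apply DefP.exl | apply DefP.side | apply DefP.oddCard
      | apply DefP.cardEq | apply DefP.cardLt | apply DefP.cardLe | apply DefP.lst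
      | apply DefP.fst | apply DefP.nxt | apply DefP.keyLe | apply DefP.keyLt | apply DefP.rtc
      | (apply DefP.app4; assumption) | (apply DefP.app3'; assumption)
      | (apply DefP.app3; assumption) | (apply DefP.app2; assumption)
      | (apply DefP.comp; assumption) | exact Tm.id | exact Tm.unit | apply Tm.fst
      | apply Tm.snd | apply Tm.app | exact DefP.const _ | apply DefP.and | apply DefP.not
      | apply DefP.or | apply DefP.iff | apply DefP.adj | apply DefP.le | apply DefP.lt
      | apply DefP.eqFin | apply DefP.eq | apply DefP.rv | apply DefP.imp | apply DefP.allFin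
      | apply DefP.exFin | apply DefP.all | apply DefP.ex | assumption
      | (apply Tm.comp; assumption) | apply Tm.pair | apply Tm.lam))
  · (repeat' (first
      | apply DefP.nOne | apply DefP.nZero | apply DefP.nSucc | apply DefP.nAdd
      | apply DefP.nLt | apply DefP.nLe | apply DefP.nEq | apply DefP.hlf | apply DefP.p1le
      | apply DefP.p1 | apply DefP.p0 | apply DefP.aug | apply DefP.pth | apply DefP.nx
      | apply DefP.cnd | apply DefP.hmin | apply DefP.hit | apply DefP.cdn | apply DefP.firstEx
      | apply DefP.exN | apply DefP.end_ | apply DefP.isZero | apply DefP.isSucc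
      | apply DefP.alt | apply DefP.exr | apply DefP.exl | apply DefP.side | apply DefP.oddCard
      | apply DefP.cardEq | apply DefP.cardLt | apply DefP.cardLe | apply DefP.lst
      | apply DefP.fst | apply DefP.nxt | apply DefP.keyLe | apply DefP.keyLt | apply DefP.rtc
      | (apply DefP.app4; assumption) | (apply DefP.app3'; assumption)
      | (apply DefP.app3; assumption) | (apply DefP.app2; assumption)
      | (apply DefP.comp; assumption) | exact Tm.id | exact Tm.unit | apply Tm.fst
      | apply Tm.snd | apply Tm.app | exact DefP.const _ | apply DefP.and | apply DefP.not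
      | apply DefP.or | apply DefP.iff | apply DefP.adj | apply DefP.le | apply DefP.lt
      | apply DefP.eqFin | apply DefP.eq | apply DefP.rv | apply DefP.imp | apply DefP.allFin
      | apply DefP.exFin | apply DefP.all | apply DefP.ex | assumption
      | (apply Tm.comp; assumption) | apply Tm.pair | apply Tm.lam))
  · (repeat' (first
      | apply DefP.nOne | apply DefP.nZero | apply DefP.nSucc | apply DefP.nAdd
      | apply DefP.nLt | apply DefP.nLe | apply DefP.nEq | apply DefP.hlf | apply DefP.p1le
      | apply DefP.p1 | apply DefP.p0 | apply DefP.aug | apply DefP.pth | apply DefP.nx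
      | apply DefP.cnd | apply DefP.hmin | apply DefP.hit | apply DefP.cdn | apply DefP.firstEx
      | apply DefP.exN | apply DefP.end_ | apply DefP.isZero | apply DefP.isSucc
      | apply DefP.alt | apply DefP.exr | apply DefP.exl | apply DefP.side | apply DefP.oddCard
      | apply DefP.cardEq | apply DefP.cardLt | apply DefP.cardLe | apply DefP.lst
      | apply DefP.fst | apply DefP.nxt | apply DefP.keyLe | apply DefP.keyLt | apply DefP.rtc
      | (apply DefP.app4; assumption) | (apply DefP.app3'; assumption)
      | (apply DefP.app3; assumption) | (apply DefP.app2; assumption)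
      | (apply DefP.comp; assumption) | exact Tm.id | exact Tm.unit | apply Tm.fst
      | apply Tm.snd | apply Tm.app | exact DefP.const _ | apply DefP.and | apply DefP.not
      | apply DefP.or | apply DefP.iff | apply DefP.adj | apply DefP.le | apply DefP.lt
      | apply DefP.eqFin | apply DefP.eq | apply DefP.rv | apply DefP.imp | apply DefP.allFin
      | apply DefP.exFin | apply DefP.all | apply DefP.ex | assumption
      | (apply Tm.comp; assumption) | apply Tm.pair | apply Tm.lam))
  · (repeat' (first
      | apply DefP.nOne | apply DefP.nZero | apply DefP.nSucc | apply DefP.nAdd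
      | apply DefP.nLt | apply DefP.nLe | apply DefP.nEq | apply DefP.hlf | apply DefP.p1le
      | apply DefP.p1 | apply DefP.p0 | apply DefP.aug | apply DefP.pth | apply DefP.nx
      | apply DefP.cnd | apply DefP.hmin | apply DefP.hit | apply DefP.cdn | apply DefP.firstEx
      | apply DefP.exN | apply DefP.end_ | apply DefP.isZero | apply DefP.isSucc
      | apply DefP.alt | apply DefP.exr | apply DefP.exl | apply DefP.side | apply DefP.oddCard
      | apply DefP.cardEq | apply DefP.cardLt | apply DefP.cardLe | apply DefP.lst
      | apply DefP.fst | apply DefP.nxt | apply DefP.keyLe | apply DefP.keyLt | apply DefP.rtc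
      | (apply DefP.app4; assumption) | (apply DefP.app3'; assumption)
      | (apply DefP.app3; assumption) | (apply DefP.app2; assumption)
      | (apply DefP.comp; assumption) | exact Tm.id | exact Tm.unit | apply Tm.fst
      | apply Tm.snd | apply Tm.app | exact DefP.const _ | apply DefP.and | apply DefP.not
      | apply DefP.or | apply DefP.iff | apply DefP.adj | apply DefP.le | apply DefP.lt
      | apply DefP.eqFin | apply DefP.eq | apply DefP.rv | apply DefP.imp | apply DefP.allFin
      | apply DefP.exFin | apply DefP.all | apply DefP.ex | assumption
      | (apply Tm.comp; assumption) | apply Tm.pair | apply Tm.lam))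
  · (repeat' (first
      | apply DefP.nOne | apply DefP.nZero | apply DefP.nSucc | apply DefP.nAdd
      | apply DefP.nLt | apply DefP.nLe | apply DefP.nEq | apply DefP.hlf | apply DefP.p1le
      | apply DefP.p1 | apply DefP.p0 | apply DefP.aug | apply DefP.pth | apply DefP.nx
      | apply DefP.cnd | apply DefP.hmin | apply DefP.hit | apply DefP.cdn | apply DefP.firstEx
      | apply DefP.exN | apply DefP.end_ | apply DefP.isZero | apply DefP.isSucc
      | apply DefP.alt | apply DefP.exr | apply DefP.exl | apply DefP.side | apply DefP.oddCard
      | apply DefP.cardEq | apply DefP.cardLt | apply DefP.cardLe | apply DefP.lst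
      | apply DefP.fst | apply DefP.nxt | apply DefP.keyLe | apply DefP.keyLt | apply DefP.rtc
      | (apply DefP.app4; assumption) | (apply DefP.app3'; assumption)
      | (apply DefP.app3; assumption) | (apply DefP.app2; assumption)
      | (apply DefP.comp; assumption) | exact Tm.id | exact Tm.unit | apply Tm.fst
      | apply Tm.snd | apply Tm.app | exact DefP.const _ | apply DefP.and | apply DefP.not
      | apply DefP.or | apply DefP.iff | apply DefP.adj | apply DefP.le | apply DefP.lt
      | apply DefP.eqFin | apply DefP.eq | apply DefP.rv | apply DefP.imp | apply DefP.allFin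
      | apply DefP.exFin | apply DefP.all | apply DefP.ex | assumption
      | (apply Tm.comp; assumption) | apply Tm.pair | apply Tm.lam))

theorem DefP.gdz (hp : Tm p)
    (hDu : DefP (E := fun n => E n × T n) (fun n G X y => Du n G X y.1 y.2))
    (hOk : DefP (E := fun n => E n × (T n × T n)) (fun n G X y => Ok n G X y.1 y.2.1 y.2.2))
    (hw : DefZ (E := fun n => (E n × S n) × (T n × T n)) (fun n y => p n y.1.1)
      (fun n G X y => ((nv y.1.2 : ℕ) : ℤ) ^ w n G X y.1.1 y.2.1 y.2.2))
    (hB : DefZ (E := fun n => E n × (T n × T n)) (fun n y => p n y.1)
      (fun n G X y => B n G X y.1 y.2.1 y.2.2)) :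
    DefP (E := fun n => E n × (S n × S n))
      (fun n G X y => PMNC.gdz (p n y.1) (Du n G X y.1) (Ok n G X y.1) (w n G X y.1) (B n G X y.1) y.2) := by
  unfold PMNC.gdz PMNC.nd
  have hp1 : Tm (fun n (y : E n × (S n × S n)) => p n y.1) := hp.comp (Tm.fst Tm.id)
  have hp2 : Tm (fun n (y : (E n × (S n × S n)) × S n) => p n y.1.1) :=
    hp.comp (Tm.fst (Tm.fst Tm.id))
  have hp3 : Tm (fun n (y : ((E n × (S n × S n)) × T n) × T n) => p n y.1.1.1) :=
    hp.comp (Tm.fst (Tm.fst (Tm.fst Tm.id)))
  have hprt := DefZ.prt hp hDu hOk hB
  have hDu' : DefP (E := fun n => (E n × (S n × S n)) × T n) (fun n G X y => Du n G X y.1.1 y.2) :=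
    DefP.comp (F := fun n => E n × T n)
      (f := fun n (y : (E n × (S n × S n)) × T n) => (y.1.1, y.2)) hDu
        (by (repeat' (first
              | apply DefP.nOne | apply DefP.nZero | apply DefP.nSucc | apply DefP.nAdd
              | apply DefP.nLt | apply DefP.nLe | apply DefP.nEq | apply DefP.hlf
              | apply DefP.p1le | apply DefP.p1 | apply DefP.p0 | apply DefP.aug
              | apply DefP.pth | apply DefP.nx | apply DefP.cnd | apply DefP.hmin
              | apply DefP.hit | apply DefP.cdn | apply DefP.firstEx | apply DefP.exN
              | apply DefP.end_ | apply DefP.isZero | apply DefP.isSucc | apply DefP.alt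
              | apply DefP.exr | apply DefP.exl | apply DefP.side | apply DefP.oddCard
              | apply DefP.cardEq | apply DefP.cardLt | apply DefP.cardLe | apply DefP.lst
              | apply DefP.fst | apply DefP.nxt | apply DefP.keyLe | apply DefP.keyLt
              | apply DefP.rtc | (apply DefP.app4; assumption) | (apply DefP.app3'; assumption)
              | (apply DefP.app3; assumption) | (apply DefP.app2; assumption)
              | (apply DefP.comp; assumption) | exact Tm.id | exact Tm.unit | apply Tm.fst
              | apply Tm.snd | apply Tm.app | exact DefP.const _ | apply DefP.and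
              | apply DefP.not | apply DefP.or | apply DefP.iff | apply DefP.adj
              | apply DefP.le | apply DefP.lt | apply DefP.eqFin | apply DefP.eq
              | apply DefP.rv | apply DefP.imp | apply DefP.allFin | apply DefP.exFin
              | apply DefP.all | apply DefP.ex | assumption | (apply Tm.comp; assumption)
              | apply Tm.pair | apply Tm.lam)))
  have hw' : DefZ (E := fun n => ((E n × (S n × S n)) × S n) × (T n × T n))
      (fun n y => p n y.1.1.1)
      (fun n G X y => ((nv y.1.2 : ℕ) : ℤ) ^ w n G X y.1.1.1 y.2.1 y.2.2) :=
    DefZ.comp (E := fun n => ((E n × (S n × S n)) × S n) × (T n × T n)) hw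
      (f := fun n y => ((y.1.1.1, y.1.2), y.2))
        (by (repeat' (first
              | apply DefP.nOne | apply DefP.nZero | apply DefP.nSucc | apply DefP.nAdd
              | apply DefP.nLt | apply DefP.nLe | apply DefP.nEq | apply DefP.hlf
              | apply DefP.p1le | apply DefP.p1 | apply DefP.p0 | apply DefP.aug
              | apply DefP.pth | apply DefP.nx | apply DefP.cnd | apply DefP.hmin
              | apply DefP.hit | apply DefP.cdn | apply DefP.firstEx | apply DefP.exN
              | apply DefP.end_ | apply DefP.isZero | apply DefP.isSucc | apply DefP.alt
              | apply DefP.exr | apply DefP.exl | apply DefP.side | apply DefP.oddCard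
              | apply DefP.cardEq | apply DefP.cardLt | apply DefP.cardLe | apply DefP.lst
              | apply DefP.fst | apply DefP.nxt | apply DefP.keyLe | apply DefP.keyLt
              | apply DefP.rtc | (apply DefP.app4; assumption) | (apply DefP.app3'; assumption)
              | (apply DefP.app3; assumption) | (apply DefP.app2; assumption)
              | (apply DefP.comp; assumption) | exact Tm.id | exact Tm.unit | apply Tm.fst
              | apply Tm.snd | apply Tm.app | exact DefP.const _ | apply DefP.and
              | apply DefP.not | apply DefP.or | apply DefP.iff | apply DefP.adj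
              | apply DefP.le | apply DefP.lt | apply DefP.eqFin | apply DefP.eq
              | apply DefP.rv | apply DefP.imp | apply DefP.allFin | apply DefP.exFin
              | apply DefP.all | apply DefP.ex | assumption | (apply Tm.comp; assumption)
              | apply Tm.pair | apply Tm.lam)))
  have hwx := DefZ.wx (E := fun n => E n × (S n × S n)) (T := T) (S := S)
    (p := fun n y => p n y.1) (w := fun n G X y => w n G X y.1)
    (B := fun n G X y => PMNC.prt (Du n G X y.1) (Ok n G X y.1) (B n G X y.1) y.2.1 y.2.2)
    hp1 hw' hprt
  have hflz := DefP.flz (E := fun n => E n × (S n × S n)) (T := T) (S := S)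
    (p := fun n y => p n y.1) (Du := fun n G X y => Du n G X y.1) (w := fun n G X y => w n G X y.1)
    (B := fun n G X y => PMNC.prt (Du n G X y.1) (Ok n G X y.1) (B n G X y.1) y.2.1 y.2.2)
    hp1 hDu' hw' hprt
  have hlbz := DefP.lbz (E := fun n => E n × (S n × S n)) (T := T) (S := S)
    (p := fun n y => p n y.1) (Du := fun n G X y => Du n G X y.1) (w := fun n G X y => w n G X y.1)
    (B := fun n G X y => PMNC.prt (Du n G X y.1) (Ok n G X y.1) (B n G X y.1) y.2.1 y.2.2)
    hp1 hDu' hw' hprt
  refine DefP.and (DefP.and (DefP.nLt ?_ hp1) (DefP.nLt ?_ hp1)) (DefP.and (DefP.ex
    (DefZ.ndvd hp2 (DefZ.det (T := T) (M := fun n G X (y : (E n × (S n × S n)) × S n) r c =>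
      PMNC.wx (w n G X y.1.1) (PMNC.prt (Du n G X y.1.1) (Ok n G X y.1.1) (B n G X y.1.1)
        y.1.2.1 y.1.2.2) y.2 r c) hp2 hwx))) (DefP.and (DefP.all (DefP.all (DefP.imp (DefP.not ?_)
      (DefP.imp (DefP.not ?_) (DefP.imp ?_ (DefZ.ndvd hp3 ?_)))))) (DefP.or
        (DefP.ex (F := fun n => T n × T n) hflz) (DefP.and ?_
          (DefP.all (DefP.imp (DefP.or ?_ ?_) hlbz))))))
  · (repeat' (first
      | apply DefP.nOne | apply DefP.nZero | apply DefP.nSucc | apply DefP.nAdd
      | apply DefP.nLt | apply DefP.nLe | apply DefP.nEq | apply DefP.hlf | apply DefP.p1le
      | apply DefP.p1 | apply DefP.p0 | apply DefP.aug | apply DefP.pth | apply DefP.nx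
      | apply DefP.cnd | apply DefP.hmin | apply DefP.hit | apply DefP.cdn | apply DefP.firstEx
      | apply DefP.exN | apply DefP.end_ | apply DefP.isZero | apply DefP.isSucc
      | apply DefP.alt | apply DefP.exr | apply DefP.exl | apply DefP.side | apply DefP.oddCard
      | apply DefP.cardEq | apply DefP.cardLt | apply DefP.cardLe | apply DefP.lst
      | apply DefP.fst | apply DefP.nxt | apply DefP.keyLe | apply DefP.keyLt | apply DefP.rtc
      | (apply DefP.app4; assumption) | (apply DefP.app3'; assumption)
      | (apply DefP.app3; assumption) | (apply DefP.app2; assumption)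
      | (apply DefP.comp; assumption) | exact Tm.id | exact Tm.unit | apply Tm.fst
      | apply Tm.snd | apply Tm.app | exact DefP.const _ | apply DefP.and | apply DefP.not
      | apply DefP.or | apply DefP.iff | apply DefP.adj | apply DefP.le | apply DefP.lt
      | apply DefP.eqFin | apply DefP.eq | apply DefP.rv | apply DefP.imp | apply DefP.allFin
      | apply DefP.exFin | apply DefP.all | apply DefP.ex | assumption
      | (apply Tm.comp; assumption) | apply Tm.pair | apply Tm.lam))
  · (repeat' (first
      | apply DefP.nOne | apply DefP.nZero | apply DefP.nSucc | apply DefP.nAdd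
      | apply DefP.nLt | apply DefP.nLe | apply DefP.nEq | apply DefP.hlf | apply DefP.p1le
      | apply DefP.p1 | apply DefP.p0 | apply DefP.aug | apply DefP.pth | apply DefP.nx
      | apply DefP.cnd | apply DefP.hmin | apply DefP.hit | apply DefP.cdn | apply DefP.firstEx
      | apply DefP.exN | apply DefP.end_ | apply DefP.isZero | apply DefP.isSucc
      | apply DefP.alt | apply DefP.exr | apply DefP.exl | apply DefP.side | apply DefP.oddCard
      | apply DefP.cardEq | apply DefP.cardLt | apply DefP.cardLe | apply DefP.lst
      | apply DefP.fst | apply DefP.nxt | apply DefP.keyLe | apply DefP.keyLt | apply DefP.rtc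
      | (apply DefP.app4; assumption) | (apply DefP.app3'; assumption)
      | (apply DefP.app3; assumption) | (apply DefP.app2; assumption)
      | (apply DefP.comp; assumption) | exact Tm.id | exact Tm.unit | apply Tm.fst
      | apply Tm.snd | apply Tm.app | exact DefP.const _ | apply DefP.and | apply DefP.not
      | apply DefP.or | apply DefP.iff | apply DefP.adj | apply DefP.le | apply DefP.lt
      | apply DefP.eqFin | apply DefP.eq | apply DefP.rv | apply DefP.imp | apply DefP.allFin
      | apply DefP.exFin | apply DefP.all | apply DefP.ex | assumption
      | (apply Tm.comp; assumption) | apply Tm.pair | apply Tm.lam))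
  · exact DefP.comp (F := fun n => E n × T n)
      (f := fun n (y : ((E n × (S n × S n)) × T n) × T n) => (y.1.1.1, y.1.2)) hDu
        (by (repeat' (first
              | apply DefP.nOne | apply DefP.nZero | apply DefP.nSucc | apply DefP.nAdd
              | apply DefP.nLt | apply DefP.nLe | apply DefP.nEq | apply DefP.hlf
              | apply DefP.p1le | apply DefP.p1 | apply DefP.p0 | apply DefP.aug
              | apply DefP.pth | apply DefP.nx | apply DefP.cnd | apply DefP.hmin
              | apply DefP.hit | apply DefP.cdn | apply DefP.firstEx | apply DefP.exN
              | apply DefP.end_ | apply DefP.isZero | apply DefP.isSucc | apply DefP.alt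
              | apply DefP.exr | apply DefP.exl | apply DefP.side | apply DefP.oddCard
              | apply DefP.cardEq | apply DefP.cardLt | apply DefP.cardLe | apply DefP.lst
              | apply DefP.fst | apply DefP.nxt | apply DefP.keyLe | apply DefP.keyLt
              | apply DefP.rtc | (apply DefP.app4; assumption) | (apply DefP.app3'; assumption)
              | (apply DefP.app3; assumption) | (apply DefP.app2; assumption)
              | (apply DefP.comp; assumption) | exact Tm.id | exact Tm.unit | apply Tm.fst
              | apply Tm.snd | apply Tm.app | exact DefP.const _ | apply DefP.and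
              | apply DefP.not | apply DefP.or | apply DefP.iff | apply DefP.adj
              | apply DefP.le | apply DefP.lt | apply DefP.eqFin | apply DefP.eq
              | apply DefP.rv | apply DefP.imp | apply DefP.allFin | apply DefP.exFin
              | apply DefP.all | apply DefP.ex | assumption | (apply Tm.comp; assumption)
              | apply Tm.pair | apply Tm.lam)))
  · exact DefP.comp (F := fun n => E n × T n)
      (f := fun n (y : ((E n × (S n × S n)) × T n) × T n) => (y.1.1.1, y.2)) hDu
        (by (repeat' (first
              | apply DefP.nOne | apply DefP.nZero | apply DefP.nSucc | apply DefP.nAdd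
              | apply DefP.nLt | apply DefP.nLe | apply DefP.nEq | apply DefP.hlf
              | apply DefP.p1le | apply DefP.p1 | apply DefP.p0 | apply DefP.aug
              | apply DefP.pth | apply DefP.nx | apply DefP.cnd | apply DefP.hmin
              | apply DefP.hit | apply DefP.cdn | apply DefP.firstEx | apply DefP.exN
              | apply DefP.end_ | apply DefP.isZero | apply DefP.isSucc | apply DefP.alt
              | apply DefP.exr | apply DefP.exl | apply DefP.side | apply DefP.oddCard
              | apply DefP.cardEq | apply DefP.cardLt | apply DefP.cardLe | apply DefP.lst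
              | apply DefP.fst | apply DefP.nxt | apply DefP.keyLe | apply DefP.keyLt
              | apply DefP.rtc | (apply DefP.app4; assumption) | (apply DefP.app3'; assumption)
              | (apply DefP.app3; assumption) | (apply DefP.app2; assumption)
              | (apply DefP.comp; assumption) | exact Tm.id | exact Tm.unit | apply Tm.fst
              | apply Tm.snd | apply Tm.app | exact DefP.const _ | apply DefP.and
              | apply DefP.not | apply DefP.or | apply DefP.iff | apply DefP.adj
              | apply DefP.le | apply DefP.lt | apply DefP.eqFin | apply DefP.eq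
              | apply DefP.rv | apply DefP.imp | apply DefP.allFin | apply DefP.exFin
              | apply DefP.all | apply DefP.ex | assumption | (apply Tm.comp; assumption)
              | apply Tm.pair | apply Tm.lam)))
  · exact DefP.comp (F := fun n => E n × (T n × T n))
      (f := fun n (y : ((E n × (S n × S n)) × T n) × T n) => (y.1.1.1, (y.1.2, y.2))) hOk
      (by (repeat' (first
            | apply DefP.nOne | apply DefP.nZero | apply DefP.nSucc | apply DefP.nAdd
            | apply DefP.nLt | apply DefP.nLe | apply DefP.nEq | apply DefP.hlf
            | apply DefP.p1le | apply DefP.p1 | apply DefP.p0 | apply DefP.aug | apply DefP.pth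
            | apply DefP.nx | apply DefP.cnd | apply DefP.hmin | apply DefP.hit
            | apply DefP.cdn | apply DefP.firstEx | apply DefP.exN | apply DefP.end_
            | apply DefP.isZero | apply DefP.isSucc | apply DefP.alt | apply DefP.exr
            | apply DefP.exl | apply DefP.side | apply DefP.oddCard | apply DefP.cardEq
            | apply DefP.cardLt | apply DefP.cardLe | apply DefP.lst | apply DefP.fst
            | apply DefP.nxt | apply DefP.keyLe | apply DefP.keyLt | apply DefP.rtc
            | (apply DefP.app4; assumption) | (apply DefP.app3'; assumption)
            | (apply DefP.app3; assumption) | (apply DefP.app2; assumption)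
            | (apply DefP.comp; assumption) | exact Tm.id | exact Tm.unit | apply Tm.fst
            | apply Tm.snd | apply Tm.app | exact DefP.const _ | apply DefP.and
            | apply DefP.not | apply DefP.or | apply DefP.iff | apply DefP.adj | apply DefP.le
            | apply DefP.lt | apply DefP.eqFin | apply DefP.eq | apply DefP.rv | apply DefP.imp
            | apply DefP.allFin | apply DefP.exFin | apply DefP.all | apply DefP.ex
            | assumption | (apply Tm.comp; assumption) | apply Tm.pair | apply Tm.lam)))
  · exact DefZ.comp (E := fun n => ((E n × (S n × S n)) × T n) × T n) hprt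
      (f := fun n y => (y.1.1, (y.1.2, y.2)))
        (by (repeat' (first
              | apply DefP.nOne | apply DefP.nZero | apply DefP.nSucc | apply DefP.nAdd
              | apply DefP.nLt | apply DefP.nLe | apply DefP.nEq | apply DefP.hlf
              | apply DefP.p1le | apply DefP.p1 | apply DefP.p0 | apply DefP.aug
              | apply DefP.pth | apply DefP.nx | apply DefP.cnd | apply DefP.hmin
              | apply DefP.hit | apply DefP.cdn | apply DefP.firstEx | apply DefP.exN
              | apply DefP.end_ | apply DefP.isZero | apply DefP.isSucc | apply DefP.alt
              | apply DefP.exr | apply DefP.exl | apply DefP.side | apply DefP.oddCard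
              | apply DefP.cardEq | apply DefP.cardLt | apply DefP.cardLe | apply DefP.lst
              | apply DefP.fst | apply DefP.nxt | apply DefP.keyLe | apply DefP.keyLt
              | apply DefP.rtc | (apply DefP.app4; assumption) | (apply DefP.app3'; assumption)
              | (apply DefP.app3; assumption) | (apply DefP.app2; assumption)
              | (apply DefP.comp; assumption) | exact Tm.id | exact Tm.unit | apply Tm.fst
              | apply Tm.snd | apply Tm.app | exact DefP.const _ | apply DefP.and
              | apply DefP.not | apply DefP.or | apply DefP.iff | apply DefP.adj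
              | apply DefP.le | apply DefP.lt | apply DefP.eqFin | apply DefP.eq
              | apply DefP.rv | apply DefP.imp | apply DefP.allFin | apply DefP.exFin
              | apply DefP.all | apply DefP.ex | assumption | (apply Tm.comp; assumption)
              | apply Tm.pair | apply Tm.lam)))
  · exact DefP.comp (F := E) (f := fun n (y : E n × (S n × S n)) => y.1)
      (DefP.parz hp hDu hOk hw hB)
        (by (repeat' (first
              | apply DefP.nOne | apply DefP.nZero | apply DefP.nSucc | apply DefP.nAdd
              | apply DefP.nLt | apply DefP.nLe | apply DefP.nEq | apply DefP.hlf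
              | apply DefP.p1le | apply DefP.p1 | apply DefP.p0 | apply DefP.aug
              | apply DefP.pth | apply DefP.nx | apply DefP.cnd | apply DefP.hmin
              | apply DefP.hit | apply DefP.cdn | apply DefP.firstEx | apply DefP.exN
              | apply DefP.end_ | apply DefP.isZero | apply DefP.isSucc | apply DefP.alt
              | apply DefP.exr | apply DefP.exl | apply DefP.side | apply DefP.oddCard
              | apply DefP.cardEq | apply DefP.cardLt | apply DefP.cardLe | apply DefP.lst
              | apply DefP.fst | apply DefP.nxt | apply DefP.keyLe | apply DefP.keyLt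
              | apply DefP.rtc | (apply DefP.app4; assumption) | (apply DefP.app3'; assumption)
              | (apply DefP.app3; assumption) | (apply DefP.app2; assumption)
              | (apply DefP.comp; assumption) | exact Tm.id | exact Tm.unit | apply Tm.fst
              | apply Tm.snd | apply Tm.app | exact DefP.const _ | apply DefP.and
              | apply DefP.not | apply DefP.or | apply DefP.iff | apply DefP.adj
              | apply DefP.le | apply DefP.lt | apply DefP.eqFin | apply DefP.eq
              | apply DefP.rv | apply DefP.imp | apply DefP.allFin | apply DefP.exFin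
              | apply DefP.all | apply DefP.ex | assumption | (apply Tm.comp; assumption)
              | apply Tm.pair | apply Tm.lam)))
  · exact DefP.comp (F := fun n => E n × T n)
      (f := fun n (y : (E n × (S n × S n)) × T n) => (y.1.1, y.2)) (DefP.lbz hp hDu hw hB)
      (by (repeat' (first
            | apply DefP.nOne | apply DefP.nZero | apply DefP.nSucc | apply DefP.nAdd
            | apply DefP.nLt | apply DefP.nLe | apply DefP.nEq | apply DefP.hlf
            | apply DefP.p1le | apply DefP.p1 | apply DefP.p0 | apply DefP.aug | apply DefP.pth
            | apply DefP.nx | apply DefP.cnd | apply DefP.hmin | apply DefP.hit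
            | apply DefP.cdn | apply DefP.firstEx | apply DefP.exN | apply DefP.end_
            | apply DefP.isZero | apply DefP.isSucc | apply DefP.alt | apply DefP.exr
            | apply DefP.exl | apply DefP.side | apply DefP.oddCard | apply DefP.cardEq
            | apply DefP.cardLt | apply DefP.cardLe | apply DefP.lst | apply DefP.fst
            | apply DefP.nxt | apply DefP.keyLe | apply DefP.keyLt | apply DefP.rtc
            | (apply DefP.app4; assumption) | (apply DefP.app3'; assumption)
            | (apply DefP.app3; assumption) | (apply DefP.app2; assumption)
            | (apply DefP.comp; assumption) | exact Tm.id | exact Tm.unit | apply Tm.fst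
            | apply Tm.snd | apply Tm.app | exact DefP.const _ | apply DefP.and
            | apply DefP.not | apply DefP.or | apply DefP.iff | apply DefP.adj | apply DefP.le
            | apply DefP.lt | apply DefP.eqFin | apply DefP.eq | apply DefP.rv | apply DefP.imp
            | apply DefP.allFin | apply DefP.exFin | apply DefP.all | apply DefP.ex
            | assumption | (apply Tm.comp; assumption) | apply Tm.pair | apply Tm.lam)))
  · exact DefP.comp (F := fun n => E n × T n)
      (f := fun n (y : (E n × (S n × S n)) × T n) => (y.1.1, y.2)) (DefP.rcz hp hDu hOk hw hB)
      (by (repeat' (first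
            | apply DefP.nOne | apply DefP.nZero | apply DefP.nSucc | apply DefP.nAdd
            | apply DefP.nLt | apply DefP.nLe | apply DefP.nEq | apply DefP.hlf
            | apply DefP.p1le | apply DefP.p1 | apply DefP.p0 | apply DefP.aug | apply DefP.pth
            | apply DefP.nx | apply DefP.cnd | apply DefP.hmin | apply DefP.hit
            | apply DefP.cdn | apply DefP.firstEx | apply DefP.exN | apply DefP.end_
            | apply DefP.isZero | apply DefP.isSucc | apply DefP.alt | apply DefP.exr
            | apply DefP.exl | apply DefP.side | apply DefP.oddCard | apply DefP.cardEq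
            | apply DefP.cardLt | apply DefP.cardLe | apply DefP.lst | apply DefP.fst
            | apply DefP.nxt | apply DefP.keyLe | apply DefP.keyLt | apply DefP.rtc
            | (apply DefP.app4; assumption) | (apply DefP.app3'; assumption)
            | (apply DefP.app3; assumption) | (apply DefP.app2; assumption)
            | (apply DefP.comp; assumption) | exact Tm.id | exact Tm.unit | apply Tm.fst
            | apply Tm.snd | apply Tm.app | exact DefP.const _ | apply DefP.and
            | apply DefP.not | apply DefP.or | apply DefP.iff | apply DefP.adj | apply DefP.le
            | apply DefP.lt | apply DefP.eqFin | apply DefP.eq | apply DefP.rv | apply DefP.imp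
            | apply DefP.allFin | apply DefP.exFin | apply DefP.all | apply DefP.ex
            | assumption | (apply Tm.comp; assumption) | apply Tm.pair | apply Tm.lam)))

theorem DefP.lgz (hp : Tm p)
    (hDu : DefP (E := fun n => E n × T n) (fun n G X y => Du n G X y.1 y.2))
    (hOk : DefP (E := fun n => E n × (T n × T n)) (fun n G X y => Ok n G X y.1 y.2.1 y.2.2))
    (hw : DefZ (E := fun n => (E n × S n) × (T n × T n)) (fun n y => p n y.1.1)
      (fun n G X y => ((nv y.1.2 : ℕ) : ℤ) ^ w n G X y.1.1 y.2.1 y.2.2))
    (hB : DefZ (E := fun n => E n × (T n × T n)) (fun n y => p n y.1)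
      (fun n G X y => B n G X y.1 y.2.1 y.2.2)) :
    DefP (E := fun n => E n × (S n × S n))
      (fun n G X y => PMNC.lgz (p n y.1) (Du n G X y.1) (Ok n G X y.1) (w n G X y.1) (B n G X y.1) y.2) := by
  unfold PMNC.lgz
  have h := DefP.gdz hp hDu hOk hw hB
  refine DefP.and h (DefP.all (F := fun n => S n × S n) (DefP.imp ?_
    (DefP.nLe (F := fun n => S n × S n) (H := fun n => S n × S n) ?_ ?_)))
  · exact DefP.comp (F := fun n => E n × (S n × S n))
      (f := fun n (y : (E n × (S n × S n)) × (S n × S n)) => (y.1.1, y.2)) h
        (by (repeat' (first
              | apply DefP.nOne | apply DefP.nZero | apply DefP.nSucc | apply DefP.nAdd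
              | apply DefP.nLt | apply DefP.nLe | apply DefP.nEq | apply DefP.hlf
              | apply DefP.p1le | apply DefP.p1 | apply DefP.p0 | apply DefP.aug
              | apply DefP.pth | apply DefP.nx | apply DefP.cnd | apply DefP.hmin
              | apply DefP.hit | apply DefP.cdn | apply DefP.firstEx | apply DefP.exN
              | apply DefP.end_ | apply DefP.isZero | apply DefP.isSucc | apply DefP.alt
              | apply DefP.exr | apply DefP.exl | apply DefP.side | apply DefP.oddCard
              | apply DefP.cardEq | apply DefP.cardLt | apply DefP.cardLe | apply DefP.lst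
              | apply DefP.fst | apply DefP.nxt | apply DefP.keyLe | apply DefP.keyLt
              | apply DefP.rtc | (apply DefP.app4; assumption) | (apply DefP.app3'; assumption)
              | (apply DefP.app3; assumption) | (apply DefP.app2; assumption)
              | (apply DefP.comp; assumption) | exact Tm.id | exact Tm.unit | apply Tm.fst
              | apply Tm.snd | apply Tm.app | exact DefP.const _ | apply DefP.and
              | apply DefP.not | apply DefP.or | apply DefP.iff | apply DefP.adj
              | apply DefP.le | apply DefP.lt | apply DefP.eqFin | apply DefP.eq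
              | apply DefP.rv | apply DefP.imp | apply DefP.allFin | apply DefP.exFin
              | apply DefP.all | apply DefP.ex | assumption | (apply Tm.comp; assumption)
              | apply Tm.pair | apply Tm.lam)))
  · (repeat' (first
      | apply DefP.nOne | apply DefP.nZero | apply DefP.nSucc | apply DefP.nAdd
      | apply DefP.nLt | apply DefP.nLe | apply DefP.nEq | apply DefP.hlf | apply DefP.p1le
      | apply DefP.p1 | apply DefP.p0 | apply DefP.aug | apply DefP.pth | apply DefP.nx
      | apply DefP.cnd | apply DefP.hmin | apply DefP.hit | apply DefP.cdn | apply DefP.firstEx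
      | apply DefP.exN | apply DefP.end_ | apply DefP.isZero | apply DefP.isSucc
      | apply DefP.alt | apply DefP.exr | apply DefP.exl | apply DefP.side | apply DefP.oddCard
      | apply DefP.cardEq | apply DefP.cardLt | apply DefP.cardLe | apply DefP.lst
      | apply DefP.fst | apply DefP.nxt | apply DefP.keyLe | apply DefP.keyLt | apply DefP.rtc
      | (apply DefP.app4; assumption) | (apply DefP.app3'; assumption)
      | (apply DefP.app3; assumption) | (apply DefP.app2; assumption)
      | (apply DefP.comp; assumption) | exact Tm.id | exact Tm.unit | apply Tm.fst
      | apply Tm.snd | apply Tm.app | exact DefP.const _ | apply DefP.and | apply DefP.not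
      | apply DefP.or | apply DefP.iff | apply DefP.adj | apply DefP.le | apply DefP.lt
      | apply DefP.eqFin | apply DefP.eq | apply DefP.rv | apply DefP.imp | apply DefP.allFin
      | apply DefP.exFin | apply DefP.all | apply DefP.ex | assumption
      | (apply Tm.comp; assumption) | apply Tm.pair | apply Tm.lam))
  · (repeat' (first
      | apply DefP.nOne | apply DefP.nZero | apply DefP.nSucc | apply DefP.nAdd
      | apply DefP.nLt | apply DefP.nLe | apply DefP.nEq | apply DefP.hlf | apply DefP.p1le
      | apply DefP.p1 | apply DefP.p0 | apply DefP.aug | apply DefP.pth | apply DefP.nx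
      | apply DefP.cnd | apply DefP.hmin | apply DefP.hit | apply DefP.cdn | apply DefP.firstEx
      | apply DefP.exN | apply DefP.end_ | apply DefP.isZero | apply DefP.isSucc
      | apply DefP.alt | apply DefP.exr | apply DefP.exl | apply DefP.side | apply DefP.oddCard
      | apply DefP.cardEq | apply DefP.cardLt | apply DefP.cardLe | apply DefP.lst
      | apply DefP.fst | apply DefP.nxt | apply DefP.keyLe | apply DefP.keyLt | apply DefP.rtc
      | (apply DefP.app4; assumption) | (apply DefP.app3'; assumption)
      | (apply DefP.app3; assumption) | (apply DefP.app2; assumption)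
      | (apply DefP.comp; assumption) | exact Tm.id | exact Tm.unit | apply Tm.fst
      | apply Tm.snd | apply Tm.app | exact DefP.const _ | apply DefP.and | apply DefP.not
      | apply DefP.or | apply DefP.iff | apply DefP.adj | apply DefP.le | apply DefP.lt
      | apply DefP.eqFin | apply DefP.eq | apply DefP.rv | apply DefP.imp | apply DefP.allFin
      | apply DefP.exFin | apply DefP.all | apply DefP.ex | assumption
      | (apply Tm.comp; assumption) | apply Tm.pair | apply Tm.lam))

theorem DefZ.nxF (hp : Tm p)
    (hDu : DefP (E := fun n => E n × T n) (fun n G X y => Du n G X y.1 y.2))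
    (hOk : DefP (E := fun n => E n × (T n × T n)) (fun n G X y => Ok n G X y.1 y.2.1 y.2.2))
    (hw : DefZ (E := fun n => (E n × S n) × (T n × T n)) (fun n y => p n y.1.1)
      (fun n G X y => ((nv y.1.2 : ℕ) : ℤ) ^ w n G X y.1.1 y.2.1 y.2.2))
    (hB : DefZ (E := fun n => E n × (T n × T n)) (fun n y => p n y.1)
      (fun n G X y => B n G X y.1 y.2.1 y.2.2)) :
    DefZ (E := fun n => E n × (T n × T n)) (fun n y => p n y.1)
      (fun n G X y => PMNC.nxF (p n y.1) (Du n G X y.1) (Ok n G X y.1) (w n G X y.1) (B n G X y.1)
        y.2.1 y.2.2) := by
  unfold PMNC.nxF
  have hp1 : Tm (fun n (y : E n × (T n × T n)) => p n y.1) := hp.comp (Tm.fst Tm.id)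
  have hpT : Tm (fun n (y : (E n × (T n × T n)) × (T n × T n)) => p n y.1.1) :=
    hp.comp (Tm.fst (Tm.fst Tm.id))
  have hpS : Tm (fun n (y : (E n × (T n × T n)) × (S n × S n)) => p n y.1.1) :=
    hp.comp (Tm.fst (Tm.fst Tm.id))
  have h1 : DefP (E := fun n => (E n × (T n × T n)) × (T n × T n)) (fun n G X y =>
      PMNC.lfz (p n y.1.1) (Du n G X y.1.1) (w n G X y.1.1) (B n G X y.1.1) y.2) :=
    DefP.comp (F := fun n => E n × (T n × T n))
      (f := fun n (y : (E n × (T n × T n)) × (T n × T n)) => (y.1.1, y.2))
      (DefP.lfz hp hDu hw hB) (by (repeat' (first
          | apply DefP.nOne | apply DefP.nZero | apply DefP.nSucc | apply DefP.nAdd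
          | apply DefP.nLt | apply DefP.nLe | apply DefP.nEq | apply DefP.hlf | apply DefP.p1le
          | apply DefP.p1 | apply DefP.p0 | apply DefP.aug | apply DefP.pth | apply DefP.nx
          | apply DefP.cnd | apply DefP.hmin | apply DefP.hit | apply DefP.cdn
          | apply DefP.firstEx | apply DefP.exN | apply DefP.end_ | apply DefP.isZero
          | apply DefP.isSucc | apply DefP.alt | apply DefP.exr | apply DefP.exl | apply DefP.side
          | apply DefP.oddCard | apply DefP.cardEq | apply DefP.cardLt | apply DefP.cardLe
          | apply DefP.lst | apply DefP.fst | apply DefP.nxt | apply DefP.keyLe | apply DefP.keyLt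
          | apply DefP.rtc | (apply DefP.app4; assumption) | (apply DefP.app3'; assumption)
          | (apply DefP.app3; assumption) | (apply DefP.app2; assumption)
          | (apply DefP.comp; assumption) | exact Tm.id | exact Tm.unit | apply Tm.fst
          | apply Tm.snd | apply Tm.app | exact DefP.const _ | apply DefP.and | apply DefP.not
          | apply DefP.or | apply DefP.iff | apply DefP.adj | apply DefP.le | apply DefP.lt
          | apply DefP.eqFin | apply DefP.eq | apply DefP.rv | apply DefP.imp | apply DefP.allFin
          | apply DefP.exFin | apply DefP.all | apply DefP.ex | assumption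
          | (apply Tm.comp; assumption) | apply Tm.pair | apply Tm.lam)))
  have h2 : DefP (E := fun n => (E n × (T n × T n)) × (S n × S n)) (fun n G X y =>
      PMNC.lgz (p n y.1.1) (Du n G X y.1.1) (Ok n G X y.1.1) (w n G X y.1.1) (B n G X y.1.1)
        y.2) :=
    DefP.comp (F := fun n => E n × (S n × S n))
      (f := fun n (y : (E n × (T n × T n)) × (S n × S n)) => (y.1.1, y.2))
      (DefP.lgz hp hDu hOk hw hB) (by (repeat' (first
          | apply DefP.nOne | apply DefP.nZero | apply DefP.nSucc | apply DefP.nAdd
          | apply DefP.nLt | apply DefP.nLe | apply DefP.nEq | apply DefP.hlf | apply DefP.p1le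
          | apply DefP.p1 | apply DefP.p0 | apply DefP.aug | apply DefP.pth | apply DefP.nx
          | apply DefP.cnd | apply DefP.hmin | apply DefP.hit | apply DefP.cdn
          | apply DefP.firstEx | apply DefP.exN | apply DefP.end_ | apply DefP.isZero
          | apply DefP.isSucc | apply DefP.alt | apply DefP.exr | apply DefP.exl | apply DefP.side
          | apply DefP.oddCard | apply DefP.cardEq | apply DefP.cardLt | apply DefP.cardLe
          | apply DefP.lst | apply DefP.fst | apply DefP.nxt | apply DefP.keyLe | apply DefP.keyLt
          | apply DefP.rtc | (apply DefP.app4; assumption) | (apply DefP.app3'; assumption)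
          | (apply DefP.app3; assumption) | (apply DefP.app2; assumption)
          | (apply DefP.comp; assumption) | exact Tm.id | exact Tm.unit | apply Tm.fst
          | apply Tm.snd | apply Tm.app | exact DefP.const _ | apply DefP.and | apply DefP.not
          | apply DefP.or | apply DefP.iff | apply DefP.adj | apply DefP.le | apply DefP.lt
          | apply DefP.eqFin | apply DefP.eq | apply DefP.rv | apply DefP.imp | apply DefP.allFin
          | apply DefP.exFin | apply DefP.all | apply DefP.ex | assumption
          | (apply Tm.comp; assumption) | apply Tm.pair | apply Tm.lam)))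
  have h3 : DefP (E := fun n => (E n × (T n × T n)) × T n) (fun n G X y =>
      PMNC.act (p n y.1.1) (Du n G X y.1.1) (B n G X y.1.1) y.2) :=
    DefP.comp (F := fun n => E n × T n)
      (f := fun n (y : (E n × (T n × T n)) × T n) => (y.1.1, y.2))
      (DefP.act hp hDu hB) (by (repeat' (first
          | apply DefP.nOne | apply DefP.nZero | apply DefP.nSucc | apply DefP.nAdd
          | apply DefP.nLt | apply DefP.nLe | apply DefP.nEq | apply DefP.hlf | apply DefP.p1le
          | apply DefP.p1 | apply DefP.p0 | apply DefP.aug | apply DefP.pth | apply DefP.nx
          | apply DefP.cnd | apply DefP.hmin | apply DefP.hit | apply DefP.cdn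
          | apply DefP.firstEx | apply DefP.exN | apply DefP.end_ | apply DefP.isZero
          | apply DefP.isSucc | apply DefP.alt | apply DefP.exr | apply DefP.exl | apply DefP.side
          | apply DefP.oddCard | apply DefP.cardEq | apply DefP.cardLt | apply DefP.cardLe
          | apply DefP.lst | apply DefP.fst | apply DefP.nxt | apply DefP.keyLe | apply DefP.keyLt
          | apply DefP.rtc | (apply DefP.app4; assumption) | (apply DefP.app3'; assumption)
          | (apply DefP.app3; assumption) | (apply DefP.app2; assumption)
          | (apply DefP.comp; assumption) | exact Tm.id | exact Tm.unit | apply Tm.fst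
          | apply Tm.snd | apply Tm.app | exact DefP.const _ | apply DefP.and | apply DefP.not
          | apply DefP.or | apply DefP.iff | apply DefP.adj | apply DefP.le | apply DefP.lt
          | apply DefP.eqFin | apply DefP.eq | apply DefP.rv | apply DefP.imp | apply DefP.allFin
          | apply DefP.exFin | apply DefP.all | apply DefP.ex | assumption
          | (apply Tm.comp; assumption) | apply Tm.pair | apply Tm.lam)))
  refine DefZ.ite (DefP.ex (F := fun n => T n × T n) h1) ?_
    (DefZ.ite (DefP.and (DefP.ex h3) (DefP.ex (F := fun n => S n × S n) h2)) ?_ hB)
  · refine DefZ.sum hp1 (DefZ.ite h1 ?_ (DefZ.zero hpT))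
    unfold PMNC.rmz
    refine DefZ.ite (DefP.or (DefP.eq ?_ ?_) (DefP.or (DefP.eq ?_ ?_) (DefP.or (DefP.eq ?_ ?_)
      (DefP.eq ?_ ?_)))) (DefZ.dlt hpT ?_ ?_) ?_
    · (repeat' (first
          | apply DefP.nOne | apply DefP.nZero | apply DefP.nSucc | apply DefP.nAdd
          | apply DefP.nLt | apply DefP.nLe | apply DefP.nEq | apply DefP.hlf | apply DefP.p1le
          | apply DefP.p1 | apply DefP.p0 | apply DefP.aug | apply DefP.pth | apply DefP.nx
          | apply DefP.cnd | apply DefP.hmin | apply DefP.hit | apply DefP.cdn
          | apply DefP.firstEx | apply DefP.exN | apply DefP.end_ | apply DefP.isZero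
          | apply DefP.isSucc | apply DefP.alt | apply DefP.exr | apply DefP.exl | apply DefP.side
          | apply DefP.oddCard | apply DefP.cardEq | apply DefP.cardLt | apply DefP.cardLe
          | apply DefP.lst | apply DefP.fst | apply DefP.nxt | apply DefP.keyLe | apply DefP.keyLt
          | apply DefP.rtc | (apply DefP.app4; assumption) | (apply DefP.app3'; assumption)
          | (apply DefP.app3; assumption) | (apply DefP.app2; assumption)
          | (apply DefP.comp; assumption) | exact Tm.id | exact Tm.unit | apply Tm.fst
          | apply Tm.snd | apply Tm.app | exact DefP.const _ | apply DefP.and | apply DefP.not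
          | apply DefP.or | apply DefP.iff | apply DefP.adj | apply DefP.le | apply DefP.lt
          | apply DefP.eqFin | apply DefP.eq | apply DefP.rv | apply DefP.imp | apply DefP.allFin
          | apply DefP.exFin | apply DefP.all | apply DefP.ex | assumption
          | (apply Tm.comp; assumption) | apply Tm.pair | apply Tm.lam))
    · (repeat' (first
          | apply DefP.nOne | apply DefP.nZero | apply DefP.nSucc | apply DefP.nAdd
          | apply DefP.nLt | apply DefP.nLe | apply DefP.nEq | apply DefP.hlf | apply DefP.p1le
          | apply DefP.p1 | apply DefP.p0 | apply DefP.aug | apply DefP.pth | apply DefP.nx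
          | apply DefP.cnd | apply DefP.hmin | apply DefP.hit | apply DefP.cdn
          | apply DefP.firstEx | apply DefP.exN | apply DefP.end_ | apply DefP.isZero
          | apply DefP.isSucc | apply DefP.alt | apply DefP.exr | apply DefP.exl | apply DefP.side
          | apply DefP.oddCard | apply DefP.cardEq | apply DefP.cardLt | apply DefP.cardLe
          | apply DefP.lst | apply DefP.fst | apply DefP.nxt | apply DefP.keyLe | apply DefP.keyLt
          | apply DefP.rtc | (apply DefP.app4; assumption) | (apply DefP.app3'; assumption)
          | (apply DefP.app3; assumption) | (apply DefP.app2; assumption)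
          | (apply DefP.comp; assumption) | exact Tm.id | exact Tm.unit | apply Tm.fst
          | apply Tm.snd | apply Tm.app | exact DefP.const _ | apply DefP.and | apply DefP.not
          | apply DefP.or | apply DefP.iff | apply DefP.adj | apply DefP.le | apply DefP.lt
          | apply DefP.eqFin | apply DefP.eq | apply DefP.rv | apply DefP.imp | apply DefP.allFin
          | apply DefP.exFin | apply DefP.all | apply DefP.ex | assumption
          | (apply Tm.comp; assumption) | apply Tm.pair | apply Tm.lam))
    · (repeat' (first
          | apply DefP.nOne | apply DefP.nZero | apply DefP.nSucc | apply DefP.nAdd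
          | apply DefP.nLt | apply DefP.nLe | apply DefP.nEq | apply DefP.hlf | apply DefP.p1le
          | apply DefP.p1 | apply DefP.p0 | apply DefP.aug | apply DefP.pth | apply DefP.nx
          | apply DefP.cnd | apply DefP.hmin | apply DefP.hit | apply DefP.cdn
          | apply DefP.firstEx | apply DefP.exN | apply DefP.end_ | apply DefP.isZero
          | apply DefP.isSucc | apply DefP.alt | apply DefP.exr | apply DefP.exl | apply DefP.side
          | apply DefP.oddCard | apply DefP.cardEq | apply DefP.cardLt | apply DefP.cardLe
          | apply DefP.lst | apply DefP.fst | apply DefP.nxt | apply DefP.keyLe | apply DefP.keyLt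
          | apply DefP.rtc | (apply DefP.app4; assumption) | (apply DefP.app3'; assumption)
          | (apply DefP.app3; assumption) | (apply DefP.app2; assumption)
          | (apply DefP.comp; assumption) | exact Tm.id | exact Tm.unit | apply Tm.fst
          | apply Tm.snd | apply Tm.app | exact DefP.const _ | apply DefP.and | apply DefP.not
          | apply DefP.or | apply DefP.iff | apply DefP.adj | apply DefP.le | apply DefP.lt
          | apply DefP.eqFin | apply DefP.eq | apply DefP.rv | apply DefP.imp | apply DefP.allFin
          | apply DefP.exFin | apply DefP.all | apply DefP.ex | assumption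
          | (apply Tm.comp; assumption) | apply Tm.pair | apply Tm.lam))
    · (repeat' (first
          | apply DefP.nOne | apply DefP.nZero | apply DefP.nSucc | apply DefP.nAdd
          | apply DefP.nLt | apply DefP.nLe | apply DefP.nEq | apply DefP.hlf | apply DefP.p1le
          | apply DefP.p1 | apply DefP.p0 | apply DefP.aug | apply DefP.pth | apply DefP.nx
          | apply DefP.cnd | apply DefP.hmin | apply DefP.hit | apply DefP.cdn
          | apply DefP.firstEx | apply DefP.exN | apply DefP.end_ | apply DefP.isZero
          | apply DefP.isSucc | apply DefP.alt | apply DefP.exr | apply DefP.exl | apply DefP.side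
          | apply DefP.oddCard | apply DefP.cardEq | apply DefP.cardLt | apply DefP.cardLe
          | apply DefP.lst | apply DefP.fst | apply DefP.nxt | apply DefP.keyLe | apply DefP.keyLt
          | apply DefP.rtc | (apply DefP.app4; assumption) | (apply DefP.app3'; assumption)
          | (apply DefP.app3; assumption) | (apply DefP.app2; assumption)
          | (apply DefP.comp; assumption) | exact Tm.id | exact Tm.unit | apply Tm.fst
          | apply Tm.snd | apply Tm.app | exact DefP.const _ | apply DefP.and | apply DefP.not
          | apply DefP.or | apply DefP.iff | apply DefP.adj | apply DefP.le | apply DefP.lt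
          | apply DefP.eqFin | apply DefP.eq | apply DefP.rv | apply DefP.imp | apply DefP.allFin
          | apply DefP.exFin | apply DefP.all | apply DefP.ex | assumption
          | (apply Tm.comp; assumption) | apply Tm.pair | apply Tm.lam))
    · (repeat' (first
          | apply DefP.nOne | apply DefP.nZero | apply DefP.nSucc | apply DefP.nAdd
          | apply DefP.nLt | apply DefP.nLe | apply DefP.nEq | apply DefP.hlf | apply DefP.p1le
          | apply DefP.p1 | apply DefP.p0 | apply DefP.aug | apply DefP.pth | apply DefP.nx
          | apply DefP.cnd | apply DefP.hmin | apply DefP.hit | apply DefP.cdn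
          | apply DefP.firstEx | apply DefP.exN | apply DefP.end_ | apply DefP.isZero
          | apply DefP.isSucc | apply DefP.alt | apply DefP.exr | apply DefP.exl | apply DefP.side
          | apply DefP.oddCard | apply DefP.cardEq | apply DefP.cardLt | apply DefP.cardLe
          | apply DefP.lst | apply DefP.fst | apply DefP.nxt | apply DefP.keyLe | apply DefP.keyLt
          | apply DefP.rtc | (apply DefP.app4; assumption) | (apply DefP.app3'; assumption)
          | (apply DefP.app3; assumption) | (apply DefP.app2; assumption)
          | (apply DefP.comp; assumption) | exact Tm.id | exact Tm.unit | apply Tm.fst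
          | apply Tm.snd | apply Tm.app | exact DefP.const _ | apply DefP.and | apply DefP.not
          | apply DefP.or | apply DefP.iff | apply DefP.adj | apply DefP.le | apply DefP.lt
          | apply DefP.eqFin | apply DefP.eq | apply DefP.rv | apply DefP.imp | apply DefP.allFin
          | apply DefP.exFin | apply DefP.all | apply DefP.ex | assumption
          | (apply Tm.comp; assumption) | apply Tm.pair | apply Tm.lam))
    · (repeat' (first
          | apply DefP.nOne | apply DefP.nZero | apply DefP.nSucc | apply DefP.nAdd
          | apply DefP.nLt | apply DefP.nLe | apply DefP.nEq | apply DefP.hlf | apply DefP.p1le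
          | apply DefP.p1 | apply DefP.p0 | apply DefP.aug | apply DefP.pth | apply DefP.nx
          | apply DefP.cnd | apply DefP.hmin | apply DefP.hit | apply DefP.cdn
          | apply DefP.firstEx | apply DefP.exN | apply DefP.end_ | apply DefP.isZero
          | apply DefP.isSucc | apply DefP.alt | apply DefP.exr | apply DefP.exl | apply DefP.side
          | apply DefP.oddCard | apply DefP.cardEq | apply DefP.cardLt | apply DefP.cardLe
          | apply DefP.lst | apply DefP.fst | apply DefP.nxt | apply DefP.keyLe | apply DefP.keyLt
          | apply DefP.rtc | (apply DefP.app4; assumption) | (apply DefP.app3'; assumption)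
          | (apply DefP.app3; assumption) | (apply DefP.app2; assumption)
          | (apply DefP.comp; assumption) | exact Tm.id | exact Tm.unit | apply Tm.fst
          | apply Tm.snd | apply Tm.app | exact DefP.const _ | apply DefP.and | apply DefP.not
          | apply DefP.or | apply DefP.iff | apply DefP.adj | apply DefP.le | apply DefP.lt
          | apply DefP.eqFin | apply DefP.eq | apply DefP.rv | apply DefP.imp | apply DefP.allFin
          | apply DefP.exFin | apply DefP.all | apply DefP.ex | assumption
          | (apply Tm.comp; assumption) | apply Tm.pair | apply Tm.lam))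
    · (repeat' (first
          | apply DefP.nOne | apply DefP.nZero | apply DefP.nSucc | apply DefP.nAdd
          | apply DefP.nLt | apply DefP.nLe | apply DefP.nEq | apply DefP.hlf | apply DefP.p1le
          | apply DefP.p1 | apply DefP.p0 | apply DefP.aug | apply DefP.pth | apply DefP.nx
          | apply DefP.cnd | apply DefP.hmin | apply DefP.hit | apply DefP.cdn
          | apply DefP.firstEx | apply DefP.exN | apply DefP.end_ | apply DefP.isZero
          | apply DefP.isSucc | apply DefP.alt | apply DefP.exr | apply DefP.exl | apply DefP.side
          | apply DefP.oddCard | apply DefP.cardEq | apply DefP.cardLt | apply DefP.cardLe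
          | apply DefP.lst | apply DefP.fst | apply DefP.nxt | apply DefP.keyLe | apply DefP.keyLt
          | apply DefP.rtc | (apply DefP.app4; assumption) | (apply DefP.app3'; assumption)
          | (apply DefP.app3; assumption) | (apply DefP.app2; assumption)
          | (apply DefP.comp; assumption) | exact Tm.id | exact Tm.unit | apply Tm.fst
          | apply Tm.snd | apply Tm.app | exact DefP.const _ | apply DefP.and | apply DefP.not
          | apply DefP.or | apply DefP.iff | apply DefP.adj | apply DefP.le | apply DefP.lt
          | apply DefP.eqFin | apply DefP.eq | apply DefP.rv | apply DefP.imp | apply DefP.allFin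
          | apply DefP.exFin | apply DefP.all | apply DefP.ex | assumption
          | (apply Tm.comp; assumption) | apply Tm.pair | apply Tm.lam))
    · (repeat' (first
          | apply DefP.nOne | apply DefP.nZero | apply DefP.nSucc | apply DefP.nAdd
          | apply DefP.nLt | apply DefP.nLe | apply DefP.nEq | apply DefP.hlf | apply DefP.p1le
          | apply DefP.p1 | apply DefP.p0 | apply DefP.aug | apply DefP.pth | apply DefP.nx
          | apply DefP.cnd | apply DefP.hmin | apply DefP.hit | apply DefP.cdn
          | apply DefP.firstEx | apply DefP.exN | apply DefP.end_ | apply DefP.isZero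
          | apply DefP.isSucc | apply DefP.alt | apply DefP.exr | apply DefP.exl | apply DefP.side
          | apply DefP.oddCard | apply DefP.cardEq | apply DefP.cardLt | apply DefP.cardLe
          | apply DefP.lst | apply DefP.fst | apply DefP.nxt | apply DefP.keyLe | apply DefP.keyLt
          | apply DefP.rtc | (apply DefP.app4; assumption) | (apply DefP.app3'; assumption)
          | (apply DefP.app3; assumption) | (apply DefP.app2; assumption)
          | (apply DefP.comp; assumption) | exact Tm.id | exact Tm.unit | apply Tm.fst
          | apply Tm.snd | apply Tm.app | exact DefP.const _ | apply DefP.and | apply DefP.not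
          | apply DefP.or | apply DefP.iff | apply DefP.adj | apply DefP.le | apply DefP.lt
          | apply DefP.eqFin | apply DefP.eq | apply DefP.rv | apply DefP.imp | apply DefP.allFin
          | apply DefP.exFin | apply DefP.all | apply DefP.ex | assumption
          | (apply Tm.comp; assumption) | apply Tm.pair | apply Tm.lam))
    · (repeat' (first
          | apply DefP.nOne | apply DefP.nZero | apply DefP.nSucc | apply DefP.nAdd
          | apply DefP.nLt | apply DefP.nLe | apply DefP.nEq | apply DefP.hlf | apply DefP.p1le
          | apply DefP.p1 | apply DefP.p0 | apply DefP.aug | apply DefP.pth | apply DefP.nx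
          | apply DefP.cnd | apply DefP.hmin | apply DefP.hit | apply DefP.cdn
          | apply DefP.firstEx | apply DefP.exN | apply DefP.end_ | apply DefP.isZero
          | apply DefP.isSucc | apply DefP.alt | apply DefP.exr | apply DefP.exl | apply DefP.side
          | apply DefP.oddCard | apply DefP.cardEq | apply DefP.cardLt | apply DefP.cardLe
          | apply DefP.lst | apply DefP.fst | apply DefP.nxt | apply DefP.keyLe | apply DefP.keyLt
          | apply DefP.rtc | (apply DefP.app4; assumption) | (apply DefP.app3'; assumption)
          | (apply DefP.app3; assumption) | (apply DefP.app2; assumption)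
          | (apply DefP.comp; assumption) | exact Tm.id | exact Tm.unit | apply Tm.fst
          | apply Tm.snd | apply Tm.app | exact DefP.const _ | apply DefP.and | apply DefP.not
          | apply DefP.or | apply DefP.iff | apply DefP.adj | apply DefP.le | apply DefP.lt
          | apply DefP.eqFin | apply DefP.eq | apply DefP.rv | apply DefP.imp | apply DefP.allFin
          | apply DefP.exFin | apply DefP.all | apply DefP.ex | assumption
          | (apply Tm.comp; assumption) | apply Tm.pair | apply Tm.lam))
    · (repeat' (first
          | apply DefP.nOne | apply DefP.nZero | apply DefP.nSucc | apply DefP.nAdd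
          | apply DefP.nLt | apply DefP.nLe | apply DefP.nEq | apply DefP.hlf | apply DefP.p1le
          | apply DefP.p1 | apply DefP.p0 | apply DefP.aug | apply DefP.pth | apply DefP.nx
          | apply DefP.cnd | apply DefP.hmin | apply DefP.hit | apply DefP.cdn
          | apply DefP.firstEx | apply DefP.exN | apply DefP.end_ | apply DefP.isZero
          | apply DefP.isSucc | apply DefP.alt | apply DefP.exr | apply DefP.exl | apply DefP.side
          | apply DefP.oddCard | apply DefP.cardEq | apply DefP.cardLt | apply DefP.cardLe
          | apply DefP.lst | apply DefP.fst | apply DefP.nxt | apply DefP.keyLe | apply DefP.keyLt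
          | apply DefP.rtc | (apply DefP.app4; assumption) | (apply DefP.app3'; assumption)
          | (apply DefP.app3; assumption) | (apply DefP.app2; assumption)
          | (apply DefP.comp; assumption) | exact Tm.id | exact Tm.unit | apply Tm.fst
          | apply Tm.snd | apply Tm.app | exact DefP.const _ | apply DefP.and | apply DefP.not
          | apply DefP.or | apply DefP.iff | apply DefP.adj | apply DefP.le | apply DefP.lt
          | apply DefP.eqFin | apply DefP.eq | apply DefP.rv | apply DefP.imp | apply DefP.allFin
          | apply DefP.exFin | apply DefP.all | apply DefP.ex | assumption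
          | (apply Tm.comp; assumption) | apply Tm.pair | apply Tm.lam))
    · exact DefZ.comp (E := fun n => (E n × (T n × T n)) × (T n × T n)) hB
        (f := fun n y => (y.1.1, y.1.2)) (by (repeat' (first
            | apply DefP.nOne | apply DefP.nZero | apply DefP.nSucc | apply DefP.nAdd
            | apply DefP.nLt | apply DefP.nLe | apply DefP.nEq | apply DefP.hlf | apply DefP.p1le
            | apply DefP.p1 | apply DefP.p0 | apply DefP.aug | apply DefP.pth | apply DefP.nx
            | apply DefP.cnd | apply DefP.hmin | apply DefP.hit | apply DefP.cdn
            | apply DefP.firstEx | apply DefP.exN | apply DefP.end_ | apply DefP.isZero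
            | apply DefP.isSucc | apply DefP.alt | apply DefP.exr | apply DefP.exl
            | apply DefP.side | apply DefP.oddCard | apply DefP.cardEq | apply DefP.cardLt
            | apply DefP.cardLe | apply DefP.lst | apply DefP.fst | apply DefP.nxt
            | apply DefP.keyLe | apply DefP.keyLt | apply DefP.rtc | (apply DefP.app4; assumption)
            | (apply DefP.app3'; assumption) | (apply DefP.app3; assumption)
            | (apply DefP.app2; assumption) | (apply DefP.comp; assumption) | exact Tm.id
            | exact Tm.unit | apply Tm.fst | apply Tm.snd | apply Tm.app | exact DefP.const _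
            | apply DefP.and | apply DefP.not | apply DefP.or | apply DefP.iff | apply DefP.adj
            | apply DefP.le | apply DefP.lt | apply DefP.eqFin | apply DefP.eq | apply DefP.rv
            | apply DefP.imp | apply DefP.allFin | apply DefP.exFin | apply DefP.all
            | apply DefP.ex | assumption | (apply Tm.comp; assumption) | apply Tm.pair
            | apply Tm.lam)))
  · refine DefZ.sum hp1 (DefZ.ite h2 ?_ (DefZ.zero hpS))
    exact DefZ.comp (E := fun n => (E n × (T n × T n)) × (S n × S n))
      (DefZ.prt hp hDu hOk hB) (f := fun n y => ((y.1.1, y.2), y.1.2)) (by (repeat' (first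
          | apply DefP.nOne | apply DefP.nZero | apply DefP.nSucc | apply DefP.nAdd
          | apply DefP.nLt | apply DefP.nLe | apply DefP.nEq | apply DefP.hlf | apply DefP.p1le
          | apply DefP.p1 | apply DefP.p0 | apply DefP.aug | apply DefP.pth | apply DefP.nx
          | apply DefP.cnd | apply DefP.hmin | apply DefP.hit | apply DefP.cdn
          | apply DefP.firstEx | apply DefP.exN | apply DefP.end_ | apply DefP.isZero
          | apply DefP.isSucc | apply DefP.alt | apply DefP.exr | apply DefP.exl | apply DefP.side
          | apply DefP.oddCard | apply DefP.cardEq | apply DefP.cardLt | apply DefP.cardLe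
          | apply DefP.lst | apply DefP.fst | apply DefP.nxt | apply DefP.keyLe | apply DefP.keyLt
          | apply DefP.rtc | (apply DefP.app4; assumption) | (apply DefP.app3'; assumption)
          | (apply DefP.app3; assumption) | (apply DefP.app2; assumption)
          | (apply DefP.comp; assumption) | exact Tm.id | exact Tm.unit | apply Tm.fst
          | apply Tm.snd | apply Tm.app | exact DefP.const _ | apply DefP.and | apply DefP.not
          | apply DefP.or | apply DefP.iff | apply DefP.adj | apply DefP.le | apply DefP.lt
          | apply DefP.eqFin | apply DefP.eq | apply DefP.rv | apply DefP.imp | apply DefP.allFin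
          | apply DefP.exFin | apply DefP.all | apply DefP.ex | assumption
          | (apply Tm.comp; assumption) | apply Tm.pair | apply Tm.lam)))

end def_

section stage
variable {E T S : ℕ → Type} [Env E] [Env T] [Env S] [∀ n, Fintype (T n)] [∀ n, Fintype (S n)]
variable {p : ∀ n : ℕ, E n → S n}
  {Du : ∀ n : ℕ, SimpleGraph (Fin n) → E n → T n → Prop}
  {Ok : ∀ n : ℕ, SimpleGraph (Fin n) → E n → T n → T n → Prop}
  {w : ∀ n : ℕ, SimpleGraph (Fin n) → E n → T n → T n → ℕ}
  {B : ∀ n : ℕ, SimpleGraph (Fin n) → E n → T n → T n → ℤ}
  {R : ∀ n : ℕ, SimpleGraph (Fin n) → Ctx n → E n → (T n × T n) × S n → Prop}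

theorem DefZ.vlF (hp : Tm p)
    (hR : DefP (E := fun n => E n × ((T n × T n) × S n)) (fun n G X y => R n G X y.1 y.2)) :
    DefZ (E := fun n => E n × (T n × T n)) (fun n y => p n y.1)
      (fun n G X y => PMNC.vlF (R n G X y.1) y.2.1 y.2.2) := DefZ.vlm hp hR

theorem DefP.stgFIter (hp : Tm p) (c d : ℕ)
    (hDu : DefP (E := fun n => E n × T n) (fun n G X y => Du n G y.1 y.2))
    (hOk : DefP (E := fun n => E n × (T n × T n)) (fun n G X y => Ok n G y.1 y.2.1 y.2.2))
    (hw : DefZ (E := fun n => (E n × S n) × (T n × T n)) (fun n y => p n y.1.1)
      (fun n G X y => ((nv y.1.2 : ℕ) : ℤ) ^ w n G y.1.1 y.2.1 y.2.2))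
    (hB : DefZ (E := fun n => E n × (T n × T n)) (fun n y => p n y.1)
      (fun n G X y => B n G y.1 y.2.1 y.2.2)) :
    DefP (E := fun n => E n × ((T n × T n) × S n)) (fun n G X y =>
      ((stgF (p n y.1) (Du n G y.1) (Ok n G y.1) (w n G y.1))^[(c * Nat.size n) ^ (d + 1)]
        (rlF (p n y.1) (B n G y.1))) y.2) := by
  refine DefP.iterPow' (E := E) (S := fun n => (T n × T n) × S n) c d
    (I := fun n G X x => rlF (p n x) (B n G x))
    (Φ := fun n G x => stgF (p n x) (Du n G x) (Ok n G x) (w n G x)) ?_ ?_
  · unfold rlF
    unfold DefZ at hB
    exact DefP.comp (F := fun n => (E n × (T n × T n)) × S n)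
      (f := fun n (y : E n × ((T n × T n) × S n)) => ((y.1, y.2.1), y.2.2)) hB (by (repeat' (first
          | apply DefP.nOne | apply DefP.nZero | apply DefP.nSucc | apply DefP.nAdd
          | apply DefP.nLt | apply DefP.nLe | apply DefP.nEq | apply DefP.hlf | apply DefP.p1le
          | apply DefP.p1 | apply DefP.p0 | apply DefP.aug | apply DefP.pth | apply DefP.nx
          | apply DefP.cnd | apply DefP.hmin | apply DefP.hit | apply DefP.cdn
          | apply DefP.firstEx | apply DefP.exN | apply DefP.end_ | apply DefP.isZero
          | apply DefP.isSucc | apply DefP.alt | apply DefP.exr | apply DefP.exl | apply DefP.side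
          | apply DefP.oddCard | apply DefP.cardEq | apply DefP.cardLt | apply DefP.cardLe
          | apply DefP.lst | apply DefP.fst | apply DefP.nxt | apply DefP.keyLe | apply DefP.keyLt
          | apply DefP.rtc | (apply DefP.app4; assumption) | (apply DefP.app3'; assumption)
          | (apply DefP.app3; assumption) | (apply DefP.app2; assumption)
          | (apply DefP.comp; assumption) | exact Tm.id | exact Tm.unit | apply Tm.fst
          | apply Tm.snd | apply Tm.app | exact DefP.const _ | apply DefP.and | apply DefP.not
          | apply DefP.or | apply DefP.iff | apply DefP.adj | apply DefP.le | apply DefP.lt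
          | apply DefP.eqFin | apply DefP.eq | apply DefP.rv | apply DefP.imp | apply DefP.allFin
          | apply DefP.exFin | apply DefP.all | apply DefP.ex | assumption
          | (apply Tm.comp; assumption) | apply Tm.pair | apply Tm.lam)))
  · have h1 := DefZ.nxF (E := E) (T := T) (S := S) (p := p) (Du := fun n G X => Du n G)
      (Ok := fun n G X => Ok n G) (w := fun n G X => w n G)
      (B := fun n G X x => PMNC.vlF (fun s => PMNC.rv (S := fun n => (T n × T n) × S n) X 0 s))
      hp hDu hOk hw (DefZ.vlF (R := fun n G X x s =>
        PMNC.rv (S := fun n => (T n × T n) × S n) X 0 s) hp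
        (DefP.rv (S := fun n => (T n × T n) × S n) 0 (Tm.snd Tm.id)))
    unfold DefZ at h1
    exact DefP.comp (F := fun n => (E n × (T n × T n)) × S n)
      (f := fun n (y : E n × ((T n × T n) × S n)) => ((y.1, y.2.1), y.2.2)) h1 (by (repeat' (first
          | apply DefP.nOne | apply DefP.nZero | apply DefP.nSucc | apply DefP.nAdd
          | apply DefP.nLt | apply DefP.nLe | apply DefP.nEq | apply DefP.hlf | apply DefP.p1le
          | apply DefP.p1 | apply DefP.p0 | apply DefP.aug | apply DefP.pth | apply DefP.nx
          | apply DefP.cnd | apply DefP.hmin | apply DefP.hit | apply DefP.cdn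
          | apply DefP.firstEx | apply DefP.exN | apply DefP.end_ | apply DefP.isZero
          | apply DefP.isSucc | apply DefP.alt | apply DefP.exr | apply DefP.exl | apply DefP.side
          | apply DefP.oddCard | apply DefP.cardEq | apply DefP.cardLt | apply DefP.cardLe
          | apply DefP.lst | apply DefP.fst | apply DefP.nxt | apply DefP.keyLe | apply DefP.keyLt
          | apply DefP.rtc | (apply DefP.app4; assumption) | (apply DefP.app3'; assumption)
          | (apply DefP.app3; assumption) | (apply DefP.app2; assumption)
          | (apply DefP.comp; assumption) | exact Tm.id | exact Tm.unit | apply Tm.fst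
          | apply Tm.snd | apply Tm.app | exact DefP.const _ | apply DefP.and | apply DefP.not
          | apply DefP.or | apply DefP.iff | apply DefP.adj | apply DefP.le | apply DefP.lt
          | apply DefP.eqFin | apply DefP.eq | apply DefP.rv | apply DefP.imp | apply DefP.allFin
          | apply DefP.exFin | apply DefP.all | apply DefP.ex | assumption
          | (apply Tm.comp; assumption) | apply Tm.pair | apply Tm.lam)))

theorem DefP.finF (hp : Tm p)
    (hDu : DefP (E := fun n => E n × T n) (fun n G X y => Du n G y.1 y.2))
    (hw : DefZ (E := fun n => (E n × S n) × (T n × T n)) (fun n y => p n y.1.1)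
      (fun n G X y => ((nv y.1.2 : ℕ) : ℤ) ^ w n G y.1.1 y.2.1 y.2.2))
    (hR : DefP (E := fun n => E n × ((T n × T n) × S n)) (fun n G X y => R n G X y.1 y.2)) :
    DefP (fun n G X x => PMNC.finF (p n x) (Du n G x) (w n G x) (R n G X x)) := by
  unfold PMNC.finF PMNC.nd
  have hB := DefZ.vlF hp hR
  have hp1 : Tm (fun n (y : E n × S n) => p n y.1) := hp.comp (Tm.fst Tm.id)
  refine DefP.and (DefP.ex (DefZ.ndvd hp1 (DefZ.det (T := T) (M := fun n G X (y : E n × S n) r c =>
    PMNC.wx (w n G y.1) (PMNC.vlF (R n G X y.1)) y.2 r c) hp1 ?_))) (DefP.all (DefP.not ?_))
  · exact DefZ.wx (w := fun n G X => w n G) (B := fun n G X x => PMNC.vlF (R n G X x)) hp hw hB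
  · exact DefP.act (Du := fun n G X => Du n G) (B := fun n G X x => PMNC.vlF (R n G X x)) hp hDu
      hB

end stage

end Pool.Agent.PMNC
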