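import Pool.Agent.Lib.MP_0087d5_lc.FN.Pot
import Pool.Agent.Lib.MP_0087d5_lc.ZMain
import Pool.Agent.Lib.MP_0087d5_lc.FRC.Start

set_option autoImplicit false
set_option linter.all false

/-!
# The initial matrix
-/

namespace Pool.Agent.PMNC

open Relation Matrix FNC Module

section init
variable {S : ℕ → Type} [Env S] [∀ n, Fintype (S n)] {n : ℕ}

/-- the adjacency of the vertices -/
def okF (G : SimpleGraph (Fin n)) (r c : Fin n × Fin n) : Prop := isO r ∧ isO c ∧ G.Adj r.2 c.2

open Classical in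
/-- the weights modulo `m` -/
noncomputable def wT (m : S n) (r c : Fin n × Fin n) : ℕ :=
  if isO r ∧ isO c then wE (nv m) r.2 c.2 else 0

/-- the entries of the border -/
noncomputable def brd (t : S n) (v l : Fin n) : ℤ :=
  ((nv t : ℕ) : ℤ) ^ nv (S := fun n => Fin n) v *
    ((nv (S := fun n => Fin n) v : ℕ) : ℤ) ^ nv (S := fun n => Fin n) l

/-- the initial matrix: skew-symmetric adjacency matrix with `k` border rows and columns -/
noncomputable def B0s (G : SimpleGraph (Fin n)) (k t : S n) (r c : Fin n × Fin n) : ℤ :=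
  cnd (isO r ∧ isO c) (cnd (G.Adj r.2 c.2) (cnd (r.2 < c.2) 1 (-1)) 0)
  (cnd (isO r ∧ isA (nv k) c) (brd t r.2 c.2)
  (cnd (isA (nv k) r ∧ isO c) (- brd t c.2 r.2)
  (cnd (r = c ∧ ¬ isA (nv k) r) 1 0)))

theorem wT_ok {p m : S n} (hm : 1 ≤ nv m) (hp : 2 * n ^ 2 * nv m < nv p) :
    Wok (T := fun n => Fin n × Fin n) p du (wT m) (nv m) := by
  refine ⟨?_, ?_, ?_, ?_⟩
  · rintro r c (h | h)
    · unfold wT
      exact if_neg fun h2 => h h2.1
    · unfold wT
      exact if_neg fun h2 => h h2.2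
  · intro r c
    unfold wT
    by_cases h : isO r ∧ isO c
    · rw [if_pos h, if_pos h.symm, wE_comm]
    · rw [if_neg h, if_neg fun h2 => h h2.symm]
  · intro r c
    unfold wT
    split_ifs
    · unfold wE
      split_ifs
      · exact Nat.mod_lt _ (by omega)
      · omega
    · omega
  · rw [Fintype.card_prod, Fintype.card_fin, ← pow_two]
    exact hp

section ent
variable {G : SimpleGraph (Fin n)} {k t : S n} {r c : Fin n × Fin n}

theorem B0s_oo (hr : isO r) (hc : isO c) :
    B0s G k t r c = cnd (G.Adj r.2 c.2) (cnd (r.2 < c.2) 1 (-1)) 0 := by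
  unfold B0s
  rw [cnd_pos ⟨hr, hc⟩]

theorem B0s_oa (hr : isO r) (hc : isA (nv k) c) : B0s G k t r c = brd t r.2 c.2 := by
  unfold B0s
  rw [cnd_neg (fun h => isA_not_isO hc h.2), cnd_pos ⟨hr, hc⟩]

theorem B0s_ao (hr : isA (nv k) r) (hc : isO c) : B0s G k t r c = - brd t c.2 r.2 := by
  unfold B0s
  rw [cnd_neg (fun h => isA_not_isO hr h.1), cnd_neg (fun h => isA_not_isO hr h.1),
    cnd_pos ⟨hr, hc⟩]

theorem B0s_ax (hr : isA (nv k) r) (hc : ¬ isO c) : B0s G k t r c = 0 := by
  unfold B0s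
  rw [cnd_neg (fun h => hc h.2), cnd_neg (fun h => isA_not_isO hr h.1), cnd_neg (fun h => hc h.2),
    cnd_neg (fun h => h.2 hr)]

theorem B0s_ox (hr : isO r) (hc : ¬ isO c) (hc2 : ¬ isA (nv k) c) : B0s G k t r c = 0 := by
  unfold B0s
  rw [cnd_neg (fun h => hc h.2), cnd_neg (fun h => hc2 h.2), cnd_neg (fun h => hc h.2), cnd_neg]
  rintro ⟨rfl, _⟩
  exact hc hr

theorem B0s_x (hr : ¬ isO r) (hr2 : ¬ isA (nv k) r) : B0s G k t r c = cnd (r = c) 1 0 := by
  unfold B0s
  rw [cnd_neg (fun h => hr h.1), cnd_neg (fun h => hr h.1), cnd_neg (fun h => hr2 h.1)]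
  by_cases h : r = c
  · rw [cnd_pos h, cnd_pos ⟨h, hr2⟩]
  · rw [cnd_neg h, cnd_neg (fun h2 => h h2.1)]

theorem B0s_x' (hc : ¬ isO c) (hc2 : ¬ isA (nv k) c) : B0s G k t r c = cnd (r = c) 1 0 := by
  by_cases hr : isO r
  · rw [B0s_ox hr hc hc2, cnd_neg]
    rintro rfl
    exact hc hr
  · by_cases hr2 : isA (nv k) r
    · rw [B0s_ax hr2 hc, cnd_neg]
      rintro rfl
      exact hc2 hr2
    · exact B0s_x hr hr2

theorem B0s_skew (h : r ≠ c) : B0s G k t r c = - B0s G k t c r := by
  by_cases hr : isO r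
  · by_cases hc : isO c
    · rw [B0s_oo hr hc, B0s_oo hc hr]
      by_cases ha : G.Adj r.2 c.2
      · rw [cnd_pos ha, cnd_pos ha.symm]
        rcases lt_trichotomy r.2 c.2 with h1 | h1 | h1
        · rw [cnd_pos h1, cnd_neg (not_lt.2 h1.le), neg_neg]
        · exact absurd h1 ha.ne
        · rw [cnd_neg (not_lt.2 h1.le), cnd_pos h1]
      · rw [cnd_neg ha, cnd_neg (fun h2 => ha h2.symm), neg_zero]
    · by_cases hc2 : isA (nv k) c
      · rw [B0s_oa hr hc2, B0s_ao hc2 hr, neg_neg]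
      · rw [B0s_ox hr hc hc2, B0s_x hc hc2, cnd_neg (Ne.symm h), neg_zero]
  · by_cases hr2 : isA (nv k) r
    · by_cases hc : isO c
      · rw [B0s_ao hr2 hc, B0s_oa hc hr2]
      · rw [B0s_ax hr2 hc]
        by_cases hc2 : isA (nv k) c
        · rw [B0s_ax hc2 hr, neg_zero]
        · rw [B0s_x hc hc2, cnd_neg (Ne.symm h), neg_zero]
    · rw [B0s_x hr hr2, B0s_x' hr hr2, cnd_neg h, cnd_neg (Ne.symm h), neg_zero]

theorem B0s_diag (h : isO r ∨ isA (nv k) r) : B0s G k t r r = 0 := by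
  rcases h with h | h
  · rw [B0s_oo h h, cnd_neg (G.loopless.irrefl _)]
  · rw [B0s_ax h (isA_not_isO h)]

end ent

section ent2
variable {p m k t : S n} [Fact (nv p).Prime] {G : SimpleGraph (Fin n)}

theorem wM_apply' (w : Fin n × Fin n → Fin n × Fin n → ℕ) (B : Fin n × Fin n → Fin n × Fin n → ℤ)
    (r c : Fin n × Fin n) : wM (T := fun n => Fin n × Fin n) p w B r c =
      algebraMap (Polynomial (ZMod (nv p))) (RatFunc (ZMod (nv p)))
        (Polynomial.C ((B r c : ℤ) : ZMod (nv p)) * Polynomial.X ^ w r c) := rfl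

open Classical in
theorem wM_x {r : Fin n × Fin n} (hr : ¬ isO r) (hr2 : ¬ isA (nv k) r) (c : Fin n × Fin n) :
    wM (T := fun n => Fin n × Fin n) p (wT m) (B0s G k t) r c =
      (1 : Matrix (Fin n × Fin n) (Fin n × Fin n) (RatFunc (ZMod (nv p)))) r c := by
  have e : wT m r c = 0 := by
    unfold wT
    exact if_neg fun h => hr h.1
  rw [wM_apply', B0s_x hr hr2, e, pow_zero, mul_one, Matrix.one_apply]
  by_cases h : r = c
  · rw [cnd_pos h, if_pos h, Int.cast_one, map_one, map_one]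
  · rw [cnd_neg h, if_neg h, Int.cast_zero, map_zero, map_zero]

open Classical in
theorem wM_x' {c : Fin n × Fin n} (hc : ¬ isO c) (hc2 : ¬ isA (nv k) c) (r : Fin n × Fin n) :
    wM (T := fun n => Fin n × Fin n) p (wT m) (B0s G k t) r c =
      (1 : Matrix (Fin n × Fin n) (Fin n × Fin n) (RatFunc (ZMod (nv p)))) r c := by
  have e : wT m r c = 0 := by
    unfold wT
    exact if_neg fun h => hc h.2
  rw [wM_apply', B0s_x' hc hc2, e, pow_zero, mul_one, Matrix.one_apply]
  by_cases h : r = c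
  · rw [cnd_pos h, if_pos h, Int.cast_one, map_one, map_one]
  · rw [cnd_neg h, if_neg h, Int.cast_zero, map_zero, map_zero]

open Classical in
theorem ina_x {r : Fin n × Fin n} (hr : ¬ isO r) (hr2 : ¬ isA (nv k) r) :
    InaM (T := Fin n × Fin n) (wM (T := fun n => Fin n × Fin n) p (wT m) (B0s G k t)) r :=
  fun j => ⟨wM_x hr hr2 j, wM_x' hr hr2 j⟩

end ent2

open Classical in
theorem B0s_inv {p : S n} [Fact (nv p).Prime] (G : SimpleGraph (Fin n)) (k t m : S n)
    (hm : 1 ≤ nv m) (hp : 2 * n ^ 2 * nv m < nv p)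
    (hd : (wM (T := fun n => Fin n × Fin n) p (wT m) (B0s G k t)).det ≠ 0) :
    Inv (T := Fin n × Fin n) du (okF G) (wM (T := fun n => Fin n × Fin n) p (wT m) (B0s G k t)) := by
  have hw := wT_ok (p := p) (m := m) hm hp
  refine ⟨hd, ?_, ?_, ?_, ?_⟩
  · intro r c h
    rw [wM_apply', wM_apply', B0s_skew h, hw.symm r c, Int.cast_neg, map_neg, neg_mul, map_neg]
  · intro r h
    rw [wM_apply', B0s_diag, Int.cast_zero, map_zero, zero_mul, map_zero]
    by_contra hc
    push Not at hc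
    exact h (ina_x hc.1 hc.2)
  · intro r h
    rw [wM_apply', B0s_diag (Or.inl (not_not.1 h)), Int.cast_zero, map_zero, zero_mul, map_zero]
  · intro u v hu hv
    have hu' : isO u := not_not.1 hu
    have hv' : isO v := not_not.1 hv
    rw [wM_apply', B0s_oo hu' hv']
    constructor
    · intro h
      refine ⟨hu', hv', ?_⟩
      by_contra hc
      apply h
      rw [cnd_neg hc, Int.cast_zero, map_zero, zero_mul, map_zero]
    · intro h
      rw [cnd_pos h.2.2]
      have h1 : ((cnd (u.2 < v.2) 1 (-1) : ℤ) : ZMod (nv p)) ≠ 0 := by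
        by_cases h2 : u.2 < v.2
        · rw [cnd_pos h2, Int.cast_one]
          exact one_ne_zero
        · rw [cnd_neg h2, Int.cast_neg, Int.cast_one]
          exact neg_ne_zero.2 one_ne_zero
      rw [Ne, map_eq_zero_iff _ (IsFractionRing.injective (Polynomial (ZMod (nv p)))
        (RatFunc (ZMod (nv p)))), mul_eq_zero, not_or]
      exact ⟨fun h2 => h1 (Polynomial.C_eq_zero.1 h2), pow_ne_zero _ Polynomial.X_ne_zero⟩

open Classical in
theorem B0s_act {p : S n} [Fact (nv p).Prime] (G : SimpleGraph (Fin n)) (k t m : S n)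
    (hm : 1 ≤ nv m) (hp : 2 * n ^ 2 * nv m < nv p) :
    {i | ActM (T := Fin n × Fin n) du
      (wM (T := fun n => Fin n × Fin n) p (wT m) (B0s G k t)) i}.ncard ≤ nv k := by
  have h1 : {i | ActM (T := Fin n × Fin n) du
      (wM (T := fun n => Fin n × Fin n) p (wT m) (B0s G k t)) i} ⊆ {i | isA (nv k) i} := by
    intro i hi
    by_contra hc
    exact hi.2 (ina_x hi.1 hc)
  refine (Set.ncard_le_ncard h1 (Set.toFinite _)).trans ?_
  have h2 : {i : Fin n × Fin n | isA (nv k) i}.ncard ≤ (Finset.range (nv k) : Set ℕ).ncard := by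
    refine Set.ncard_le_ncard_of_injOn (fun i => i.2.val) ?_ ?_ (Finset.finite_toSet _)
    · intro i hi
      exact Finset.mem_coe.2 (Finset.mem_range.2 hi.2)
    · intro i hi j hj h
      exact Prod.ext (Fin.ext (hi.1.trans hj.1.symm)) (Fin.ext h)
  rwa [Set.ncard_coe_finset, Finset.card_range] at h2

open Classical in
/-- the matrix of the vertices -/
noncomputable def aK (p : S n) [Fact (nv p).Prime] (G : SimpleGraph (Fin n)) (m : S n) (u v : Fin n) :
    RatFunc (ZMod (nv p)) :=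
  algebraMap (Polynomial (ZMod (nv p))) (RatFunc (ZMod (nv p)))
    (Polynomial.C (if G.Adj u v then (if u < v then 1 else -1) else 0) *
      Polynomial.X ^ wE (nv m) u v)

open Classical in
theorem aK_transpose (p : S n) [Fact (nv p).Prime] (G : SimpleGraph (Fin n)) (m : S n) :
    (Matrix.of (aK p G m))ᵀ = - Matrix.of (aK p G m) := by
  ext u v
  rw [Matrix.transpose_apply, Matrix.neg_apply, Matrix.of_apply, Matrix.of_apply]
  unfold aK
  rw [← map_neg, wE_comm (nv m) v u, ← neg_mul, ← Polynomial.C_neg]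
  have e : (if G.Adj v u then (if v < u then (1 : ZMod (nv p)) else -1) else 0) =
      - (if G.Adj u v then (if u < v then (1 : ZMod (nv p)) else -1) else 0) := by
    by_cases ha : G.Adj u v
    · rw [if_pos ha, if_pos ha.symm]
      rcases lt_trichotomy u v with h1 | h1 | h1
      · rw [if_pos h1, if_neg (not_lt.2 h1.le)]
      · exact absurd h1 ha.ne
      · rw [if_neg (not_lt.2 h1.le), if_pos h1, neg_neg]
    · rw [if_neg ha, if_neg (fun h2 => ha h2.symm), neg_zero]
  rw [e]

theorem sum_lt_fin {M : Type*} [AddCommMonoid M] {n k : ℕ} (hk : k ≤ n) (f : Fin n → M) :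
    ∑ l : Fin n, (if l.val < k then f l else 0) =
      ∑ l : Fin k, f ⟨l.val, lt_of_lt_of_le l.2 hk⟩ := by
  symm
  refine Finset.sum_of_injOn (fun l : Fin k => (⟨l.val, lt_of_lt_of_le l.2 hk⟩ : Fin n))
    ?_ ?_ ?_ ?_
  · intro a _ b _ hab
    have h := Fin.mk.inj hab
    exact Fin.ext h
  · intro a _
    exact Finset.mem_coe.2 (Finset.mem_univ _)
  · intro l _ hl
    rw [if_neg]
    intro h
    exact hl ⟨⟨l.val, h⟩, Finset.mem_coe.2 (Finset.mem_univ _), rfl⟩
  · intro l _
    beta_reduce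
    rw [if_pos l.2]

section mul
variable {p m k t : S n} [Fact (nv p).Prime] {G : SimpleGraph (Fin n)}

theorem wM_oo {r c : Fin n × Fin n} (hr : isO r) (hc : isO c) :
    wM (T := fun n => Fin n × Fin n) p (wT m) (B0s G k t) r c = aK p G m r.2 c.2 := by
  classical
  rw [wM_apply', B0s_oo hr hc]
  unfold aK wT
  rw [if_pos ⟨hr, hc⟩]
  congr 3
  by_cases ha : G.Adj r.2 c.2
  · rw [cnd_pos ha, if_pos ha]
    by_cases h : r.2 < c.2
    · rw [cnd_pos h, if_pos h, Int.cast_one]
    · rw [cnd_neg h, if_neg h, Int.cast_neg, Int.cast_one]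
  · rw [cnd_neg ha, if_neg ha, Int.cast_zero]

theorem wM_out {r c : Fin n × Fin n} (h : ¬ (isO r ∧ isO c)) :
    wM (T := fun n => Fin n × Fin n) p (wT m) (B0s G k t) r c =
      algebraMap (Polynomial (ZMod (nv p))) (RatFunc (ZMod (nv p)))
        (Polynomial.C ((B0s G k t r c : ℤ) : ZMod (nv p))) := by
  have e : wT m r c = 0 := by
    unfold wT
    exact if_neg h
  rw [wM_apply', e, pow_zero, mul_one]

/-- the sum over an original row -/
theorem wM_mul_o (hn : 2 ≤ n) (z : Fin n × Fin n → RatFunc (ZMod (nv p))) (v : Fin n) :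
    (wM (T := fun n => Fin n × Fin n) p (wT m) (B0s G k t) *ᵥ z) (⟨0, by omega⟩, v) =
      (Matrix.of (aK p G m) *ᵥ fun u => z (⟨0, by omega⟩, u)) v +
        ∑ l : Fin n, algebraMap (Polynomial (ZMod (nv p))) (RatFunc (ZMod (nv p)))
          (Polynomial.C ((brd t v l : ℤ) : ZMod (nv p))) *
          (if l.val < nv k then z (⟨1, by omega⟩, l) else 0) := by
  classical
  have hne : (⟨0, by omega⟩ : Fin n) ≠ ⟨1, by omega⟩ := by
    rw [Ne, Fin.mk.injEq]
    omega
  unfold Matrix.mulVec dotProduct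
  rw [Fintype.sum_prod_type, Fintype.sum_eq_add _ _ hne]
  · congr 1
    · refine Finset.sum_congr rfl fun l _ => ?_
      beta_reduce
      rw [wM_oo (r := (⟨0, by omega⟩, v)) (c := (⟨0, by omega⟩, l)) rfl rfl, Matrix.of_apply]
    · refine Finset.sum_congr rfl fun l _ => ?_
      beta_reduce
      have hno : ¬ isO ((⟨1, by omega⟩, l) : Fin n × Fin n) := by unfold isO; simp
      rw [wM_out (fun h => hno h.2)]
      by_cases hl : l.val < nv k
      · rw [if_pos hl, B0s_oa (r := (⟨0, by omega⟩, v)) (c := (⟨1, by omega⟩, l)) rfl ⟨rfl, hl⟩]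
      · rw [if_neg hl, B0s_ox (r := (⟨0, by omega⟩, v)) (c := (⟨1, by omega⟩, l)) rfl hno
          (fun h => hl h.2), Int.cast_zero, map_zero, map_zero, zero_mul, mul_zero]
  · intro a ha
    refine Finset.sum_eq_zero fun l _ => ?_
    beta_reduce
    have hno : ¬ isO ((a, l) : Fin n × Fin n) := fun h => ha.1 (Fin.ext h)
    rw [wM_out (fun h => hno h.2), B0s_ox (r := (⟨0, by omega⟩, v)) (c := (a, l)) rfl hno
      (fun h => ha.2 (Fin.ext h.1)), Int.cast_zero, map_zero, map_zero, zero_mul]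

/-- the sum over a row of the border -/
theorem wM_mul_a (hn : 2 ≤ n) (z : Fin n × Fin n → RatFunc (ZMod (nv p))) (l : Fin n)
    (hl : l.val < nv k) :
    (wM (T := fun n => Fin n × Fin n) p (wT m) (B0s G k t) *ᵥ z) (⟨1, by omega⟩, l) =
      - ∑ v : Fin n, algebraMap (Polynomial (ZMod (nv p))) (RatFunc (ZMod (nv p)))
          (Polynomial.C ((brd t v l : ℤ) : ZMod (nv p))) * z (⟨0, by omega⟩, v) := by
  classical
  have hno : ¬ isO ((⟨1, by omega⟩, l) : Fin n × Fin n) := by unfold isO; simp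
  unfold Matrix.mulVec dotProduct
  rw [Fintype.sum_prod_type, Fintype.sum_eq_single (⟨0, by omega⟩ : Fin n), ← Finset.sum_neg_distrib]
  · refine Finset.sum_congr rfl fun v _ => ?_
    beta_reduce
    rw [wM_out (fun h => hno h.1), B0s_ao (r := (⟨1, by omega⟩, l)) (c := (⟨0, by omega⟩, v))
      ⟨rfl, hl⟩ rfl, Int.cast_neg, map_neg, map_neg, neg_mul]
  · intro a ha
    refine Finset.sum_eq_zero fun v _ => ?_
    beta_reduce
    rw [wM_out (fun h => hno h.1), B0s_ax (r := (⟨1, by omega⟩, l)) (c := (a, v)) ⟨rfl, hl⟩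
      (fun h => ha (Fin.ext h)), Int.cast_zero, map_zero, map_zero, zero_mul]

theorem wM_mul_x {z : Fin n × Fin n → RatFunc (ZMod (nv p))} {r : Fin n × Fin n}
    (hr : ¬ isO r) (hr2 : ¬ isA (nv k) r) :
    (wM (T := fun n => Fin n × Fin n) p (wT m) (B0s G k t) *ᵥ z) r = z r := by
  classical
  unfold Matrix.mulVec dotProduct
  rw [Fintype.sum_eq_single r]
  · beta_reduce
    rw [wM_x hr hr2, Matrix.one_apply_eq, one_mul]
  · intro c hc
    beta_reduce
    rw [wM_x hr hr2, Matrix.one_apply_ne (Ne.symm hc), zero_mul]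

end mul

open Classical in
/-- good initial parameters: `k` is the nullity of `aK`, and `t` is from `exists_start` -/
theorem exists_init {p : S n} [Fact (nv p).Prime] (hn : 2 ≤ n) (hS : 2 ≤ dim S) (hp : n ^ 3 < nv p)
    (G : SimpleGraph (Fin n)) (m : S n) (X : Finset (Fin n))
    (hX : ∀ z : Fin n → RatFunc (ZMod (nv p)), (∀ v ∈ X, z v = 0) →
      (∀ u, u ∉ X → ∑ v, aK p G m u v * z v = 0) → z = 0) :
    ∃ k t : S n, nv k ≤ X.card ∧
      (wM (T := fun n => Fin n × Fin n) p (wT m) (B0s G k t)).det ≠ 0 := by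
  set A : Matrix (Fin n) (Fin n) (RatFunc (ZMod (nv p))) := Matrix.of (aK p G m) with hA
  have hAT : Aᵀ = -A := aK_transpose p G m
  -- the nullity
  have hk1 : finrank (RatFunc (ZMod (nv p))) (LinearMap.ker A.mulVecLin) ≤ X.card :=
    FRC.Uni.nullity_le A X hX
  have hXn : X.card ≤ n := by
    have := Finset.card_le_univ X
    rwa [Fintype.card_fin] at this
  have hnn : n < n ^ dim S := lt_self_pow₀ (by omega) (by omega)
  obtain ⟨k, hk⟩ : ∃ k : S n, nv k = finrank (RatFunc (ZMod (nv p))) (LinearMap.ker A.mulVecLin) :=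
    nv_surj (by omega)
  have hn3 : n * n + 1 < n ^ 3 := by
    have h1 : n ^ 3 = n * (n * n) := by ring
    rw [h1]
    nlinarith
  have hnp : n ≤ n * n := Nat.le_mul_self n
  have hkn : nv k ≤ n := by omega
  -- the constants
  let ι : ZMod (nv p) → RatFunc (ZMod (nv p)) := fun a =>
    algebraMap (Polynomial (ZMod (nv p))) (RatFunc (ZMod (nv p))) (Polynomial.C a)
  have hι : Function.Injective ι := fun a b h =>
    Polynomial.C_injective (IsFractionRing.injective (Polynomial (ZMod (nv p)))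
      (RatFunc (ZMod (nv p))) h)
  have hι0 : ι 0 = 0 := by
    show algebraMap (Polynomial (ZMod (nv p))) (RatFunc (ZMod (nv p))) (Polynomial.C 0) = 0
    rw [map_zero, map_zero]
  let ν : Fin n → RatFunc (ZMod (nv p)) := fun v => ι ((v.val : ℕ) : ZMod (nv p))
  have hν : Function.Injective ν := by
    intro u v h
    have h1 : ((u.val : ℕ) : ZMod (nv p)) = ((v.val : ℕ) : ZMod (nv p)) := hι h
    rw [ZMod.natCast_eq_natCast_iff'] at h1
    have hu := u.2
    have hv := v.2
    rw [Nat.mod_eq_of_lt (by omega), Nat.mod_eq_of_lt (by omega)] at h1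
    exact Fin.ext h1
  let Sf : Finset (RatFunc (ZMod (nv p))) := (Finset.univ.erase (0 : ZMod (nv p))).image ι
  have hS0 : (0 : RatFunc (ZMod (nv p))) ∉ Sf := by
    intro h
    obtain ⟨a, ha, h1⟩ := Finset.mem_image.1 h
    rw [← hι0] at h1
    exact (Finset.mem_erase.1 ha).1 (hι h1)
  have hScard : Sf.card = nv p - 1 := by
    rw [Finset.card_image_of_injective _ hι, Finset.card_erase_of_mem (Finset.mem_univ _),
      Finset.card_univ, ZMod.card]
  obtain ⟨t', ht'S, ht'⟩ := FRC.Uni.exists_border_inj A hAT hk.symm ν hν Sf hS0 (by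
    rw [hScard]
    have h1 : nv k * n ≤ n * n := Nat.mul_le_mul_right n (by omega)
    omega)
  obtain ⟨a, ha, rfl⟩ := Finset.mem_image.1 ht'S
  obtain ⟨t, ht⟩ : ∃ t : S n, nv t = a.val := nv_down (b := p) (ZMod.val_lt a)
  have hta : ((nv t : ℕ) : ZMod (nv p)) = a := by rw [ht, ZMod.natCast_zmod_val]
  refine ⟨k, t, by omega, fun hdet => ?_⟩
  obtain ⟨z, hz0, hz⟩ := Matrix.exists_mulVec_eq_zero_iff.2 hdet
  apply hz0
  have hb : ∀ v l : Fin n, algebraMap (Polynomial (ZMod (nv p))) (RatFunc (ZMod (nv p)))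
      (Polynomial.C ((brd t v l : ℤ) : ZMod (nv p))) = ι a ^ v.val * ν v ^ l.val := by
    intro v l
    unfold brd
    rw [nv_fin, nv_fin]
    push_cast
    rw [hta]
    show _ = (algebraMap (Polynomial (ZMod (nv p))) (RatFunc (ZMod (nv p))) (Polynomial.C a)) ^ v.val *
      (algebraMap (Polynomial (ZMod (nv p))) (RatFunc (ZMod (nv p)))
        (Polynomial.C ((v.val : ℕ) : ZMod (nv p)))) ^ l.val
    rw [Polynomial.C_mul, map_mul, Polynomial.C_pow, Polynomial.C_pow, map_pow, map_pow]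
  obtain ⟨hy, hx⟩ := ht' (fun l : Fin (nv k) => - z (⟨1, by omega⟩, ⟨l.val, by have := l.2; omega⟩))
    (fun v => z (⟨0, by omega⟩, v)) (by
      intro v
      have h1 := congrFun hz (⟨0, by omega⟩, v)
      rw [wM_mul_o hn, Pi.zero_apply] at h1
      have h2 := eq_neg_of_add_eq_zero_left h1
      rw [hA, h2, ← Finset.sum_neg_distrib]
      have h3 : ∀ l : Fin n, -(algebraMap (Polynomial (ZMod (nv p))) (RatFunc (ZMod (nv p)))
          (Polynomial.C ((brd t v l : ℤ) : ZMod (nv p))) *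
          (if l.val < nv k then z (⟨1, by omega⟩, l) else 0)) =
          if l.val < nv k then ι a ^ v.val * ν v ^ l.val * (- z (⟨1, by omega⟩, l)) else 0 := by
        intro l
        rw [hb]
        by_cases hl : l.val < nv k
        · rw [if_pos hl, if_pos hl, mul_neg]
        · rw [if_neg hl, if_neg hl, mul_zero, neg_zero]
      rw [Finset.sum_congr rfl fun l _ => h3 l, sum_lt_fin hkn]) (by
      intro l
      have hl : l.val < n := lt_of_lt_of_le l.2 hkn
      have h1 := congrFun hz (⟨1, by omega⟩, ⟨l.val, hl⟩)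
      rw [wM_mul_a hn z ⟨l.val, hl⟩ l.2, Pi.zero_apply, neg_eq_zero] at h1
      rw [← h1]
      refine Finset.sum_congr rfl fun v _ => ?_
      rw [hb])
  funext r
  by_cases hr : isO r
  · have h2 := congrFun hx r.2
    have e : r = (⟨0, by omega⟩, r.2) := Prod.ext (Fin.ext hr) rfl
    rw [e]
    exact h2
  · by_cases hr2 : isA (nv k) r
    · have h2 := congrFun hy ⟨r.2.val, hr2.2⟩
      have e : r = (⟨1, by omega⟩, r.2) := Prod.ext (Fin.ext hr2.1) rfl
      rw [e]
      exact neg_eq_zero.1 h2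
    · have h2 := congrFun hz r
      rw [wM_mul_x hr hr2] at h2
      exact h2

end init

end Pool.Agent.PMNC
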