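import Pool.Agent.Lib.MP_0087d5_lc.FN.Init

set_option autoImplicit false
set_option linter.all false

/-!
# Isolation after the deletion of a set of vertices
-/

namespace Pool.Agent.FNC

open Relation PMNC FRC.Uni

/-- few perfect matchings (`exists_forc_of_card`) -/
theorem exists_forcW_card {n k : ℕ} {G : SimpleGraph (Fin n)}
    (h1 : ∃ M : G.Subgraph, M.IsPerfectMatching)
    (h2 : Nat.card {M : G.Subgraph // M.IsPerfectMatching} ≤ 2 ^ k) :
    ∃ (X : Finset (Fin n)) (f : Fin n → Fin n), X.card ≤ 2 * k ∧ ForcW G (wE 1) X f := by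
  obtain ⟨X, f, hF, hX⟩ := exists_forc_of_card G k h1 h2
  exact ⟨X, f, hX, hF.forcW _⟩

end Pool.Agent.FNC

namespace Pool.Agent.PMNC

open Relation Matrix FNC Polynomial FRC.Uni

section hx
variable {S : ℕ → Type} [Env S] [∀ n, Fintype (S n)] {n : ℕ}

theorem aK_inj (p : S n) [Fact (nv p).Prime] : Function.Injective
    (algebraMap (Polynomial (ZMod (nv p))) (RatFunc (ZMod (nv p)))) :=
  IsFractionRing.injective _ _

open Classical in
/-- the hypothesis of `finF_complete`, from `hX_of_forcW` -/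
theorem hX_all {p : S n} [Fact (nv p).Prime] (hn : 2 ≤ n) {G : SimpleGraph (Fin n)} {m : S n}
    {X : Finset (Fin n)} {f : Fin n → Fin n} (hF : ForcW G (wE (nv m)) X f)
    (B : Fin n × Fin n → Fin n × Fin n → ℤ)
    (h : Inv (T := Fin n × Fin n) du (okF G) (wM (T := fun n => Fin n × Fin n) p (wT m) B))
    (z : Fin n × Fin n → RatFunc (ZMod (nv p)))
    (hz : ∀ t, z t ≠ 0 → ¬ du t ∧ ¬ (isO t ∧ t.2 ∈ X))
    (hz2 : ∀ u, ¬ du u → ¬ (isO u ∧ u.2 ∈ X) →
      ∑ v, wM (T := fun n => Fin n × Fin n) p (wT m) B u v * z v = 0) : ∀ t, z t = 0 := by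
  set o : Fin n → Fin n × Fin n := fun v => (⟨0, by omega⟩, v) with ho
  have hoO : ∀ v, isO (o v) := fun v => rfl
  have hodu : ∀ v, ¬ du (o v) := fun v h => h (hoO v)
  have hof : ∀ t : Fin n × Fin n, isO t → t = o t.2 := by
    intro t ht
    exact Prod.ext (Fin.ext ht) rfl
  set b : Fin n → Fin n → ZMod (nv p) := fun u v => ((B (o u) (o v) : ℤ) : ZMod (nv p)) with hb
  have hM : ∀ u v, wM (T := fun n => Fin n × Fin n) p (wT m) B (o u) (o v) =
      algebraMap (Polynomial (ZMod (nv p))) (RatFunc (ZMod (nv p)))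
        (C (b u v) * Polynomial.X ^ wE (nv m) u v) := by
    intro u v
    have h1 : wT m (o u) (o v) = wE (nv m) u v := by
      unfold wT
      rw [if_pos ⟨hoO u, hoO v⟩]
    change algebraMap _ _ (C ((B (o u) (o v) : ℤ) : ZMod (nv p)) *
      Polynomial.X ^ wT m (o u) (o v)) = _
    rw [h1]
  have hM0 : ∀ u v, wM (T := fun n => Fin n × Fin n) p (wT m) B (o u) (o v) = 0 ↔ b u v = 0 := by
    intro u v
    rw [hM, map_eq_zero_iff _ (aK_inj p)]
    constructor
    · intro h1
      rcases mul_eq_zero.1 h1 with h2 | h2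
      · exact C_eq_zero.1 h2
      · exact absurd h2 (pow_ne_zero _ X_ne_zero)
    · intro h1
      rw [h1, C_0, zero_mul]
  have hoinj : ∀ u v, o u = o v → u = v := fun u v h1 => congrArg Prod.snd h1
  have h0 : ∀ v, b v v = 0 := fun v => (hM0 v v).1 (h.diagO _ (hodu v))
  have hskew : ∀ u v, b u v = - b v u := by
    intro u v
    by_cases huv : u = v
    · rw [huv, h0, neg_zero]
    · have h1 := h.skew (o u) (o v) fun h2 => huv (hoinj u v h2)
      rw [hM, hM, ← map_neg] at h1
      have h2 := aK_inj p h1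
      rw [wE_comm (nv m) v u, ← neg_mul, ← C_neg] at h2
      have h3 := mul_right_cancel₀ (pow_ne_zero _ X_ne_zero) h2
      exact C_injective h3
  have hG : ∀ u v, b u v ≠ 0 ↔ G.Adj u v := by
    intro u v
    have h1 := h.ok (o u) (o v) (hodu u) (hodu v)
    refine (not_congr (hM0 u v)).symm.trans (h1.trans ?_)
    exact ⟨fun h2 => h2.2.2, fun h2 => ⟨hoO u, hoO v, h2⟩⟩
  have hz0 : ∀ t, ¬ isO t → z t = 0 := by
    intro t ht
    by_contra h1
    exact (hz t h1).1 ht
  have hx := hX_of_forcW (F := ZMod (nv p)) (K := RatFunc (ZMod (nv p))) (aK_inj p) (G := G) b h0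
    hskew hG (wE (nv m)) (wE_comm (nv m)) hF (fun v => z (o v)) (by
      intro v hv
      by_contra h1
      exact (hz _ h1).2 ⟨hoO v, hv⟩) (by
      intro v hv
      have h1 := hz2 (o v) (hodu v) fun h2 => hv h2.2
      rw [Fintype.sum_prod_type, Finset.sum_eq_single (⟨0, by omega⟩ : Fin n)] at h1
      · rw [← h1]
        change ∑ u, algebraMap _ _ (C (b v u) * Polynomial.X ^ wE (nv m) v u) * z (o u) = _
        exact Finset.sum_congr rfl fun u _ => by rw [← hM]
      · intro i _ hi
        refine Finset.sum_eq_zero fun u _ => ?_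
        rw [hz0 (i, u) fun h2 => hi (Fin.ext h2), mul_zero]
      · exact fun h2 => absurd (Finset.mem_univ _) h2)
  intro t
  by_cases ht : isO t
  · rw [hof t ht]
    exact congrFun hx t.2
  · exact hz0 t ht

open Classical in
/-- the hypothesis of `exists_init`, from `hX_of_forcW` -/
theorem hX_aK {p : S n} [Fact (nv p).Prime] (hp2 : nv p ≠ 2) {G : SimpleGraph (Fin n)} {m : S n}
    {X : Finset (Fin n)} {f : Fin n → Fin n} (hF : ForcW G (wE (nv m)) X f)
    (z : Fin n → RatFunc (ZMod (nv p))) (hz : ∀ v ∈ X, z v = 0)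
    (hz2 : ∀ u, u ∉ X → ∑ v, aK p G m u v * z v = 0) : z = 0 := by
  refine hX_of_forcW (F := ZMod (nv p)) (K := RatFunc (ZMod (nv p))) (aK_inj p) (G := G)
    (fun u v => if G.Adj u v then (if u < v then 1 else -1) else 0) (fun v => if_neg G.irrefl)
    (fun u v => ?_) (fun u v => ?_) (wE (nv m)) (wE_comm (nv m)) hF z hz (fun u hu => hz2 u hu)
  · by_cases h1 : G.Adj u v
    · rw [if_pos h1, if_pos h1.symm]
      rcases lt_trichotomy u v with h2 | h2 | h2
      · rw [if_pos h2, if_neg (lt_asymm h2), neg_neg]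
      · exact absurd h2 h1.ne
      · rw [if_pos h2, if_neg (lt_asymm h2)]
    · rw [if_neg h1, if_neg fun h2 => h1 h2.symm, neg_zero]
  · by_cases h1 : G.Adj u v
    · rw [if_pos h1]
      refine ⟨fun _ => h1, fun _ => ?_⟩
      by_cases h2 : u < v
      · rw [if_pos h2]
        exact one_ne_zero
      · rw [if_neg h2]
        exact neg_ne_zero.2 one_ne_zero
    · rw [if_neg h1]
      exact ⟨fun h2 => absurd rfl h2, fun h2 => absurd h2 h1⟩

end hx

end Pool.Agent.PMNC
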