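import Pool.Agent.Lib.MP_0087d5_lc.FN.Init
import Pool.Agent.Lib.MP_0087d5_lc.FN.DefS

set_option autoImplicit false
set_option linter.all false

/-!
# The test: definition and definability
-/

namespace Pool.Agent.PMNC

open Relation Matrix

section main
variable {S : ℕ → Type} [Env S] [∀ n, Fintype (S n)] {n : ℕ}

/-- the modulus is a prime number -/
def prS (p : S n) : Prop := ¬ nv p = 0 ∧ ¬ nv p = 1 ∧
  ∀ a : S n, ¬ nv a = 0 → ¬ nv a = 1 → nv a < nv p → nd a ((nv p : ℕ) : ℤ)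

/-- the parameters `k`, `t`, `p`, `m` are accepted -/
def acc (c : ℕ) (G : SimpleGraph (Fin n)) (e : S n × (S n × (S n × S n))) : Prop :=
  (prS e.2.2.1 ∧ ¬ nv e.2.2.2 = 0 ∧ (nv e.2.2.2 ≤ n ^ (2 * c + 8) ∧ 1 ≤ n) ∧
    ¬ (nv e.2.2.1 ≤ n ^ (2 * c + 20) ∧ 1 ≤ n)) ∧
  (∃ y : S n, nd e.2.2.1 (zdet (T := fun n => Fin n × Fin n)
    (wx (T := fun n => Fin n × Fin n) (wT e.2.2.2) (B0s G e.1 e.2.1) y))) ∧
  finF (T := fun n => Fin n × Fin n) e.2.2.1 du (wT e.2.2.2)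
    ((stgF (T := fun n => Fin n × Fin n) e.2.2.1 du (okF G)
      (wT e.2.2.2))^[(40 * Nat.size n) ^ (3 * c + 3 + 1)]
      (rlF (T := fun n => Fin n × Fin n) e.2.2.1 (B0s G e.1 e.2.1)))

end main

section def_
variable {E S : ℕ → Type} [Env E] [Env S] [∀ n, Fintype (S n)]

theorem DefP.prS {p : ∀ n : ℕ, E n → S n} (hp : Tm p) :
    DefP (fun n G X (x : E n) => PMNC.prS (p n x)) := by
  unfold PMNC.prS
  refine DefP.and (DefP.not (DefP.nZero hp)) (DefP.and (DefP.not (DefP.nOne hp)) (DefP.all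
    (DefP.imp (DefP.not (DefP.nZero ?_)) (DefP.imp (DefP.not (DefP.nOne ?_))
      (DefP.imp (DefP.nLt ?_ ?_) ?_)))))
  · exact Tm.snd Tm.id
  · exact Tm.snd Tm.id
  · exact Tm.snd Tm.id
  · exact hp.comp (Tm.fst Tm.id)
  · exact DefZ.ndvd (Tm.snd Tm.id) (DefZ.nv' (H := S) (Tm.snd Tm.id) (hp.comp (Tm.fst Tm.id)))

theorem DefZ.brd {p t : ∀ n : ℕ, E n → S n} (hp : Tm p) (ht : Tm t) {u v : ∀ n : ℕ, E n → Fin n}
    (hu : Tm (F := fun n => Fin n) u) (hv : Tm (F := fun n => Fin n) v) :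
    DefZ p (fun n G X x => PMNC.brd (t n x) (u n x) (v n x)) := by
  unfold PMNC.brd
  exact DefZ.mul hp
    (DefZ.pow (H := fun n => Fin n) hp (DefZ.nv' (H := S) hp ht) hu)
    (DefZ.pow (H := fun n => Fin n) hp (DefZ.nv' (H := fun n => Fin n) hp hu) hv)

theorem DefZ.B0s {p k t : ∀ n : ℕ, E n → S n} (hp : Tm p) (hk : Tm k) (ht : Tm t) :
    DefZ (E := fun n => E n × ((Fin n × Fin n) × (Fin n × Fin n))) (fun n y => p n y.1)
      (fun n G X y => PMNC.B0s G (k n y.1) (t n y.1) y.2.1 y.2.2) := by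
  unfold PMNC.B0s
  have hE : ∀ {f : ∀ n : ℕ, E n → S n}, Tm f →
      Tm (fun n (y : E n × ((Fin n × Fin n) × (Fin n × Fin n))) => f n y.1) := fun hf =>
    hf.comp (Tm.fst Tm.id)
  have r : Tm (F := fun n => Fin n × Fin n)
      (fun n (y : E n × ((Fin n × Fin n) × (Fin n × Fin n))) => y.2.1) := Tm.fst (Tm.snd Tm.id)
  have c : Tm (F := fun n => Fin n × Fin n)
      (fun n (y : E n × ((Fin n × Fin n) × (Fin n × Fin n))) => y.2.2) := Tm.snd (Tm.snd Tm.id)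
  refine DefZ.ite (DefP.and (DefP.isO r) (DefP.isO c)) (DefZ.ite (DefP.adj r.snd c.snd)
    (DefZ.ite (DefP.lt r.snd c.snd) (DefZ.one (hE hp)) (DefZ.neg (hE hp) (DefZ.one (hE hp))))
    (DefZ.zero (hE hp))) ?_
  refine DefZ.ite (DefP.and (DefP.isO r) (DefP.isA c (hE hk)))
    (DefZ.brd (hE hp) (hE ht) r.snd c.snd) ?_
  refine DefZ.ite (DefP.and (DefP.isA r (hE hk)) (DefP.isO c))
    (DefZ.neg (hE hp) (DefZ.brd (hE hp) (hE ht) c.snd r.snd)) ?_
  exact DefZ.ite (DefP.and (DefP.eq (F := fun n => Fin n × Fin n) r c)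
    (DefP.not (DefP.isA r (hE hk)))) (DefZ.one (hE hp)) (DefZ.zero (hE hp))

/-- as in `DefZ.B0` -/
theorem DefZ.powT (hS : 2 ≤ dim S) {p m : ∀ n : ℕ, E n → S n} (hp : Tm p) (hm : Tm m) :
    DefZ (E := fun n => (E n × S n) × ((Fin n × Fin n) × (Fin n × Fin n))) (fun n y => p n y.1.1)
      (fun n G X y => ((nv y.1.2 : ℕ) : ℤ) ^ PMNC.wT (m n y.1.1) y.2.1 y.2.2) := by
  have h1 : ∀ (n : ℕ) (y : (E n × S n) × ((Fin n × Fin n) × (Fin n × Fin n))),
      cnd (PMNC.isO y.2.1 ∧ PMNC.isO y.2.2)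
        (∑ e : S n, cnd (wE (nv (m n y.1.1)) y.2.1.2 y.2.2.2 = nv e) (((nv y.1.2 : ℕ) : ℤ) ^ nv e) 0) 1 =
      ((nv y.1.2 : ℕ) : ℤ) ^ PMNC.wT (m n y.1.1) y.2.1 y.2.2 := by
    intro n y
    unfold PMNC.wT
    by_cases h : PMNC.isO y.2.1 ∧ PMNC.isO y.2.2
    · rw [cnd_pos h, if_pos h]
      obtain ⟨e, he⟩ := nv_down' (b := m n y.1.1) (wE_le (nv (m n y.1.1)) y.2.1.2 y.2.2.2)
      rw [Finset.sum_eq_single e]
      · rw [cnd_pos he.symm, he]
      · intro e' _ hne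
        rw [cnd_neg]
        intro h
        exact hne (nv_injective (by omega))
      · intro h
        exact absurd (Finset.mem_univ _) h
    · rw [cnd_neg h, if_neg h, pow_zero]
  have r : Tm (F := fun n => Fin n × Fin n)
      (fun n (y : (E n × S n) × ((Fin n × Fin n) × (Fin n × Fin n))) => y.2.1) := Tm.fst (Tm.snd Tm.id)
  have c : Tm (F := fun n => Fin n × Fin n)
      (fun n (y : (E n × S n) × ((Fin n × Fin n) × (Fin n × Fin n))) => y.2.2) := Tm.snd (Tm.snd Tm.id)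
  have hE : ∀ {f : ∀ n : ℕ, E n → S n}, Tm f →
      Tm (fun n (y : (E n × S n) × ((Fin n × Fin n) × (Fin n × Fin n))) => f n y.1.1) := fun hf =>
    hf.comp (Tm.fst (Tm.fst Tm.id))
  have hE2 : ∀ {f : ∀ n : ℕ, E n → S n}, Tm f →
      Tm (fun n (y : ((E n × S n) × ((Fin n × Fin n) × (Fin n × Fin n))) × S n) => f n y.1.1.1) :=
    fun hf => hf.comp (Tm.fst (Tm.fst (Tm.fst Tm.id)))
  refine DefZ.congr (φ := fun n G X y => cnd (PMNC.isO y.2.1 ∧ PMNC.isO y.2.2)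
        (∑ e : S n, cnd (wE (nv (m n y.1.1)) y.2.1.2 y.2.2.2 = nv e)
          (((nv y.1.2 : ℕ) : ℤ) ^ nv e) 0) 1) ?_ (fun n G X y => h1 n y)
  refine DefZ.ite (DefP.and (DefP.isO r) (DefP.isO c)) ?_ (DefZ.one (hE hp))
  refine DefZ.sum (hE hp) (DefZ.ite ?_ (DefZ.pow (H := S) (hE2 hp)
      (DefZ.nv' (H := S) (hE2 hp) (Tm.snd (Tm.fst (Tm.fst Tm.id)))) (Tm.snd Tm.id))
        (DefZ.zero (hE2 hp)))
  exact DefP.comp (F := fun n => E n × ((Fin n × Fin n) × S n))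
        (f := fun n (y : ((E n × S n) × ((Fin n × Fin n) × (Fin n × Fin n))) × S n) =>
          (y.1.1.1, ((y.1.2.1.2, y.1.2.2.2), y.2))) (DefP.wE hS hm) (by (repeat' (first
      | apply DefP.nOne | apply DefP.nZero | exact Tm.id
      | exact Tm.unit | apply Tm.fst | apply Tm.snd | apply Tm.app
      | assumption | (apply Tm.comp; assumption) | apply Tm.pair | apply Tm.lam)))

theorem DefP.okF :
    DefP (E := fun n => E n × ((Fin n × Fin n) × (Fin n × Fin n)))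
      (fun n G X y => PMNC.okF G y.2.1 y.2.2) := by
  unfold PMNC.okF
  have r : Tm (F := fun n => Fin n × Fin n)
      (fun n (y : E n × ((Fin n × Fin n) × (Fin n × Fin n))) => y.2.1) := Tm.fst (Tm.snd Tm.id)
  have c : Tm (F := fun n => Fin n × Fin n)
      (fun n (y : E n × ((Fin n × Fin n) × (Fin n × Fin n))) => y.2.2) := Tm.snd (Tm.snd Tm.id)
  exact DefP.and (DefP.isO r) (DefP.and (DefP.isO c) (DefP.adj r.snd c.snd))

theorem defP_acc (hS : 2 ≤ dim S) (c : ℕ) :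
    DefP (E := fun n => S n × (S n × (S n × S n))) (fun n G X e => acc c G e) := by
  unfold acc nd zdet
  have t1 : Tm (fun n (e : S n × (S n × (S n × S n))) => e.1) := Tm.fst Tm.id
  have t2 : Tm (fun n (e : S n × (S n × (S n × S n))) => e.2.1) := Tm.fst (Tm.snd Tm.id)
  have t3 : Tm (fun n (e : S n × (S n × (S n × S n))) => e.2.2.1) :=
    Tm.fst (Tm.snd (Tm.snd Tm.id))
  have t4 : Tm (fun n (e : S n × (S n × (S n × S n))) => e.2.2.2) :=
    Tm.snd (Tm.snd (Tm.snd Tm.id))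
  have hdu : DefP (E := fun n => (S n × (S n × (S n × S n))) × (Fin n × Fin n))
      (fun n G X y => du y.2) := by
    unfold du
    exact DefP.not (DefP.isO (Tm.snd Tm.id))
  have hB := DefZ.B0s (E := fun n => S n × (S n × (S n × S n))) t3 t1 t2
  have hw := DefZ.powT (E := fun n => S n × (S n × (S n × S n))) hS t3 t4
  have hx := DefZ.wx (E := fun n => S n × (S n × (S n × S n))) (T := fun n => Fin n × Fin n)
    (w := fun n G X e => PMNC.wT e.2.2.2) (B := fun n G X e => PMNC.B0s G e.1 e.2.1) t3 hw hB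
  have hD := DefZ.det (E := fun n => (S n × (S n × (S n × S n))) × S n) (T := fun n => Fin n × Fin n)
    (M := fun n G X (e : (S n × (S n × (S n × S n))) × S n) r c' =>
      PMNC.wx (T := fun n => Fin n × Fin n) (PMNC.wT e.1.2.2.2) (PMNC.B0s G e.1.1 e.1.2.1) e.2 r c')
    (t3.comp (Tm.fst Tm.id)) hx
  refine DefP.and (DefP.and (DefP.prS t3) (DefP.and (DefP.not (DefP.nZero t4))
    (DefP.and (DefP.lePow _ t4) (DefP.not (DefP.lePow _ t3))))) (DefP.and (DefP.ex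
      (DefZ.ndvd (t3.comp (Tm.fst Tm.id)) hD)) ?_)
  refine DefP.finF (T := fun n => Fin n × Fin n) (E := fun n => S n × (S n × (S n × S n)))
    (p := fun n e => e.2.2.1) (Du := fun n G e => du) (w := fun n G e => PMNC.wT e.2.2.2)
    (R := fun n G X e => (stgF (T := fun n => Fin n × Fin n) e.2.2.1 du (PMNC.okF G)
      (PMNC.wT e.2.2.2))^[(40 * Nat.size n) ^ (3 * c + 3 + 1)]
      (rlF (T := fun n => Fin n × Fin n) e.2.2.1 (PMNC.B0s G e.1 e.2.1))) t3 hdu hw ?_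
  exact DefP.stgFIter (T := fun n => Fin n × Fin n) (E := fun n => S n × (S n × (S n × S n)))
    (p := fun n e => e.2.2.1) (Du := fun n G e => du)
    (Ok := fun n G e => PMNC.okF G) (w := fun n G e => PMNC.wT e.2.2.2)
    (B := fun n G e => PMNC.B0s G e.1 e.2.1) t3 40 (3 * c + 3) hdu
    (DefP.okF (E := fun n => S n × (S n × (S n × S n)))) hw hB

end def_

end Pool.Agent.PMNC
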