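import Mathlib

/-!
# Nice cycles
-/

set_option autoImplicit false

namespace Pool.Agent.FNC

/-- The edge sets of the nice cycles of `H`: the cycles `p` such that the graph `H - V(p)` has a perfect matching. -/
def niceCycles {V : Type*} (H : SimpleGraph V) : Set (Set (Sym2 V)) :=
  {C | ∃ (v : V) (p : H.Walk v v), p.IsCycle ∧
    (∃ M : (H.induce {u | u ∉ p.support}).Subgraph, M.IsPerfectMatching) ∧ C = {e | e ∈ p.edges}}

end Pool.Agent.FNC
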