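import Pool.Agent.Lib.MP_0087d5_lc.FRC.HXG
import Pool.Agent.Lib.MP_0087d5_lc.WPr
import Pool.Agent.Lib.MP_0087d5_lc.WMain
import Pool.Agent.Lib.MP_0087d5_lc.FN.Stmt

set_option autoImplicit false
set_option linter.all false

/-!
# Graphs with few nice cycles: isolation

A nice cycle of `H` is a cycle `C` such that `H - V(C)` has a perfect matching.
-/

namespace Pool.Agent.FNC

open Relation PMNC FRC.Uni Finset

/-- the vertices reached from `x` by edges of two perfect matchings -/
def orb {V : Type*} (f g : V → V) (x v : V) : Prop :=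
  ReflTransGen (fun a b => b = f a ∨ b = g a) x v

section one
variable {V : Type*} [Fintype V] [DecidableEq V] {H : SimpleGraph V} {f g : V → V}

theorem orb_ne (hf : PMf H f) (hg : PMf H g) {x : V} (hx : f x ≠ g x) {v : V} (hv : orb f g x v) :
    f v ≠ g v := by
  unfold orb at hv
  induction hv with
  | refl => exact hx
  | tail _ hbc ih =>
    rename_i b c
    rcases hbc with rfl | rfl
    · rw [hf.invol]
      intro h
      apply ih
      have h1 := congrArg g h
      rw [hg.invol] at h1
      exact h1.symm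
    · rw [hg.invol]
      intro h
      apply ih
      have h1 := congrArg f h
      rw [hf.invol] at h1
      exact h1.symm

/-- the graph of the symmetric difference of two perfect matchings -/
private def sdG (f g : V → V) (hf : PMf H f) (hg : PMf H g) : SimpleGraph V where
  Adj a b := (b = f a ∨ b = g a) ∧ f a ≠ g a
  symm := ⟨by
    rintro a b ⟨h, hne⟩
    rcases h with rfl | rfl
    · refine ⟨Or.inl (hf.invol a).symm, ?_⟩
      rw [hf.invol]
      intro h
      apply hne
      have h1 := congrArg g h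
      rw [hg.invol] at h1
      exact h1.symm
    · refine ⟨Or.inr (hg.invol a).symm, ?_⟩
      rw [hg.invol]
      intro h
      apply hne
      have h1 := congrArg f h
      rw [hf.invol] at h1
      exact h1.symm⟩
  loopless := ⟨by
    rintro a ⟨h, _⟩
    rcases h with h | h
    · exact (hf.adj a).ne h
    · exact (hg.adj a).ne h⟩

private theorem sdG_le (hf : PMf H f) (hg : PMf H g) : sdG f g hf hg ≤ H := by
  rintro a b ⟨h, _⟩
  rcases h with rfl | rfl
  · exact hf.adj a
  · exact hg.adj a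

private theorem sdG_nb (hf : PMf H f) (hg : PMf H g) {a : V} (ha : f a ≠ g a) :
    (sdG f g hf hg).neighborSet a = {f a, g a} := by
  ext b
  rw [SimpleGraph.mem_neighborSet, Set.mem_insert_iff, Set.mem_singleton_iff]
  exact ⟨fun h => h.1, fun h => ⟨h, ha⟩⟩

private theorem sdG_cycles (hf : PMf H f) (hg : PMf H g) : (sdG f g hf hg).IsCycles := by
  rintro a ⟨b, hb⟩
  rw [sdG_nb hf hg hb.2, Set.ncard_pair hb.2]

private theorem sdG_orb (hf : PMf H f) (hg : PMf H g) {x : V} (hx : f x ≠ g x) (v : V) :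
    (sdG f g hf hg).Reachable x v ↔ orb f g x v := by
  rw [SimpleGraph.reachable_iff_reflTransGen]
  constructor
  · intro h
    exact ReflTransGen.mono (fun a b hab => hab.1) _ _ h
  · intro h
    unfold orb at h
    induction h with
    | refl => exact ReflTransGen.refl
    | tail hab hbc ih => exact ih.tail ⟨hbc, orb_ne hf hg hx hab⟩

/-- N1: two perfect matchings differ in nice cycles -/
theorem nice_of_two (hf : PMf H f) (hg : PMf H g) {x : V} (hx : f x ≠ g x) :
    {e : Sym2 V | ∃ v, orb f g x v ∧ (e = s(v, f v) ∨ e = s(v, g v))} ∈ niceCycles H := by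
  classical
  set Γ := sdG f g hf hg with hΓ
  obtain ⟨p, hp, hpv⟩ := (sdG_cycles hf hg).exists_cycle_toSubgraph_verts_eq_connectedComponentSupp
    (v := x) (c := Γ.connectedComponentMk x) (SimpleGraph.ConnectedComponent.mem_supp_iff _ _ |>.2 rfl)
    (by rw [sdG_nb hf hg hx]; exact ⟨f x, Or.inl rfl⟩)
  have hsup : ∀ v, v ∈ p.support ↔ orb f g x v := by
    intro v
    rw [← sdG_orb hf hg hx, ← SimpleGraph.Walk.mem_verts_toSubgraph, hpv,
      SimpleGraph.ConnectedComponent.mem_supp_iff, SimpleGraph.ConnectedComponent.eq]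
    exact SimpleGraph.reachable_comm
  have hnb : ∀ v, orb f g x v → p.toSubgraph.neighborSet v = {f v, g v} := by
    intro v hv
    have h1 := hp.ncard_neighborSet_toSubgraph_eq_two ((hsup v).2 hv)
    have h2 : p.toSubgraph.neighborSet v ⊆ {f v, g v} := by
      rw [← sdG_nb hf hg (orb_ne hf hg hx hv)]
      exact p.toSubgraph.neighborSet_subset v
    refine Set.eq_of_subset_of_ncard_le h2 ?_ (Set.toFinite _)
    rw [h1, Set.ncard_pair (orb_ne hf hg hx hv)]
  have hadj : ∀ v b, orb f g x v → (b = f v ∨ b = g v) → s(v, b) ∈ p.edges := by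
    intro v b hv hb
    have h1 : b ∈ p.toSubgraph.neighborSet v := by
      rw [hnb v hv]
      exact hb
    rw [SimpleGraph.Subgraph.mem_neighborSet] at h1
    exact (SimpleGraph.Walk.adj_toSubgraph_iff_mem_edges).1 h1
  refine ⟨x, p.mapLe (sdG_le hf hg), ?_, ?_, ?_⟩
  · exact (SimpleGraph.Walk.mapLe_isCycle (sdG_le hf hg)).2 hp
  · -- the rest
    have hs : ∀ v, v ∈ (p.mapLe (sdG_le hf hg)).support ↔ orb f g x v := by
      intro v
      rw [← hsup v]
      simp
    have hfo : ∀ v, v ∉ (p.mapLe (sdG_le hf hg)).support →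
        f v ∉ (p.mapLe (sdG_le hf hg)).support := by
      intro v hv hc
      rw [hs] at hv hc
      apply hv
      have h1 := ReflTransGen.tail hc (Or.inl rfl : f (f v) = f (f v) ∨ f (f v) = g (f v))
      rw [hf.invol] at h1
      exact h1
    let m : {u | u ∉ (p.mapLe (sdG_le hf hg)).support} → {u | u ∉ (p.mapLe (sdG_le hf hg)).support} :=
      fun v => ⟨f v.1, hfo v.1 v.2⟩
    have hm : PMf (H.induce {u | u ∉ (p.mapLe (sdG_le hf hg)).support}) m :=
      ⟨fun v => Subtype.ext (hf.invol v.1), fun v => hf.adj v.1⟩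
    exact ⟨_, sub_pm hm⟩
  · ext e
    have he : e ∈ (p.mapLe (sdG_le hf hg)).edges ↔ e ∈ p.edges := by
      simp
    rw [Set.mem_ofPred_eq, Set.mem_ofPred_eq, he]
    constructor
    · rintro ⟨v, hv, rfl | rfl⟩
      · exact hadj v _ hv (Or.inl rfl)
      · exact hadj v _ hv (Or.inr rfl)
    · intro h
      induction e using Sym2.ind with
      | _ a b =>
        have h1 := p.adj_of_mem_edges h
        have h2 := (hsup a).1 (p.fst_mem_support_of_mem_edges h)
        refine ⟨a, h2, ?_⟩
        rcases h1.1 with h3 | h3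
        · exact Or.inl (by rw [h3])
        · exact Or.inr (by rw [h3])

section modulus

private theorem orb_f {x v : V} (h : orb f g x v) : orb f g x (f v) := ReflTransGen.tail h (Or.inl rfl)

private theorem orb_g {x v : V} (h : orb f g x v) : orb f g x (g v) := ReflTransGen.tail h (Or.inr rfl)

/-- the edges of two perfect matchings at the vertices reached from `x` -/
private def cyc (f g : V → V) (x : V) : Set (Sym2 V) :=
  {e : Sym2 V | ∃ v, orb f g x v ∧ (e = s(v, f v) ∨ e = s(v, g v))}

private theorem cyc_vert (x v : V) : orb f g x v ↔ ∃ e ∈ cyc f g x, v ∈ e := by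
  constructor
  · intro h
    exact ⟨s(v, f v), ⟨v, h, Or.inl rfl⟩, Sym2.mem_mk_left _ _⟩
  · rintro ⟨e, ⟨u, hu, rfl | rfl⟩, hv⟩
    · rcases Sym2.mem_iff.1 hv with rfl | rfl
      · exact hu
      · exact orb_f hu
    · rcases Sym2.mem_iff.1 hv with rfl | rfl
      · exact hu
      · exact orb_g hu

private theorem cyc_edge (hf : ∀ v, f (f v) = v) (hg : ∀ v, g (g v) = v) {x v : V} (hv : orb f g x v) (u : V) :
    s(v, u) ∈ cyc f g x ↔ u = f v ∨ u = g v := by
  constructor
  · rintro ⟨a, ha, h | h⟩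
    · rcases Sym2.eq_iff.1 h with ⟨rfl, rfl⟩ | ⟨rfl, rfl⟩
      · exact Or.inl rfl
      · exact Or.inl (hf _).symm
    · rcases Sym2.eq_iff.1 h with ⟨rfl, rfl⟩ | ⟨rfl, rfl⟩
      · exact Or.inr rfl
      · exact Or.inr (hg _).symm
  · rintro (rfl | rfl)
    · exact ⟨v, hv, Or.inl rfl⟩
    · exact ⟨v, hv, Or.inr rfl⟩

/-- two pairs of perfect matchings with the same cycle -/
private theorem cyc_same {f' g' : V → V} (hf : PMf H f) (hg : PMf H g) (hf' : PMf H f') (hg' : PMf H g') {x x' : V}
    (hx : f x ≠ g x) (hC : cyc f g x = cyc f' g' x') :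
    (∀ v, orb f g x v ↔ orb f' g' x' v) ∧
    ((∀ v, orb f g x v → f' v = f v ∧ g' v = g v) ∨ (∀ v, orb f g x v → f' v = g v ∧ g' v = f v)) := by
  have h1 : ∀ v, orb f g x v ↔ orb f' g' x' v := by
    intro v
    rw [cyc_vert, cyc_vert, hC]
  refine ⟨h1, ?_⟩
  have h2 : ∀ v, orb f g x v → (f' v = f v ∧ g' v = g v) ∨ (f' v = g v ∧ g' v = f v) := by
    intro v hv
    have hne := orb_ne hf hg hx hv
    have h3 : ∀ u, (u = f v ∨ u = g v) ↔ (u = f' v ∨ u = g' v) := by
      intro u
      rw [← cyc_edge hf.invol hg.invol hv, hC, cyc_edge hf'.invol hg'.invol ((h1 v).1 hv)]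
    rcases (h3 (f v)).1 (Or.inl rfl) with e1 | e1
    · rcases (h3 (g v)).1 (Or.inr rfl) with e2 | e2
      · exact absurd (e1.trans e2.symm) hne
      · exact Or.inl ⟨e1.symm, e2.symm⟩
    · rcases (h3 (g v)).1 (Or.inr rfl) with e2 | e2
      · exact Or.inr ⟨e2.symm, e1.symm⟩
      · exact absurd (e1.trans e2.symm) hne
  rcases h2 x ReflTransGen.refl with h3 | h3
  · left
    intro v hv
    induction hv with
    | refl => exact h3
    | @tail a b hab hstep ih =>
      have hb : orb f g x b := ReflTransGen.tail hab hstep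
      have hne := orb_ne hf hg hx hb
      rcases h2 b hb with h4 | h4
      · exact h4
      · exfalso
        rcases hstep with rfl | rfl
        · apply hne
          rw [← h4.1, hf.invol]
          rw [← ih.1]
          exact (hf'.invol a).symm
        · apply hne
          rw [← h4.2, hg.invol]
          nth_rw 1 [← ih.2]
          exact hg'.invol a
  · right
    intro v hv
    induction hv with
    | refl => exact h3
    | @tail a b hab hstep ih =>
      have hb : orb f g x b := ReflTransGen.tail hab hstep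
      have hne := orb_ne hf hg hx hb
      rcases h2 b hb with h4 | h4
      · exfalso
        rcases hstep with rfl | rfl
        · apply hne
          rw [← h4.2, hf.invol]
          rw [← ih.2]
          exact (hg'.invol a).symm
        · apply hne
          rw [← h4.1, hg.invol]
          nth_rw 1 [← ih.1]
          exact hf'.invol a
      · exact h4

variable {n : ℕ} (ι : V → Fin n)

open Classical in
/-- the binary number of the edges of `f` at the vertices reached from `x` -/
private noncomputable def sb (f g : V → V) (x : V) (h : V → V) : ℕ :=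
  ∑ v ∈ univ.filter (fun v => orb f g x v), 2 ^ eid (ι v) (ι (h v))

private noncomputable def sd (f g : V → V) (x : V) : ℕ :=
  (sb ι f g x f - sb ι f g x g) + (sb ι f g x g - sb ι f g x f)

private theorem sb_le (hι : Function.Injective ι) (f g : V → V) (x : V) (h : V → V) :
    sb ι f g x h ≤ 2 ^ (n ^ 2 + n) := by
  classical
  unfold sb
  have hV : Fintype.card V ≤ n := by
    have := Fintype.card_le_of_injective ι hι
    rwa [Fintype.card_fin] at this
  calc _ ≤ ∑ _v ∈ univ.filter (fun v => orb f g x v), 2 ^ n ^ 2 :=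
        Finset.sum_le_sum fun i _ => Nat.pow_le_pow_right (by norm_num) (eid_lt _ _).le
    _ = (univ.filter (fun v => orb f g x v)).card * 2 ^ n ^ 2 := by simp
    _ ≤ n * 2 ^ n ^ 2 := Nat.mul_le_mul_right _ ((Finset.card_filter_le _ _).trans (by rwa [Finset.card_univ]))
    _ ≤ 2 ^ n * 2 ^ n ^ 2 := Nat.mul_le_mul_right _ Nat.lt_two_pow_self.le
    _ = 2 ^ (n ^ 2 + n) := by rw [← pow_add, add_comm]

open Classical in
private noncomputable def esO (O : Finset V) (h : V → V) : Finset ℕ :=
  (O.filter fun v => ι v < ι (h v)).image fun v => nv (S := fun n => Fin n × Fin n) (ι v, ι (h v))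

private theorem sum_es (hι : Function.Injective ι) (O : Finset V) {h : V → V} (hh : ∀ v, h (h v) = v)
    (hne : ∀ v, h v ≠ v) (hO : ∀ v ∈ O, h v ∈ O) :
    ∑ v ∈ O, 2 ^ eid (ι v) (ι (h v)) = 2 * ∑ k ∈ esO ι O h, 2 ^ k := by
  classical
  have h1 : ∑ k ∈ esO ι O h, 2 ^ k = ∑ v ∈ O.filter (fun v => ι v < ι (h v)), 2 ^ eid (ι v) (ι (h v)) := by
    unfold esO
    rw [Finset.sum_image]
    · refine Finset.sum_congr rfl fun i hi => ?_
      rw [Finset.mem_filter] at hi
      unfold eid
      rw [if_pos hi.2]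
    · intro i _ j _ hij
      have := nv_injective (S := fun n => Fin n × Fin n) hij
      rw [Prod.mk.injEq] at this
      exact hι this.1
  have h2 : ∑ v ∈ O.filter (fun v => ¬ ι v < ι (h v)), 2 ^ eid (ι v) (ι (h v)) =
      ∑ v ∈ O.filter (fun v => ι v < ι (h v)), 2 ^ eid (ι v) (ι (h v)) := by
    refine Finset.sum_nbij' h h ?_ ?_ ?_ ?_ ?_
    · intro i hi
      rw [Finset.mem_filter] at hi ⊢
      rw [hh]
      refine ⟨hO i hi.1, lt_of_le_of_ne (not_lt.1 hi.2) fun hc => hne i (hι hc)⟩
    · intro i hi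
      rw [Finset.mem_filter] at hi ⊢
      rw [hh]
      exact ⟨hO i hi.1, not_lt.2 hi.2.le⟩
    · intro i _
      exact hh i
    · intro i _
      exact hh i
    · intro i _
      rw [hh, eid_comm]
  rw [← Finset.sum_filter_add_sum_filter_not O (fun v => ι v < ι (h v)), h2, h1, two_mul]

private theorem es_eq (hι : Function.Injective ι) (O : Finset V) {f g : V → V} (hf : ∀ v, f (f v) = v)
    (hne : ∀ v, f v ≠ v) (hg : ∀ v, g (g v) = v) (hO : ∀ v ∈ O, f v ∈ O) (h : esO ι O f = esO ι O g) {x : V}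
    (hx : x ∈ O) : f x = g x := by
  classical
  have key : ∀ i ∈ O, ι i < ι (f i) → g i = f i := by
    intro i hiO hi
    have h1 : nv (S := fun n => Fin n × Fin n) (ι i, ι (f i)) ∈ esO ι O f :=
      Finset.mem_image_of_mem _ (Finset.mem_filter.2 ⟨hiO, hi⟩)
    rw [h] at h1
    obtain ⟨j, hj, hj'⟩ := Finset.mem_image.1 h1
    have h2 := nv_injective (S := fun n => Fin n × Fin n) hj'
    rw [Prod.mk.injEq] at h2
    have h3 : j = i := hι h2.1
    rw [h3] at h2
    exact hι h2.2
  rcases lt_trichotomy (ι x) (ι (f x)) with hi | hi | hi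
  · exact (key x hx hi).symm
  · exact absurd (hι hi).symm (hne x)
  · have h1 := key (f x) (hO x hx) (by rw [hf]; exact hi)
    rw [hf] at h1
    have h2 := congrArg g h1
    rw [hg] at h2
    exact h2

private theorem sd_ne (hι : Function.Injective ι) (hf : PMf H f) (hg : PMf H g) {x : V} (hx : f x ≠ g x) :
    sd ι f g x ≠ 0 := by
  classical
  intro h0
  have h1 : sb ι f g x f = sb ι f g x g := by
    unfold sd at h0
    omega
  unfold sb at h1
  have hO1 : ∀ v ∈ univ.filter (fun v => orb f g x v), f v ∈ univ.filter (fun v => orb f g x v) := by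
    intro v hv
    rw [Finset.mem_filter] at hv ⊢
    exact ⟨Finset.mem_univ _, orb_f hv.2⟩
  have hO2 : ∀ v ∈ univ.filter (fun v => orb f g x v), g v ∈ univ.filter (fun v => orb f g x v) := by
    intro v hv
    rw [Finset.mem_filter] at hv ⊢
    exact ⟨Finset.mem_univ _, orb_g hv.2⟩
  have hnf : ∀ v, f v ≠ v := fun v hc => (hf.adj v).ne hc.symm
  have hng : ∀ v, g v ≠ v := fun v hc => (hg.adj v).ne hc.symm
  have h2 := sum_es ι hι (univ.filter (fun v => orb f g x v)) hf.invol hnf hO1
  have h3 := sum_es ι hι (univ.filter (fun v => orb f g x v)) hg.invol hng hO2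
  rw [h2, h3] at h1
  have h4 : ∑ k ∈ esO ι (univ.filter (fun v => orb f g x v)) f, 2 ^ k =
      ∑ k ∈ esO ι (univ.filter (fun v => orb f g x v)) g, 2 ^ k := by omega
  exact hx (es_eq ι hι _ hf.invol hnf hg.invol hO1 (Finset.geomSum_injective le_rfl h4)
    (Finset.mem_filter.2 ⟨Finset.mem_univ _, ReflTransGen.refl⟩))

private theorem sd_same {f' g' : V → V} (hf : PMf H f) (hg : PMf H g) (hf' : PMf H f') (hg' : PMf H g')
    {x x' : V} (hx : f x ≠ g x) (hC : cyc f g x = cyc f' g' x') : sd ι f g x = sd ι f' g' x' := by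
  classical
  obtain ⟨h1, h2⟩ := cyc_same hf hg hf' hg' hx hC
  have hO : (univ.filter (fun v => orb f g x v)) = univ.filter (fun v => orb f' g' x' v) := by
    ext v
    simp only [Finset.mem_filter, Finset.mem_univ, true_and]
    exact h1 v
  rcases h2 with h2 | h2
  · have e1 : sb ι f g x f = sb ι f' g' x' f' := by
      unfold sb
      rw [hO]
      refine Finset.sum_congr rfl fun v hv => ?_
      rw [Finset.mem_filter] at hv
      rw [(h2 v ((h1 v).2 hv.2)).1]
    have e2 : sb ι f g x g = sb ι f' g' x' g' := by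
      unfold sb
      rw [hO]
      refine Finset.sum_congr rfl fun v hv => ?_
      rw [Finset.mem_filter] at hv
      rw [(h2 v ((h1 v).2 hv.2)).2]
    unfold sd
    rw [e1, e2]
  · have e1 : sb ι f g x f = sb ι f' g' x' g' := by
      unfold sb
      rw [hO]
      refine Finset.sum_congr rfl fun v hv => ?_
      rw [Finset.mem_filter] at hv
      rw [(h2 v ((h1 v).2 hv.2)).2]
    have e2 : sb ι f g x g = sb ι f' g' x' f' := by
      unfold sb
      rw [hO]
      refine Finset.sum_congr rfl fun v hv => ?_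
      rw [Finset.mem_filter] at hv
      rw [(h2 v ((h1 v).2 hv.2)).1]
    unfold sd
    rw [e1, e2, add_comm]

end modulus

open Classical in
/-- N2: some modulus separates the two perfect matchings on every nice cycle. For each nice cycle fix one pair of
perfect matchings; another pair with the same cycle is the same or the swapped one on the vertices of the
cycle. -/
theorem exists_mod_nice {n : ℕ} (ι : V → Fin n) (hι : Function.Injective ι) {N : ℕ}
    (hN : (niceCycles H).ncard ≤ N) :
    ∃ m, 2 ≤ m ∧ m ≤ 2 * ((n ^ 2 + n) * N + 4) ∧ ∀ f g : V → V, PMf H f → PMf H g → ∀ x, f x ≠ g x →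
      ∑ v ∈ univ.filter (fun v => orb f g x v), wE m (ι v) (ι (f v)) ≠
        ∑ v ∈ univ.filter (fun v => orb f g x v), wE m (ι v) (ι (g v)) := by
  let R : Set (Sym2 V) → ((V → V) × (V → V) × V) → Prop := fun C t =>
    PMf H t.1 ∧ PMf H t.2.1 ∧ t.1 t.2.2 ≠ t.2.1 t.2.2 ∧ cyc t.1 t.2.1 t.2.2 = C
  let d : Set (Sym2 V) → ℕ := fun C => if h : ∃ t, R C t then
    sd ι (Classical.choose h).1 (Classical.choose h).2.1 (Classical.choose h).2.2 else 1
  let T : Finset (Set (Sym2 V)) := (Set.toFinite (niceCycles H)).toFinset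
  have hd : ∀ C ∈ T, d C ≠ 0 := by
    intro C _
    by_cases h : ∃ t, R C t
    · have h1 : d C = sd ι (Classical.choose h).1 (Classical.choose h).2.1 (Classical.choose h).2.2 := dif_pos h
      rw [h1]
      have h2 := Classical.choose_spec h
      exact sd_ne ι hι h2.1 h2.2.1 h2.2.2.1
    · have h1 : d C = 1 := dif_neg h
      rw [h1]
      exact one_ne_zero
  have hle : ∀ C ∈ T, d C ≤ 2 ^ (n ^ 2 + n) := by
    intro C _
    by_cases h : ∃ t, R C t
    · have h1 : d C = sd ι (Classical.choose h).1 (Classical.choose h).2.1 (Classical.choose h).2.2 := dif_pos h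
      rw [h1]
      have h3 := sb_le ι hι (Classical.choose h).1 (Classical.choose h).2.1 (Classical.choose h).2.2
        (Classical.choose h).1
      have h4 := sb_le ι hι (Classical.choose h).1 (Classical.choose h).2.1 (Classical.choose h).2.2
        (Classical.choose h).2.1
      unfold sd
      omega
    · have h1 : d C = 1 := dif_neg h
      rw [h1]
      exact Nat.one_le_two_pow
  have hcard : T.card ≤ N := by
    rw [← Set.ncard_eq_toFinset_card (niceCycles H) (Set.toFinite _)]
    exact hN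
  have hD : ∏ C ∈ T, d C ≠ 0 := Finset.prod_ne_zero_iff.2 hd
  have hDL : ∏ C ∈ T, d C ≤ 2 ^ ((n ^ 2 + n) * N) := by
    refine (Finset.prod_le_pow_card _ _ _ hle).trans ?_
    rw [← pow_mul]
    exact Nat.pow_le_pow_right (by norm_num) (Nat.mul_le_mul_left _ hcard)
  obtain ⟨m, h1, h2, h3⟩ := exists_not_dvd hD hDL
  refine ⟨m, h1, h2, fun f g hf hg x hx hw => h3 ?_⟩
  have hC : cyc f g x ∈ T := by
    rw [Set.Finite.mem_toFinset]
    exact nice_of_two hf hg hx
  refine dvd_trans ?_ (Finset.dvd_prod_of_mem d hC)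
  have hex : ∃ t, R (cyc f g x) t := ⟨(f, g, x), hf, hg, hx, rfl⟩
  have h4 : d (cyc f g x) = sd ι (Classical.choose hex).1 (Classical.choose hex).2.1
      (Classical.choose hex).2.2 := dif_pos hex
  have h5 := Classical.choose_spec hex
  rw [h4, sd_same ι h5.1 h5.2.1 hf hg h5.2.2.1 h5.2.2.2]
  have e : ∀ h : V → V, (∑ v ∈ univ.filter (fun v => orb f g x v), wE m (ι v) (ι (h v))) % m =
      sb ι f g x h % m := by
    intro h
    unfold sb wE
    simp only [if_pos h1]
    rw [Finset.sum_nat_mod _ m (fun v => 2 ^ eid (ι v) (ι (h v)))]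
  have h6 : sb ι f g x f % m = sb ι f g x g % m := by rw [← e, ← e, hw]
  unfold sd
  exact dvd_add (Nat.dvd_of_mod_eq_zero (Nat.sub_mod_eq_zero_of_mod_eq h6))
    (Nat.dvd_of_mod_eq_zero (Nat.sub_mod_eq_zero_of_mod_eq h6.symm))

theorem orb_step {V : Type*} {f g : V → V} (hf : ∀ v, f (f v) = v) (hg : ∀ v, g (g v) = v) {x v : V} :
    (orb f g x (f v) ↔ orb f g x v) ∧ (orb f g x (g v) ↔ orb f g x v) := by
  refine ⟨⟨fun h => ?_, fun h => h.tail (Or.inl rfl)⟩, ⟨fun h => ?_, fun h => h.tail (Or.inr rfl)⟩⟩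
  · have h2 : orb f g x (f (f v)) := h.tail (Or.inl rfl)
    rwa [hf] at h2
  · have h2 : orb f g x (g (g v)) := h.tail (Or.inr rfl)
    rwa [hg] at h2

open Classical in
/-- `g` on the orbit of `x`, `f` elsewhere -/
noncomputable def mixo {V : Type*} (f g : V → V) (x v : V) : V := if orb f g x v then g v else f v

theorem pmf_mixo {V : Type*} {H : SimpleGraph V} {f g : V → V} (hf : PMf H f) (hg : PMf H g) (x : V) :
    PMf H (mixo f g x) := by
  have hs := fun v => orb_step (f := f) (g := g) hf.invol hg.invol (x := x) (v := v)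
  constructor
  · intro v
    unfold mixo
    by_cases h : orb f g x v
    · rw [if_pos h, if_pos ((hs v).2.2 h), hg.invol]
    · rw [if_neg h, if_neg (fun h' => h ((hs v).1.1 h')), hf.invol]
  · intro v
    unfold mixo
    by_cases h : orb f g x v
    · rw [if_pos h]
      exact hg.adj v
    · rw [if_neg h]
      exact hf.adj v

theorem orb_comm {V : Type*} (f g : V → V) (x v : V) : orb f g x v ↔ orb g f x v := by
  unfold orb
  have h : (fun a b => b = f a ∨ b = g a) = (fun a b => b = g a ∨ b = f a) := by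
    funext a b
    exact propext or_comm
  rw [h]

open Classical in
/-- N3: the perfect matching of least weight is unique -/
theorem exists_min_nice (w : V → V → ℕ) {f₀ : V → V} (hf₀ : PMf H f₀)
    (hw : ∀ f g : V → V, PMf H f → PMf H g → ∀ x, f x ≠ g x →
      ∑ v ∈ univ.filter (fun v => orb f g x v), w v (f v) ≠
        ∑ v ∈ univ.filter (fun v => orb f g x v), w v (g v)) :
    ∃ f, PMf H f ∧ ∀ g, PMf H g → g ≠ f → ∑ v, w v (f v) < ∑ v, w v (g v) := by
  let P : Finset (V → V) := univ.filter (fun f => PMf H f)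
  have hP : P.Nonempty := ⟨f₀, mem_filter.mpr ⟨mem_univ _, hf₀⟩⟩
  obtain ⟨f, hf, hmin⟩ := exists_min_image P (fun f => ∑ v, w v (f v)) hP
  have hfP : PMf H f := (mem_filter.mp hf).2
  have hmin' : ∀ g, PMf H g → ∑ v, w v (f v) ≤ ∑ v, w v (g v) := fun g hg =>
    hmin g (mem_filter.mpr ⟨mem_univ _, hg⟩)
  refine ⟨f, hfP, fun g hg hne => ?_⟩
  by_contra hlt
  rw [not_lt] at hlt
  obtain ⟨x, hx⟩ : ∃ x, f x ≠ g x := by
    by_contra h
    push Not at h
    exact hne (funext fun v => (h v).symm)
  have h1 := hmin' _ (pmf_mixo hfP hg x)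
  have h2 := hmin' _ (pmf_mixo hg hfP x)
  have h3 := hw f g hfP hg x hx
  have hsplit : ∀ F : V → ℕ, ∑ v, F v = ∑ v ∈ univ.filter (fun v => orb f g x v), F v +
      ∑ v ∈ univ.filter (fun v => ¬ orb f g x v), F v := fun F =>
    (sum_filter_add_sum_filter_not univ _ F).symm
  have e1 : ∑ v, w v (mixo f g x v) = ∑ v ∈ univ.filter (fun v => orb f g x v), w v (g v) +
      ∑ v ∈ univ.filter (fun v => ¬ orb f g x v), w v (f v) := by
    rw [hsplit]
    congr 1
    · refine sum_congr rfl (fun v hv => ?_)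
      unfold mixo
      rw [if_pos (mem_filter.mp hv).2]
    · refine sum_congr rfl (fun v hv => ?_)
      unfold mixo
      rw [if_neg (mem_filter.mp hv).2]
  have e2 : ∑ v, w v (mixo g f x v) = ∑ v ∈ univ.filter (fun v => orb f g x v), w v (f v) +
      ∑ v ∈ univ.filter (fun v => ¬ orb f g x v), w v (g v) := by
    rw [hsplit]
    congr 1
    · refine sum_congr rfl (fun v hv => ?_)
      unfold mixo
      rw [if_pos ((orb_comm _ _ _ _).1 (mem_filter.mp hv).2)]
    · refine sum_congr rfl (fun v hv => ?_)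
      unfold mixo
      rw [if_neg (fun h => (mem_filter.mp hv).2 ((orb_comm _ _ _ _).1 h))]
  have e3 := hsplit (fun v => w v (f v))
  have e4 := hsplit (fun v => w v (g v))
  rw [e1, e3] at h1
  rw [e2, e3] at h2
  rw [e3, e4] at hlt
  omega

end one

/-- N4: isolation for a graph `G` with a set `X` of vertices such that `G[X]` has a perfect matching and `G - X` has
a perfect matching and at most `n ^ c` nice cycles -/
theorem exists_forcW_nice {n c : ℕ} (hn : 2 ≤ n) {G : SimpleGraph (Fin n)} {X : Finset (Fin n)}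
    (h1 : ∃ M : (G.induce {v | v ∈ X}).Subgraph, M.IsPerfectMatching)
    (h2 : ∃ M : (G.induce {v | v ∉ X}).Subgraph, M.IsPerfectMatching)
    (h3 : (niceCycles (G.induce {v | v ∉ X})).ncard ≤ n ^ c) :
    ∃ (m₀ : ℕ) (f : Fin n → Fin n), 1 ≤ m₀ ∧ m₀ < n ^ (2 * c + 8) ∧ ForcW G (wE m₀) X f := by
  classical
  obtain ⟨M1, hM1⟩ := h1
  obtain ⟨a, ha, -⟩ := exists_fun M1 hM1
  obtain ⟨M2, hM2⟩ := h2
  obtain ⟨f₀, hf₀, -⟩ := exists_fun M2 hM2
  obtain ⟨m, hm2, hm, hsep⟩ := exists_mod_nice (fun v : {v | v ∉ X} => (v : Fin n))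
    Subtype.val_injective h3
  obtain ⟨b, hb, hmin⟩ := exists_min_nice (H := G.induce {v | v ∉ X})
    (fun u v => wE m (u : Fin n) (v : Fin n)) hf₀ hsep
  set F : Fin n → Fin n := fun v =>
    if h : v ∈ X then (a ⟨v, h⟩ : Fin n) else (b ⟨v, h⟩ : Fin n) with hF
  have hFa : ∀ v (h : v ∈ X), F v = (a ⟨v, h⟩ : Fin n) := fun v h => dif_pos h
  have hFb : ∀ v (h : v ∉ X), F v = (b ⟨v, h⟩ : Fin n) := fun v h => dif_neg h
  have hFX : ∀ v ∈ X, F v ∈ X := fun v h => by
    rw [hFa v h]
    exact (a ⟨v, h⟩).2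
  have hFN : ∀ v, v ∉ X → F v ∉ X := fun v h => by
    rw [hFb v h]
    exact (b ⟨v, h⟩).2
  have hPM : PMf G F := by
    refine ⟨fun v => ?_, fun v => ?_⟩
    · by_cases h : v ∈ X
      · rw [hFa (F v) (hFX v h)]
        have h4 : (⟨F v, hFX v h⟩ : {v | v ∈ X}) = a ⟨v, h⟩ := Subtype.ext (hFa v h)
        rw [h4, ha.invol]
      · rw [hFb (F v) (hFN v h)]
        have h4 : (⟨F v, hFN v h⟩ : {v | v ∉ X}) = b ⟨v, h⟩ := Subtype.ext (hFb v h)
        rw [h4, hb.invol]
    · by_cases h : v ∈ X
      · rw [hFa v h]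
        exact ha.adj ⟨v, h⟩
      · rw [hFb v h]
        exact hb.adj ⟨v, h⟩
  refine ⟨m, F, by omega, ?_, hPM, hFX, fun m' hm' hX' hne => ?_⟩
  · have h4 : 2 * ((n ^ 2 + n) * n ^ c + 4) < n ^ (c + 7) := by
      have hn1 : 1 ≤ n := by omega
      have h5 : n ^ 2 + n ≤ n ^ 3 := by
        have h6 : n + 1 ≤ n ^ 2 := by nlinarith
        calc n ^ 2 + n = n * (n + 1) := by ring
          _ ≤ n * n ^ 2 := Nat.mul_le_mul_left n h6
          _ = n ^ 3 := by ring
      have h6 : (n ^ 2 + n) * n ^ c ≤ n ^ (c + 3) := by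
        calc (n ^ 2 + n) * n ^ c ≤ n ^ 3 * n ^ c := Nat.mul_le_mul_right _ h5
          _ = n ^ (c + 3) := by rw [← pow_add, add_comm]
      have h7 : n ^ (c + 7) = n ^ (c + 3) * n ^ 4 := by rw [← pow_add]
      have h8 : 16 ≤ n ^ 4 := by
        calc 16 = 2 ^ 4 := by norm_num
          _ ≤ n ^ 4 := Nat.pow_le_pow_left hn 4
      have h9 : 8 ≤ n ^ (c + 3) := by
        calc 8 = 2 ^ 3 := by norm_num
          _ ≤ n ^ 3 := Nat.pow_le_pow_left hn 3
          _ ≤ n ^ (c + 3) := Nat.pow_le_pow_right hn1 (by omega)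
      have h10 : n ^ (c + 3) * 16 ≤ n ^ (c + 3) * n ^ 4 := Nat.mul_le_mul_left _ h8
      omega
    have h5 : n ^ (c + 7) ≤ n ^ (2 * c + 8) := Nat.pow_le_pow_right (by omega) (by omega)
    omega
  · have hN' : ∀ v, v ∉ X → m' v ∉ X := by
      intro v hv h4
      have h5 := hFX _ h4
      rw [← hX' _ h4, hm'.invol] at h5
      exact hv h5
    set g : {v | v ∉ X} → {v | v ∉ X} := fun v => ⟨m' v, hN' v v.2⟩ with hg
    have hgP : PMf (G.induce {v | v ∉ X}) g :=
      ⟨fun v => Subtype.ext (hm'.invol v), fun v => hm'.adj v⟩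
    have hgb : g ≠ b := by
      intro h4
      apply hne
      funext v
      by_cases h : v ∈ X
      · exact hX' v h
      · rw [hFb v h, ← h4]
    have h4 := hmin g hgP hgb
    have hspl : ∀ φ : Fin n → Fin n, ∑ v, wE m v (φ v) =
        ∑ v ∈ X, wE m v (φ v) + ∑ v : {v | v ∉ X}, wE m (v : Fin n) (φ v) := by
      intro φ
      rw [← Finset.sum_filter_add_sum_filter_not univ (fun v => v ∈ X)]
      refine congrArg₂ (· + ·) ?_ ?_
      · refine Finset.sum_congr ?_ fun _ _ => rfl
        ext v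
        simp
      · exact Finset.sum_subtype (p := fun v => v ∈ {v | v ∉ X}) (univ.filter fun v => ¬ v ∈ X)
          (by simp) (fun v => wE m v (φ v))
    rw [hspl F, hspl m']
    have h5 : ∑ v ∈ X, wE m v (F v) = ∑ v ∈ X, wE m v (m' v) :=
      Finset.sum_congr rfl fun v hv => by rw [hX' v hv]
    have h6 : ∑ v : {v | v ∉ X}, wE m (v : Fin n) (F v) =
        ∑ v : {v | v ∉ X}, wE m (v : Fin n) (b v : Fin n) :=
      Finset.sum_congr rfl fun v _ => by rw [hFb v v.2]
    rw [h5, h6]
    exact Nat.add_lt_add_left h4 _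

end Pool.Agent.FNC
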