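import Pool.Agent.Lib.MP_0087d5_lc.FN.Iso
import Pool.Agent.Lib.MP_0087d5_lc.FN.MainD
import Pool.Agent.Lib.MP_0087d5_lc.FN.Nice

set_option autoImplicit false
set_option linter.all false

/-!
# Graphs with few nice cycles after deletion of few vertices, graphs with few perfect matchings
-/

namespace Pool.Agent.PMNC

open Relation Matrix FNC FRC.Uni

section main
variable {S : ℕ → Type} [Env S] [∀ n, Fintype (S n)] {n : ℕ}

theorem prS_iff (p : S n) : prS p ↔ (nv p).Prime := by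
  unfold prS
  constructor
  · rintro ⟨h0, h1, h2⟩
    rw [Nat.prime_def]
    refine ⟨by omega, fun m hm => ?_⟩
    by_contra hc
    push Not at hc
    have hm0 : m ≠ 0 := by
      rintro rfl
      exact h0 (Nat.eq_zero_of_zero_dvd hm)
    have hle : m ≤ nv p := Nat.le_of_dvd (by omega) hm
    obtain ⟨a, ha⟩ := nv_down' (b := p) hle
    have h3 := h2 a (by omega) (by omega) (by omega)
    apply h3.2
    rw [ha]
    exact_mod_cast hm
  · intro hp
    refine ⟨hp.ne_zero, hp.ne_one, fun a ha0 ha1 hlt => ⟨by omega, fun hd => ?_⟩⟩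
    have hd' : nv a ∣ nv p := by exact_mod_cast hd
    rcases (Nat.dvd_prime hp).1 hd' with h | h <;> omega

theorem pow_bd {c : ℕ} (hn : 2 ≤ n) {m p : ℕ} (hm : m ≤ n ^ (2 * c + 8)) (hp : n ^ (2 * c + 20) < p) :
    2 * n ^ 2 * m < p := by
  refine lt_of_le_of_lt ?_ hp
  calc 2 * n ^ 2 * m ≤ n * n ^ 2 * n ^ (2 * c + 8) :=
        Nat.mul_le_mul (Nat.mul_le_mul_right _ hn) hm
    _ = n ^ (2 * c + 11) := by ring
    _ ≤ n ^ (2 * c + 20) := Nat.pow_le_pow_right (by omega) (by omega)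

theorem card_bd {c : ℕ} (hn : 2 ≤ n) {p : ℕ} (hp : n ^ (2 * c + 20) < p) :
    (1 + Fintype.card (Fin n × Fin n) + Fintype.card (Fin n × Fin n) ^ 2) *
      (2 * n ^ (2 + 2) * Fintype.card (Fin n × Fin n)) < p := by
  refine lt_of_le_of_lt ?_ hp
  rw [Fintype.card_prod, Fintype.card_fin]
  have h1 : 1 + n * n + (n * n) ^ 2 ≤ n ^ 7 := by
    have h2 : 1 + n * n + (n * n) ^ 2 ≤ n ^ 4 + n ^ 4 + n ^ 4 := by
      have e1 : 1 ≤ n ^ 4 := Nat.one_le_pow _ _ (by omega)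
      have e2 : n * n ≤ n ^ 4 := by
        calc n * n = n ^ 2 := by ring
          _ ≤ n ^ 4 := Nat.pow_le_pow_right (by omega) (by omega)
      have e3 : (n * n) ^ 2 = n ^ 4 := by ring
      omega
    have h3 : n ^ 7 = n ^ 3 * n ^ 4 := by ring
    have h4 : 8 ≤ n ^ 3 := by
      calc 8 = 2 ^ 3 := by norm_num
        _ ≤ n ^ 3 := Nat.pow_le_pow_left hn 3
    rw [h3]
    nlinarith [Nat.one_le_pow 4 n (by omega)]
  calc (1 + n * n + (n * n) ^ 2) * (2 * n ^ (2 + 2) * (n * n)) ≤ n ^ 7 * (n * n ^ (2 + 2) * (n * n)) := by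
        refine Nat.mul_le_mul h1 ?_
        refine Nat.mul_le_mul_right _ (Nat.mul_le_mul_right _ hn)
    _ = n ^ 14 := by ring
    _ ≤ n ^ (2 * c + 20) := Nat.pow_le_pow_right (by omega) (by omega)

theorem zdet_eq' {B : Fin n × Fin n → Fin n × Fin n → ℤ} (inst : DecidableEq (Fin n × Fin n)) :
    zdet (T := fun n => Fin n × Fin n) B = @Matrix.det (Fin n × Fin n) inst _ ℤ _ (Matrix.of B) :=
  zdet_eq (T := fun n => Fin n × Fin n) inst B

/-- decidability instances are equal -/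
theorem use_inst {α : Type} {P : DecidableEq α → Prop} {i : DecidableEq α} (j : DecidableEq α) (h : P i) :
    P j := by
  rw [Subsingleton.elim j i]
  exact h

/-- what is needed for both directions -/
theorem acc_inv {c : ℕ} (hn : 2 ≤ n) (G : SimpleGraph (Fin n)) {k t p m : S n} [Fact (nv p).Prime]
    (hm1 : 1 ≤ nv m) (hm2 : nv m ≤ n ^ (2 * c + 8)) (hp : n ^ (2 * c + 20) < nv p) :
    (∃ y : S n, nd p (zdet (T := fun n => Fin n × Fin n)
      (wx (T := fun n => Fin n × Fin n) (wT m) (B0s G k t) y))) ↔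
    (wM (T := fun n => Fin n × Fin n) p (wT m) (B0s G k t)).det ≠ 0 := by
  classical
  have hw := wT_ok (n := n) (p := p) hm1 (pow_bd hn hm2 hp)
  have h := det_iff (T := fun n => Fin n × Fin n) (B := B0s G k t) hw
  constructor
  · rintro ⟨y, hy⟩
    have h2 := h.1 ⟨y, by
      rw [zdet_eq' (fun a b => Classical.propDecidable (a = b))] at hy
      exact hy⟩
    exact use_inst (P := fun i => @Matrix.det (Fin n × Fin n) i _ _ _
      (wM (T := fun n => Fin n × Fin n) p (wT m) (B0s G k t)) ≠ 0) _ h2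
  · intro hd
    obtain ⟨y, hy⟩ := h.2 (use_inst (P := fun i => @Matrix.det (Fin n × Fin n) i _ _ _
      (wM (T := fun n => Fin n × Fin n) p (wT m) (B0s G k t)) ≠ 0) _ hd)
    refine ⟨y, ?_⟩
    rw [zdet_eq' (fun a b => Classical.propDecidable (a = b))]
    exact hy

theorem acc_sound {c : ℕ} (hn : 2 ≤ n) (G : SimpleGraph (Fin n)) {e : S n × (S n × (S n × S n))}
    (h : acc c G e) : HasPM G := by
  classical
  obtain ⟨k, t, p, m⟩ := e
  obtain ⟨⟨hp, hm, ⟨hm2, _⟩, hp2⟩, hdet, hfin⟩ := h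
  simp only at hp hm hm2 hp2 hdet hfin
  haveI : Fact (nv p).Prime := ⟨(prS_iff p).1 hp⟩
  have hp3 : n ^ (2 * c + 20) < nv p := by
    by_contra hc
    exact hp2 ⟨by omega, by omega⟩
  have hm1 : 1 ≤ nv m := by omega
  have hb := pow_bd hn hm2 hp3
  have hw := wT_ok (n := n) (p := p) hm1 hb
  have hd := (acc_inv hn G hm1 hm2 hp3).1 hdet
  have hp4 : nv p ≠ 2 := by
    have : 2 ^ 1 ≤ n ^ (2 * c + 20) :=
      (Nat.pow_le_pow_left hn 1).trans (Nat.pow_le_pow_right (by omega) (by omega))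
    omega
  have hinv := B0s_inv (p := p) G k t m hm1 hb hd
  obtain ⟨f, hf1, hf2⟩ := finF_sound (T := fun n => Fin n × Fin n) (Ok := okF G) (Du := du) hp4
    (fun u v huv => ⟨huv.2.1, huv.1, huv.2.2.symm⟩) (fun u hu => G.irrefl hu.2.2) hw
    (use_inst (P := fun i => @FNC.Inv (Fin n × Fin n) _ _ i _ du (okF G)
      (wM (T := fun n => Fin n × Fin n) p (wT m) (B0s G k t))) _ hinv) hfin
  rw [hasPM_iff]
  have h0 : ∀ v : Fin n, ¬ du ((⟨0, by omega⟩ : Fin n), v) := fun v hv => hv rfl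
  have hO : ∀ t : {t : Fin n × Fin n // ¬ du t}, t.1.1 = ⟨0, by omega⟩ := fun t =>
    Fin.ext (not_not.1 t.2)
  refine ⟨fun v => (f ⟨_, h0 v⟩).1.2, fun v => ?_, fun v => (hf2 ⟨_, h0 v⟩).2.2⟩
  have e1 : (⟨_, h0 (f ⟨_, h0 v⟩).1.2⟩ : {t : Fin n × Fin n // ¬ du t}) = f ⟨_, h0 v⟩ := by
    apply Subtype.ext
    exact Prod.ext (hO (f ⟨_, h0 v⟩)).symm rfl
  show (f ⟨_, h0 (f ⟨_, h0 v⟩).1.2⟩).1.2 = v
  rw [e1, hf1]

theorem stages_bd {c a x n : ℕ} (hn : 2 ≤ n) (ha : a ≤ 2 * Nat.log 2 n ^ c) (hx : x ≤ 2 * Nat.log 2 n ^ c) :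
    a * (x ^ 2 + 2) + x ^ 2 + 1 ≤ (40 * Nat.size n) ^ (3 * c + 3 + 1) := by
  have h1 := size_log (n := n) (by omega)
  set l := Nat.log 2 n with hl
  have hl1 : 1 ≤ l := by
    rw [hl]
    exact Nat.log_pos (by norm_num) hn
  set y := l ^ c with hy
  have hy1 : 1 ≤ y := Nat.one_le_pow _ _ hl1
  have h2 : x ^ 2 ≤ 4 * y ^ 2 := by nlinarith
  have h3 : a * (x ^ 2 + 2) + x ^ 2 + 1 ≤ 17 * y ^ 3 := by
    have e1 : a * (x ^ 2 + 2) ≤ 2 * y * (4 * y ^ 2 + 2) := Nat.mul_le_mul ha (by omega)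
    have e2 : y ≤ y ^ 3 := by nlinarith [Nat.one_le_pow 2 y hy1]
    have e3 : y ^ 2 ≤ y ^ 3 := Nat.pow_le_pow_right hy1 (by omega)
    have e4 : 1 ≤ y ^ 3 := Nat.one_le_pow _ _ hy1
    nlinarith
  refine h3.trans ?_
  calc 17 * y ^ 3 = 17 * l ^ (3 * c) := by rw [hy, ← pow_mul, mul_comm c 3]
    _ ≤ 40 * (40 * Nat.size n) ^ (3 * c) := by
        refine Nat.mul_le_mul (by norm_num) (Nat.pow_le_pow_left (by omega) _)
    _ ≤ (40 * Nat.size n) * (40 * Nat.size n) ^ (3 * c) := Nat.mul_le_mul_right _ (by omega)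
    _ = (40 * Nat.size n) ^ (3 * c + 1) := by ring
    _ ≤ (40 * Nat.size n) ^ (3 * c + 3 + 1) := Nat.pow_le_pow_right (by omega) (by omega)

theorem acc_complete {c : ℕ} (hS : 2 * c + 30 ≤ dim S) (hn : 2 ≤ n) (G : SimpleGraph (Fin n))
    {m₀ : ℕ} {X : Finset (Fin n)} {f : Fin n → Fin n} (h1 : 1 ≤ m₀) (h2 : m₀ < n ^ (2 * c + 8))
    (hF : ForcW G (wE m₀) X f) (hX : X.card ≤ 2 * Nat.log 2 n ^ c) :
    ∃ e : S n × (S n × (S n × S n)), acc c G e := by
  classical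
  obtain ⟨p₀, hp₀, hlt, hle⟩ := Nat.exists_prime_lt_and_le_two_mul (n ^ (2 * c + 20))
    (by positivity)
  have hp1 : p₀ < n ^ dim S := by
    calc p₀ ≤ 2 * n ^ (2 * c + 20) := hle
      _ ≤ n * n ^ (2 * c + 20) := Nat.mul_le_mul_right _ hn
      _ = n ^ (2 * c + 21) := by ring
      _ < n ^ dim S := Nat.pow_lt_pow_right (by omega) (by omega)
  obtain ⟨p, rfl⟩ := nv_surj (S := S) hp1
  obtain ⟨m, rfl⟩ := nv_surj (S := S) (n := n) (m := m₀)
    (lt_of_lt_of_le h2 (Nat.pow_le_pow_right (by omega) (by omega)))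
  haveI : Fact (nv p).Prime := ⟨hp₀⟩
  have hb := pow_bd hn h2.le hlt
  have hw := wT_ok (n := n) (p := p) h1 hb
  have hp4 : nv p ≠ 2 := by
    have : 2 ^ 1 ≤ n ^ (2 * c + 20) :=
      (Nat.pow_le_pow_left hn 1).trans (Nat.pow_le_pow_right (by omega) (by omega))
    omega
  obtain ⟨k, t, hk, hd⟩ := exists_init (p := p) hn (by omega)
    (lt_of_le_of_lt (Nat.pow_le_pow_right (by omega) (by omega)) hlt) G m X
    (fun z hz hz2 => hX_aK hp4 hF z hz hz2)
  have hinv := B0s_inv (p := p) G k t m h1 hb hd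
  have hact := B0s_act (p := p) G k t m h1 hb
  refine ⟨(k, (t, (p, m))), ⟨(prS_iff p).2 hp₀, by show ¬ nv m = 0; omega,
    ⟨h2.le, by omega⟩, fun hc => absurd hlt (not_lt.2 hc.1)⟩,
    (acc_inv hn G h1 h2.le hlt).2 hd, ?_⟩
  have h0 : ∀ v : Fin n, ¬ du ((⟨0, by omega⟩ : Fin n), v) := fun v hv => hv rfl
  let o : Fin n → Fin n × Fin n := fun v => (⟨0, by omega⟩, v)
  have ho : Function.Injective o := fun u v h => congrArg Prod.snd h
  have hmem : ∀ t : Fin n × Fin n, t ∈ X.image o ↔ isO t ∧ t.2 ∈ X := by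
    intro t
    rw [Finset.mem_image]
    constructor
    · rintro ⟨v, hv, rfl⟩
      exact ⟨rfl, hv⟩
    · rintro ⟨h1, h2⟩
      exact ⟨t.2, h2, Prod.ext (Fin.ext h1.symm) rfl⟩
  have hcard : (X.image o).card = X.card := Finset.card_image_of_injective _ ho
  refine finF_complete (T := fun n => Fin n × Fin n) (Ok := okF G) (Du := du) hp4
    (fun u v huv => ⟨huv.2.1, huv.1, huv.2.2.symm⟩) (fun u hu => G.irrefl hu.2.2) hw
    (card_bd (c := c) hn hlt) (X.image o) ?_ (fun t => o (f t.2)) ?_ ?_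
    (use_inst (P := fun i => @FNC.Inv (Fin n × Fin n) _ _ i _ du (okF G)
      (wM (T := fun n => Fin n × Fin n) p (wT m) (B0s G k t))) _ hinv) ?_
  · intro x hx hdu
    exact hdu ((hmem x).1 hx).1
  · intro x hx
    obtain ⟨hx1, hx2⟩ := (hmem x).1 hx
    have e0 : o x.2 = x := Prod.ext (Fin.ext hx1.symm) rfl
    refine ⟨(hmem _).2 ⟨rfl, hF.mem _ hx2⟩, ?_, ?_, hx1, rfl, hF.pm.adj _⟩
    · show o (f (f x.2)) = x
      rw [hF.pm.invol, e0]
    · intro h
      have h3 : f x.2 = x.2 := congrArg Prod.snd h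
      have h4 := hF.pm.adj x.2
      rw [h3] at h4
      exact G.irrefl h4
  · intro B hB z hz1 hz2
    refine hX_all hn hF B (use_inst (P := fun i => @FNC.Inv (Fin n × Fin n) _ _ i _ du (okF G)
      (wM (T := fun n => Fin n × Fin n) p (wT m) B)) _ hB) z (fun t ht => ⟨(hz1 t ht).1, fun h => (hz1 t ht).2
      ((hmem t).2 h)⟩) (fun u hu hu2 => hz2 u hu fun h => hu2 ((hmem u).1 h))
  · have h5 := hact.trans (hk.trans hX)
    refine le_trans ?_ (stages_bd (c := c) hn (a := 2 * Nat.log 2 n ^ c) (x := X.card) le_rfl hX)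
    rw [hcard]
    refine Nat.add_le_add_right (Nat.add_le_add_right (Nat.mul_le_mul_right _ ?_) _) _
    exact use_inst (P := fun j => {i | @ActM (Fin n × Fin n) _ j _ du
      (wM (T := fun n => Fin n × Fin n) p (wT m) (B0s G k t)) i}.ncard ≤ 2 * Nat.log 2 n ^ c) _ h5

end main

/-- **the main theorem, abstract form** -/
theorem local_inNC (c : ℕ) : ∃ P : ∀ n : ℕ, SimpleGraph (Fin n) → Prop, InNC P ∧
    (∀ n G, P n G → HasPM G) ∧
    (∀ (n : ℕ) (G : SimpleGraph (Fin n)) (X : Finset (Fin n)), X.card ≤ 2 * Nat.log 2 n ^ c →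
      (∃ M : (G.induce {v | v ∈ X}).Subgraph, M.IsPerfectMatching) →
      (∃ M : (G.induce {v | v ∉ X}).Subgraph, M.IsPerfectMatching) →
      (niceCycles (G.induce {v | v ∉ X})).ncard ≤ n ^ c → P n G) ∧
    ∀ (n : ℕ) (G : SimpleGraph (Fin n)), HasPM G →
      Nat.card {M : G.Subgraph // M.IsPerfectMatching} ≤ 2 ^ Nat.log 2 n ^ c → P n G := by
  obtain ⟨S, i1, i2, hS⟩ := exists_SS (2 * c + 30)
  refine ⟨fun n G => (n < 2 ∧ HasPM G) ∨ (2 ≤ n ∧ ∃ e : S n × (S n × (S n × S n)), acc c G e),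
    ?_, ?_, ?_, ?_⟩
  · refine inNC_small (Q := fun n G => ∃ e : S n × (S n × (S n × S n)), acc c G e) ?_ ?_
    · refine DefP.ex (F := fun n => S n × (S n × (S n × S n))) ?_
      exact DefP.comp (F := fun n => S n × (S n × (S n × S n)))
        (f := fun n (y : Unit × (S n × (S n × (S n × S n)))) => y.2)
        (defP_acc (by omega) c) (Tm.snd Tm.id)
    · intro n G hn
      constructor
      · rintro (h | h)
        · omega
        · exact h.2
      · exact fun h => Or.inr ⟨hn, h⟩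
  · rintro n G (h | h)
    · exact h.2
    · obtain ⟨hn, e, he⟩ := h
      exact acc_sound hn G he
  · intro n G X hX hL1 hL2 hL3
    rcases Nat.lt_or_ge n 2 with hn | hn
    · refine Or.inl ⟨hn, ?_⟩
      obtain ⟨M1, hM1⟩ := hL1
      obtain ⟨M2, hM2⟩ := hL2
      have hsub : ∀ u v : Fin n, u = v := fun u v => Fin.ext (by omega)
      have hno : ∀ v : Fin n, False := by
        intro v
        by_cases hv : v ∈ X
        · obtain ⟨w, hw, _⟩ := hM1.1 (hM1.2 ⟨v, hv⟩)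
          exact hw.adj_sub.ne (Subtype.ext (hsub _ _))
        · obtain ⟨w, hw, _⟩ := hM2.1 (hM2.2 ⟨v, hv⟩)
          exact hw.adj_sub.ne (Subtype.ext (hsub _ _))
      rw [hasPM_iff]
      exact ⟨fun v => v, fun v => rfl, fun v => (hno v).elim⟩
    · refine Or.inr ⟨hn, ?_⟩
      obtain ⟨m₀, f, h1, h2, hF⟩ := exists_forcW_nice hn hL1 hL2 hL3
      exact acc_complete (by omega) hn G h1 h2 hF hX
  · intro n G hPM hc
    rcases Nat.lt_or_ge n 2 with hn | hn
    · exact Or.inl ⟨hn, hPM⟩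
    · refine Or.inr ⟨hn, ?_⟩
      obtain ⟨X, f, hX, hF⟩ := exists_forcW_card (G := G) hPM hc
      have h1 : 1 < n ^ (2 * c + 8) := Nat.one_lt_pow (by omega) (by omega)
      exact acc_complete (by omega) hn G le_rfl h1 hF hX

end Pool.Agent.PMNC
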