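import Pool.Agent.Lib.MP_0087d5_lc.FN.Bri2
import Pool.Agent.Lib.MP_0087d5_lc.FRC.Start

set_option autoImplicit false
set_option linter.all false

/-!
# The number of stages
-/

namespace Pool.Agent.PMNC

open Relation Matrix FNC Polynomial

/-- an abstract iteration: `a` is the number of active dummies, `fl` says that the next step removes
two of them, `rho` is the other potential -/
theorem iter_bound {W : Type*} (step : W → W) (a rho : W → ℕ) (fl inv : W → Prop) (N : ℕ)
    (h1 : ∀ x, inv x → inv (step x)) (h2 : ∀ x, inv x → rho x ≤ N)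
    (h3 : ∀ x, inv x → fl x → a (step x) < a x)
    (h4 : ∀ x, inv x → ¬ fl x → a x ≠ 0 →
      a (step x) = a x ∧ (fl (step x) ∨ rho x < rho (step x)))
    (h5 : ∀ x, inv x → a x = 0 → a (step x) = 0) (j : ℕ) (x : W) (hx : inv x)
    (hj : a x * (N + 2) + N + 1 ≤ j) : a (step^[j] x) = 0 := by
  classical
  set μ : W → ℕ := fun x => if a x = 0 then 0 else a x * (N + 2) + if fl x then 0 else N + 1 - rho x
    with hμ
  have hdec : ∀ x, inv x → a x ≠ 0 → μ (step x) < μ x := by
    intro x hx ha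
    have h2' := h2 x hx
    have h2s := h2 _ (h1 x hx)
    have hμx : μ x = a x * (N + 2) + if fl x then 0 else N + 1 - rho x := if_neg ha
    by_cases hf : fl x
    · have h6 := h3 x hx hf
      rw [hμx, if_pos hf, add_zero]
      by_cases ha' : a (step x) = 0
      · have h7 : μ (step x) = 0 := if_pos ha'
        rw [h7]
        exact Nat.mul_pos (Nat.pos_of_ne_zero ha) (by omega)
      · have h7 : μ (step x) = a (step x) * (N + 2) + if fl (step x) then 0 else N + 1 - rho (step x) :=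
          if_neg ha'
        have h8 : μ (step x) ≤ a (step x) * (N + 2) + (N + 1) := by
          rw [h7]
          split_ifs <;> omega
        have h9 : (a (step x) + 1) * (N + 2) ≤ a x * (N + 2) := Nat.mul_le_mul_right _ h6
        rw [Nat.add_mul] at h9
        omega
    · obtain ⟨h6, h7⟩ := h4 x hx hf ha
      have hμs : μ (step x) = a x * (N + 2) + if fl (step x) then 0 else N + 1 - rho (step x) := by
        have h8 : a (step x) ≠ 0 := by rw [h6]; exact ha
        have h9 : μ (step x) = a (step x) * (N + 2) + if fl (step x) then 0 else N + 1 - rho (step x) :=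
          if_neg h8
        rw [h9, h6]
      rw [hμx, hμs, if_neg hf]
      by_cases hf' : fl (step x)
      · rw [if_pos hf']
        omega
      · rw [if_neg hf']
        rcases h7 with h7 | h7
        · exact absurd h7 hf'
        · omega
  have hmain : ∀ j x, inv x → μ x ≤ j → a (step^[j] x) = 0 := by
    intro j
    induction j with
    | zero =>
      intro x hx hj
      by_contra ha
      have h6 := hdec x hx ha
      omega
    | succ j ih =>
      intro x hx hj
      rw [Function.iterate_succ_apply]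
      by_cases ha : a x = 0
      · refine ih _ (h1 x hx) ?_
        have h6 : μ (step x) = 0 := if_pos (h5 x hx ha)
        omega
      · have h6 := hdec x hx ha
        exact ih _ (h1 x hx) (by omega)
  refine hmain j x hx ?_
  have h6 : μ x ≤ a x * (N + 2) + (N + 1) := by
    rw [hμ]
    dsimp only
    split_ifs <;> omega
  omega

section rho
variable {T K : Type*} [Fintype T] [DecidableEq T] [Field K]

open Classical in
/-- the potential: pairs of vertices of `X` that are connected inside the labelled vertices -/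
noncomputable def rhoM (Du : T → Prop) (Ok : T → T → Prop) (X : Finset T) (M : Matrix T T K) : ℕ :=
  ((X ×ˢ X).filter fun x => LbM Du M x.1 ∧ LbM Du M x.2 ∧ Cn Ok (LbM Du M) x.1 x.2).card

open Classical in
theorem rhoM_le (Du : T → Prop) (Ok : T → T → Prop) (X : Finset T) (M : Matrix T T K) :
    rhoM Du Ok X M ≤ X.card ^ 2 := by
  unfold rhoM
  refine (Finset.card_filter_le _ _).trans ?_
  rw [Finset.card_product, pow_two]

theorem Cn_mono {Adj : T → T → Prop} {D D' : T → Prop} (h : ∀ w, D w → D' w) {x y : T}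
    (hxy : Cn Adj D x y) : Cn Adj D' x y := by
  have h1 : ∀ a b, (D a ∧ D b ∧ Adj a b) → D' a ∧ D' b ∧ Adj a b :=
    fun a b h1 => ⟨h a h1.1, h b h1.2.1, h1.2.2⟩
  exact Relation.ReflTransGen.mono h1 _ _ hxy

open Classical in
/-- the potential rises. From `progress` with `D' := LbM Du N`, and `Inv.sk`. -/
theorem rho_lt {Du : T → Prop} {Ok : T → T → Prop} {M N : Matrix T T K} (hK : (2 : K) ≠ 0)
    (h : Inv Du Ok M) (hsym : ∀ u v, Ok u v → Ok v u)
    (ha : ∃ i, ActM Du M i) (hfl : ¬ FlM Du M) (hpar : ParM Du Ok M)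
    (hN : ∀ v, (LbM Du M v ∨ RcM Du Ok M v) → LbM Du N v)
    (X : Finset T) (hXO : ∀ x ∈ X, ¬ Du x)
    (hX : ∀ z : T → K, (∀ t, z t ≠ 0 → ¬ Du t ∧ t ∉ X) →
      (∀ u, ¬ Du u → u ∉ X → ∑ v, M u v * z v = 0) → ∀ t, z t = 0)
    (m : T → T) (hm : ∀ x ∈ X, m x ∈ X ∧ m (m x) = x ∧ m x ≠ x ∧ Ok x (m x)) :
    rhoM Du Ok X M < rhoM Du Ok X N := by
  have hm1 : ∀ w, LbM Du M w → LbM Du N w := fun w hw => hN w (Or.inl hw)
  have hp := FNC.progress (h.sk hK hsym) ha
    (fun d d' hd hd' => by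
      by_contra hq
      exact hfl ⟨d, d', hd, hd', hq⟩)
    hpar (LbM Du N) (fun w hw => hw.1) hm1 (fun w hw => hN w (Or.inr hw)) X hXO hX m hm
  unfold rhoM
  refine Finset.card_lt_card ?_
  rw [Finset.ssubset_iff_of_subset]
  · rcases hp with ⟨x, hx, h1, h2⟩ | ⟨x, hx, y, hy, h1, h2, h3, h4⟩
    · refine ⟨(x, x), ?_, ?_⟩
      · rw [Finset.mem_filter, Finset.mem_product]
        exact ⟨⟨hx, hx⟩, h1, h1, Relation.ReflTransGen.refl⟩
      · rw [Finset.mem_filter]
        rintro ⟨_, h3, _⟩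
        exact h2 h3
    · refine ⟨(x, y), ?_, ?_⟩
      · rw [Finset.mem_filter, Finset.mem_product]
        exact ⟨⟨hx, hy⟩, hm1 x h1, hm1 y h2, h4⟩
      · rw [Finset.mem_filter]
        rintro ⟨_, _, _, h5⟩
        exact h3 h5
  · intro x hx
    rw [Finset.mem_filter] at hx ⊢
    exact ⟨hx.1, hm1 _ hx.2.1, hm1 _ hx.2.2.1, Cn_mono hm1 hx.2.2.2⟩

end rho

section pot
variable {T S : ℕ → Type} [Env T] [Env S] [∀ n, Fintype (T n)] [∀ n, Fintype (S n)] {n : ℕ}
variable {p : S n} {Du : T n → Prop} {Ok : T n → T n → Prop} {w : T n → T n → ℕ}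

theorem two_ne [Fact (nv p).Prime] (hp2 : nv p ≠ 2) : (2 : RatFunc (ZMod (nv p))) ≠ 0 := by
  have h1 : (2 : ZMod (nv p)) ≠ 0 := by
    have h2 : ((2 : ℕ) : ZMod (nv p)) ≠ 0 := by
      intro h
      rw [ZMod.natCast_eq_zero_iff] at h
      exact hp2 ((Nat.prime_dvd_prime_iff_eq (Fact.out : (nv p).Prime) Nat.prime_two).1 h)
    exact_mod_cast h2
  intro h
  apply h1
  have h3 : (algebraMap (ZMod (nv p)) (RatFunc (ZMod (nv p)))) 2 = 0 := by
    rw [map_ofNat]
    exact h
  exact (map_eq_zero _).1 h3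

theorem cK_inj [Fact (nv p).Prime] : Function.Injective (cK p) := by
  intro a b h
  have h1 := IsFractionRing.injective (ZMod (nv p))[X] (RatFunc (ZMod (nv p))) h
  exact C_injective h1

theorem cK_pow [Fact (nv p).Prime] (a : ZMod (nv p)) (k : ℕ) : cK p a ^ k = cK p (a ^ k) := by
  unfold cK
  rw [← map_pow, ← map_pow]

theorem omK_ne [Fact (nv p).Prime] (r c : T n) : omK p w r c ≠ 0 := by
  unfold omK
  intro h
  rw [map_eq_zero_iff _ (IsFractionRing.injective (ZMod (nv p))[X] (RatFunc (ZMod (nv p))))] at h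
  exact pow_ne_zero _ X_ne_zero h

theorem omK_symm [Fact (nv p).Prime] {N : ℕ} (hw : Wok p Du w N) (r c : T n) :
    omK p w r c = omK p w c r := by
  unfold omK
  rw [hw.symm r c]

open Classical in
/-- the invariant holds in all stages -/
theorem inv_step [Fact (nv p).Prime] (hp2 : nv p ≠ 2) (hsym : ∀ u v, Ok u v → Ok v u)
    (hirr : ∀ u, ¬ Ok u u) {N : ℕ} (hw : Wok p Du w N)
    {B : T n → T n → ℤ} (h : Inv Du Ok (wM p w B)) : Inv Du Ok (wM p w (nxF p Du Ok w B)) := by
  by_cases hf : FlM Du (wM p w B)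
  · obtain ⟨d, d', hd, hd', hq, he⟩ := nxF_fl (Ok := Ok) hw h.det hf
    rw [he]
    exact (Inv.rem (two_ne hp2) h hsym hd hd' hq).1
  · by_cases ha : (∃ i, ActM Du (wM p w B) i) ∧ ∃ s e : ZMod (nv p), GoodM Du Ok (wM p w B)
      (wM p w B + cK p e • Cs Du Ok ltT ixT (omK p w) (cK p s))
    · obtain ⟨s, e, hg, he⟩ := nxF_good hw h.det hf ha.1 ha.2
      rw [he]
      exact Inv.pert h hsym ltT ltT_iff hirr ixT (omK p w) (omK_symm hw) _ _ hg
    · rw [nxF_stay hw h.det hf ha]
      exact h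

open Classical in
theorem inv_iter [Fact (nv p).Prime] (hp2 : nv p ≠ 2) (hsym : ∀ u v, Ok u v → Ok v u)
    (hirr : ∀ u, ¬ Ok u u) {N : ℕ} (hw : Wok p Du w N)
    {B : T n → T n → ℤ} (h : Inv Du Ok (wM p w B)) (j : ℕ) :
    Inv Du Ok (wM p w (vlF ((stgF p Du Ok w)^[j] (rlF p B)))) := by
  induction j with
  | zero =>
    rw [Function.iterate_zero, id_eq, wM_rlF]
    exact h
  | succ j ih =>
    rw [Function.iterate_succ_apply', wM_stgF]
    exact inv_step hp2 hsym hirr hw ih

open Classical in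
/-- soundness: a perfect matching on the vertices. A nonsingular matrix that is skew-symmetric on the
vertices and trivial on the dummies has a perfect matching in its support (`det_eq_sum_col` of `Uni.lean`). -/
theorem finF_sound [Fact (nv p).Prime] (hp2 : nv p ≠ 2) (hsym : ∀ u v, Ok u v → Ok v u)
    (hirr : ∀ u, ¬ Ok u u) {N : ℕ} (hw : Wok p Du w N)
    {B : T n → T n → ℤ} (h : Inv Du Ok (wM p w B)) {j : ℕ}
    (hf : finF p Du w ((stgF p Du Ok w)^[j] (rlF p B))) :
    ∃ m : {t // ¬ Du t} → {t // ¬ Du t}, (∀ v, m (m v) = v) ∧ ∀ v, Ok v.1 (m v).1 := by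
  have hI := inv_iter hp2 hsym hirr hw h j
  set M := wM p w (vlF ((stgF p Du Ok w)^[j] (rlF p B))) with hM
  have hact : ∀ i, Du i → InaM M i := by
    intro i hi
    by_contra hc
    exact hf.2 i ((act_iff hw i).2 ⟨hi, hc⟩)
  let G : SimpleGraph {t // ¬ Du t} :=
    { Adj := fun u v => Ok u.1 v.1
      symm := ⟨fun u v huv => hsym _ _ huv⟩
      loopless := ⟨fun u hu => hirr _ hu⟩ }
  have hdet := Matrix.twoBlockTriangular_det M (fun t => ¬ Du t) (by
    intro i hi k hk
    rw [not_not] at hi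
    rw [(hact i hi k).1, Matrix.one_apply_ne]
    rintro rfl
    exact hk hi)
  have hd : (Matrix.toSquareBlockProp M fun t => ¬ Du t).det ≠ 0 := by
    intro h0
    apply hI.det
    rw [hdet, h0, zero_mul]
  obtain ⟨m, hm⟩ := FRC.Uni.exists_pmf_of_det (G := G) (Matrix.toSquareBlockProp M fun t => ¬ Du t)
    (fun v => hI.diagO v.1 v.2) (fun u v => by
      by_cases huv : u = v
      · rw [huv]
        change M v.1 v.1 = - M v.1 v.1
        rw [hI.diagO v.1 v.2, neg_zero]
      · exact hI.skew u.1 v.1 fun hc => huv (Subtype.ext hc))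
    (fun u v huv => (hI.ok u.1 v.1 u.2 v.2).1 huv) hd
  exact ⟨m, hm.invol, fun v => hm.adj v⟩

open Classical in
/-- completeness -/
theorem finF_complete [Fact (nv p).Prime] (hp2 : nv p ≠ 2) (hsym : ∀ u v, Ok u v → Ok v u)
    (hirr : ∀ u, ¬ Ok u u) {N : ℕ} (hw : Wok p Du w N)
    (hc : (1 + Fintype.card (T n) + Fintype.card (T n) ^ 2) *
      (2 * n ^ (dim T + dim T) * Fintype.card (T n)) < nv p)
    (X : Finset (T n)) (hXO : ∀ x ∈ X, ¬ Du x)
    (m : T n → T n) (hm : ∀ x ∈ X, m x ∈ X ∧ m (m x) = x ∧ m x ≠ x ∧ Ok x (m x))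
    (hX : ∀ B : T n → T n → ℤ, Inv Du Ok (wM p w B) →
      ∀ z : T n → RatFunc (ZMod (nv p)), (∀ t, z t ≠ 0 → ¬ Du t ∧ t ∉ X) →
        (∀ u, ¬ Du u → u ∉ X → ∑ v, wM p w B u v * z v = 0) → ∀ t, z t = 0)
    {B : T n → T n → ℤ} (h : Inv Du Ok (wM p w B)) {j : ℕ}
    (hj : {i | ActM Du (wM p w B) i}.ncard * (X.card ^ 2 + 2) + X.card ^ 2 + 1 ≤ j) :
    finF p Du w ((stgF p Du Ok w)^[j] (rlF p B)) := by
  have hK := two_ne (p := p) hp2
  -- good parameters exist
  have hgood : ∀ B : T n → T n → ℤ, Inv Du Ok (wM p w B) → ¬ FlM Du (wM p w B) →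
      ∃ s e : ZMod (nv p), GoodM Du Ok (wM p w B)
        (wM p w B + cK p e • Cs Du Ok ltT ixT (omK p w) (cK p s)) := by
    intro B hB hfl
    have hS : (1 + Fintype.card (T n) + Fintype.card (T n) ^ 2) *
        (2 * n ^ (dim T + dim T) * Fintype.card (T n)) <
        (Finset.univ.image (cK p)).card := by
      rw [Finset.card_image_of_injective _ cK_inj, Finset.card_univ, ZMod.card]
      exact hc
    obtain ⟨s, hs, hg⟩ := exists_good hK hB hsym hirr hfl ltT ltT_iff ixT ixT_inj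
      (L := n ^ (dim T + dim T)) ixT_lt (omK p w) (omK_symm hw) omK_ne
      (Finset.univ.image (cK p)) hS
    obtain ⟨s₀, -, rfl⟩ := Finset.mem_image.1 hs
    rw [cK_pow] at hg
    exact ⟨s₀, _, hg⟩
  have hrho : ∀ B : T n → T n → ℤ, Inv Du Ok (wM p w B) → ¬ FlM Du (wM p w B) →
      (∃ i, ActM Du (wM p w B) i) →
      {i | ActM Du (wM p w (nxF p Du Ok w B)) i}.ncard = {i | ActM Du (wM p w B) i}.ncard ∧
      (FlM Du (wM p w (nxF p Du Ok w B)) ∨
        rhoM Du Ok X (wM p w B) < rhoM Du Ok X (wM p w (nxF p Du Ok w B))) := by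
    intro B hB hfl ha
    obtain ⟨s, e, hg, he⟩ := nxF_good hw hB.det hfl ha (hgood B hB hfl)
    rw [he]
    constructor
    · congr 1
      ext i
      exact act_pert _ _ _ _ _ _ i
    · rcases hg.2.2 with h1 | h1
      · exact Or.inl h1
      · right
        exact rho_lt hK hB hsym ha hfl h1.1 h1.2 X hXO (hX B hB) m hm
  have hmain := iter_bound (stgF p Du Ok w)
    (fun R => {i | ActM Du (wM p w (vlF R)) i}.ncard)
    (fun R => rhoM Du Ok X (wM p w (vlF R)))
    (fun R => FlM Du (wM p w (vlF R)))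
    (fun R => Inv Du Ok (wM p w (vlF R))) (X.card ^ 2)
    (fun R hR => by
      rw [wM_stgF]
      exact inv_step hp2 hsym hirr hw hR)
    (fun R _ => rhoM_le Du Ok X _)
    (fun R hR hf => by
      rw [wM_stgF]
      obtain ⟨d, d', hd, hd', hq, he⟩ := nxF_fl (Ok := Ok) hw hR.det hf
      rw [he]
      exact (Inv.rem hK hR hsym hd hd' hq).2)
    (fun R hR hf ha => by
      rw [wM_stgF]
      obtain ⟨i, hi⟩ := Set.nonempty_of_ncard_ne_zero ha
      exact hrho _ hR hf ⟨i, hi⟩)
    (fun R hR ha => by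
      rw [wM_stgF]
      have h0 : ∀ i, ¬ ActM Du (wM p w (vlF R)) i := by
        intro i hi
        rw [Set.ncard_eq_zero (Set.toFinite _)] at ha
        have h1 : i ∈ {i | ActM Du (wM p w (vlF R)) i} := hi
        rw [ha] at h1
        exact h1
      rw [nxF_stay hw hR.det (fun ⟨d, _, hd, _⟩ => h0 d hd) (fun ⟨⟨i, hi⟩, _⟩ => h0 i hi)]
      exact ha)
    j (rlF p B) (by rw [wM_rlF]; exact h) (by
      rw [wM_rlF]
      omega)
  have hI := inv_iter hp2 hsym hirr hw h j
  refine ⟨(det_iff hw).2 hI.det, fun i hi => ?_⟩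
  have h1 := (act_iff hw i).1 hi
  rw [Set.ncard_eq_zero (Set.toFinite _)] at hmain
  have h2 : i ∈ {i | ActM Du (wM p w (vlF ((stgF p Du Ok w)^[j] (rlF p B)))) i} := h1
  rw [hmain] at h2
  exact h2

end pot

end Pool.Agent.PMNC
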