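import Pool.Agent.Lib.MP_0087d5_lc.FRC.Progress

set_option autoImplicit false

/-!
# The progress lemma
-/

namespace Pool.Agent.FNC

/-- connected inside `D` -/
def Cn {T : Type*} (Adj : T → T → Prop) (D : T → Prop) : T → T → Prop :=
  Relation.ReflTransGen fun a b => D a ∧ D b ∧ Adj a b

/-- a matrix `B` with right inverse `Q`: `O` are the vertices of the graph, `Dl` the active dummies;
all other rows and columns are trivial -/
structure Sk {T K : Type*} [Fintype T] [DecidableEq T] [CommRing K] (O Dl : T → Prop) (Adj : T → T → Prop)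
    (B Q : T → T → K) : Prop where
  two : (2 : K) ≠ 0
  BQ : ∀ u v, ∑ w, B u w * Q w v = if u = v then 1 else 0
  dis : ∀ t, Dl t → ¬ O t
  Qskew : ∀ u v, (O u ∨ Dl u) → (O v ∨ Dl v) → Q u v = - Q v u
  Qout : ∀ t v, ¬ O t → ¬ Dl t → (O v ∨ Dl v) → Q t v = 0
  Bskew : ∀ u v, O u → O v → B u v = - B v u
  Badj : ∀ u v, O u → O v → B u v ≠ 0 → Adj u v
  symm : ∀ u v, Adj u v → Adj v u

/-- the labelled vertices -/
def Lb {T K : Type*} [CommRing K] (O Dl : T → Prop) (Q : T → T → K) (w : T) : Prop :=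
  O w ∧ ∃ d, Dl d ∧ Q d w ≠ 0

/-- the vertices reached from the labelled vertices by one edge -/
def Rc {T K : Type*} [CommRing K] (O Dl : T → Prop) (Adj : T → T → Prop) (Q : T → T → K) (w : T) : Prop :=
  O w ∧ ∃ d u v, Dl d ∧ O u ∧ O v ∧ Adj u v ∧ Q d u * Q v w - Q d v * Q u w ≠ 0

section Aux

open Pool.Agent.FRC Matrix

variable {T K : Type*} [Fintype T] [DecidableEq T] [Field K] {O Dl : T → Prop}
  {Adj : T → T → Prop} {B Q : T → T → K}

omit [DecidableEq T] in
open Classical in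
/-- a sum over all indices, the trivial ones give nothing -/
theorem sum_split (f : T → K) (hdis : ∀ t, Dl t → ¬ O t)
    (hf : ∀ t, ¬ O t → ¬ Dl t → f t = 0) :
    ∑ t, f t = ∑ t : {t // O t}, f t + ∑ t : {t // Dl t}, f t := by
  have h1 : ∑ t : {t // O t}, f t = ∑ t, if O t then f t else 0 := by
    rw [← Finset.sum_filter, Finset.sum_subtype (Finset.univ.filter O) (p := O) (by simp)]
  have h2 : ∑ t : {t // Dl t}, f t = ∑ t, if Dl t then f t else 0 := by
    rw [← Finset.sum_filter, Finset.sum_subtype (Finset.univ.filter Dl) (p := Dl) (by simp)]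
  rw [h1, h2, ← Finset.sum_add_distrib]
  refine Finset.sum_congr rfl fun t _ => ?_
  by_cases hO : O t
  · have hD : ¬ Dl t := fun h => hdis t h hO
    rw [if_pos hO, if_neg hD, add_zero]
  · by_cases hD : Dl t
    · rw [if_neg hO, if_pos hD, zero_add]
    · rw [if_neg hO, if_neg hD, hf t hO hD, zero_add]

/-- the inner block of `B` is skew symmetric -/
theorem Sk.bskew (S : Sk O Dl Adj B Q) {u v : T} (hu : O u ∨ Dl u) (hv : O v ∨ Dl v) :
    B u v = - B v u := by
  classical
  set Bi : Matrix {t // O t ∨ Dl t} {t // O t ∨ Dl t} K := fun a b => B a b with hBi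
  set Qi : Matrix {t // O t ∨ Dl t} {t // O t ∨ Dl t} K := fun a b => Q a b with hQi
  have h1 : Bi * Qi = 1 := by
    ext a b
    rw [Matrix.mul_apply, Matrix.one_apply]
    have h2 := S.BQ a b
    have h3 : ∑ w, B a w * Q w b = ∑ w : {t // O t ∨ Dl t}, B a w * Q w b := by
      rw [← Finset.sum_subtype (Finset.univ.filter fun t => O t ∨ Dl t)
        (p := fun t => O t ∨ Dl t) (by simp) (fun w => B a w * Q w b)]
      refine (Finset.sum_subset (Finset.subset_univ _) fun w _ hw => ?_).symm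
      have h4 : ¬ (O w ∨ Dl w) := fun h => hw (Finset.mem_filter.2 ⟨Finset.mem_univ _, h⟩)
      rw [S.Qout w b (fun h => h4 (Or.inl h)) (fun h => h4 (Or.inr h)) b.2, mul_zero]
    rw [h3] at h2
    have h4 : (∑ j, Bi a j * Qi j b) = ∑ w : {t // O t ∨ Dl t}, B a w * Q w b := rfl
    rw [h4, h2]
    by_cases hab : a = b
    · rw [if_pos hab, if_pos (congrArg Subtype.val hab)]
    · rw [if_neg hab, if_neg fun h => hab (Subtype.ext h)]
  have h2 : Qiᵀ = -Qi := by
    ext a b
    exact S.Qskew b a b.2 a.2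
  have h3 : Qi * Bi = 1 := mul_eq_one_comm.1 h1
  have h4 : -(Biᵀ * Qi) = 1 := by
    have h5 := congrArg Matrix.transpose h3
    rw [transpose_mul, h2, transpose_one, Matrix.mul_neg] at h5
    exact h5
  have h5 : -Biᵀ = Bi := by
    calc -Biᵀ = -Biᵀ * (Qi * Bi) := by rw [h3, Matrix.mul_one]
      _ = -(Biᵀ * Qi) * Bi := by rw [← Matrix.mul_assoc, Matrix.neg_mul]
      _ = Bi := by rw [h4, Matrix.one_mul]
  have h6 := congrFun (congrFun h5 ⟨v, hv⟩) ⟨u, hu⟩
  have h7 : -B u v = B v u := h6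
  rw [← h7, neg_neg]

omit [Fintype T] in
/-- connectivity in the two languages -/
theorem conn_of_cn {G : SimpleGraph {t // O t}} {D : Set {t // O t}} {D1 : T → Prop}
    (hG : ∀ a b : {t // O t}, Adj a b → a ≠ b → G.Adj a b)
    (hD1 : ∀ t, D1 t → O t) (hD : ∀ a : {t // O t}, D1 a → a ∈ D) {x y : T}
    (h : Cn Adj D1 x y) (hx : O x) (hy : O y) : Conn G D ⟨x, hx⟩ ⟨y, hy⟩ := by
  induction h with
  | refl => exact Relation.ReflTransGen.refl
  | @tail b c _ h ih =>
    have hb := hD1 b h.1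
    have h1 := ih hb
    by_cases hbc : b = c
    · subst hbc
      exact h1
    · exact Relation.ReflTransGen.tail h1
        ⟨hG ⟨b, hb⟩ ⟨c, hy⟩ h.2.2 fun h => hbc (congrArg Subtype.val h), hD ⟨b, hb⟩ h.1,
          hD ⟨c, hy⟩ h.2.1⟩

omit [Fintype T] [DecidableEq T] in
theorem cn_of_conn {G : SimpleGraph {t // O t}} {D : Set {t // O t}} {D1 : T → Prop}
    (hG : ∀ a b : {t // O t}, G.Adj a b → Adj a b) (hD : ∀ a ∈ D, D1 (a : {t // O t}))
    {x y : {t // O t}} (h : Conn G D x y) : Cn Adj D1 x y := by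
  induction h with
  | refl => exact Relation.ReflTransGen.refl
  | @tail b c _ h ih =>
    exact Relation.ReflTransGen.tail ih ⟨hD b h.2.1, hD c h.2.2, hG b c h.1⟩

end Aux

/-- **Progress lemma** -/
theorem progress {T K : Type*} [Fintype T] [DecidableEq T] [Field K] {O Dl : T → Prop}
    {Adj : T → T → Prop} {B Q : T → T → K} (S : Sk O Dl Adj B Q)
    (hne : ∃ d, Dl d) (hfl : ∀ d d', Dl d → Dl d' → Q d d' = 0)
    (hpar : ∀ d d' u v, Dl d → Dl d' → O u → O v → Adj u v → Q d u * Q d' v = Q d v * Q d' u)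
    (D' : T → Prop) (hDO : ∀ w, D' w → O w) (hD1 : ∀ w, Lb O Dl Q w → D' w)
    (hD2 : ∀ w, Rc O Dl Adj Q w → D' w)
    (X : Finset T) (hXO : ∀ x ∈ X, O x)
    (hinj : ∀ z : T → K, (∀ t, z t ≠ 0 → O t ∧ t ∉ X) →
      (∀ u, O u → u ∉ X → ∑ w, B u w * z w = 0) → ∀ t, z t = 0)
    (m : T → T) (hm : ∀ x ∈ X, m x ∈ X ∧ m (m x) = x ∧ m x ≠ x ∧ Adj x (m x)) :
    (∃ x ∈ X, D' x ∧ ¬ Lb O Dl Q x) ∨
    ∃ x ∈ X, ∃ y ∈ X, Lb O Dl Q x ∧ Lb O Dl Q y ∧ ¬ Cn Adj (Lb O Dl Q) x y ∧ Cn Adj D' x y := by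
  classical
  obtain ⟨d0, hd0⟩ := hne
  have : Nonempty {t // Dl t} := ⟨⟨d0, hd0⟩⟩
  set B0 : Matrix {t // O t} {t // O t} K := fun u v => B u v with hB0
  set R : Matrix {t // O t} {t // O t} K := fun u v => Q u v with hR
  set L : Matrix {t // Dl t} {t // O t} K := fun d v => Q d v with hL
  set U : Matrix {t // Dl t} {t // O t} K := fun d v => B d v with hU
  set G : SimpleGraph {t // O t} :=
    { Adj := fun u v => Adj u v ∧ u ≠ v
      symm := ⟨fun u v h => ⟨S.symm _ _ h.1, h.2.symm⟩⟩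
      loopless := ⟨fun u h => h.2 rfl⟩ } with hG
  set X' : Finset {t // O t} := X.subtype O with hX'
  have hmX' : ∀ v : {t // O t}, v ∈ X' ↔ (v : T) ∈ X := fun v => Finset.mem_subtype
  set mate : {t // O t} → {t // O t} := fun v =>
    if h : (v : T) ∈ X then ⟨m v, hXO _ (hm v h).1⟩ else v with hmate
  have hmate1 : ∀ v : {t // O t}, (h : (v : T) ∈ X) → mate v = ⟨m v, hXO _ (hm v h).1⟩ :=
    fun v h => dif_pos h
  -- the products
  have hsum : ∀ u v : T, (O v ∨ Dl v) → ∑ w : {t // O t}, B u w * Q w v +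
      ∑ w : {t // Dl t}, B u w * Q w v = if u = v then 1 else 0 := by
    intro u v hv
    rw [← S.BQ u v]
    refine (sum_split (fun w => B u w * Q w v) S.dis fun t h1 h2 => ?_).symm
    rw [S.Qout t v h1 h2 hv, mul_zero]
  have hsum0 : ∀ u v : T, Dl v → ∑ w : {t // O t}, B u w * Q w v =
      if u = v then 1 else 0 := by
    intro u v hv
    rw [← hsum u v (Or.inr hv)]
    have h1 : ∑ w : {t // Dl t}, B u w * Q w v = 0 :=
      Finset.sum_eq_zero fun w _ => by rw [hfl w v w.2 hv, mul_zero]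
    rw [h1, add_zero]
  have key := Pool.Agent.FRC.progress (F := K) (V := {t // O t}) (Dl := {t // Dl t})
    (G := G) (B := B0) (R := R) (L := L) (U := U) S.two
    (by
      ext u v
      exact S.Bskew v u v.2 u.2)
    (by
      intro u v h
      refine ⟨S.Badj u v u.2 v.2 h, fun huv => h ?_⟩
      subst huv
      have h1 : B u u = - B u u := S.Bskew u u u.2 u.2
      have h2 : 2 * B u u = 0 := by
        rw [two_mul]
        nth_rewrite 1 [h1]
        rw [neg_add_cancel]
      exact (mul_eq_zero.1 h2).resolve_left S.two)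
    (by
      ext u v
      exact S.Qskew v u (Or.inl v.2) (Or.inl u.2))
    (by
      ext u d
      rw [Matrix.mul_apply]
      have h1 := hsum0 u d d.2
      rw [if_neg fun h : (u : T) = d => S.dis d d.2 (h ▸ u.2)] at h1
      have h2 : (∑ j, B0 u j * Matrix.transpose L j d) = - ∑ w : {t // O t}, B u w * Q w d := by
        rw [← Finset.sum_neg_distrib]
        refine Finset.sum_congr rfl fun w _ => ?_
        change B u w * Q d w = _
        rw [S.Qskew d w (Or.inr d.2) (Or.inl w.2), mul_neg]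
      rw [h2, h1, neg_zero]
      rfl)
    (by
      ext u v
      rw [Matrix.mul_apply, Matrix.add_apply, Matrix.one_apply, Matrix.mul_apply]
      have h1 := hsum u v (Or.inl v.2)
      have h2 : (∑ j, Matrix.transpose U u j * L j v) =
          - ∑ w : {t // Dl t}, B u w * Q w v := by
        rw [← Finset.sum_neg_distrib]
        refine Finset.sum_congr rfl fun w _ => ?_
        change B w u * Q w v = _
        rw [S.bskew (Or.inr w.2) (Or.inl u.2), neg_mul]
      have h3 : (∑ j, B0 u j * R j v) = ∑ w : {t // O t}, B u w * Q w v := rfl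
      have h4 : (if u = v then (1 : K) else 0) = if (u : T) = v then 1 else 0 := by
        by_cases huv : u = v
        · rw [if_pos huv, if_pos (congrArg Subtype.val huv)]
        · rw [if_neg huv, if_neg fun h => huv (Subtype.ext h)]
      rw [h2, h3, h4, ← h1]
      ring)
    (by
      ext d d'
      rw [Matrix.mul_apply, Matrix.neg_apply, Matrix.one_apply]
      have h1 := hsum0 d d' d'.2
      have h2 : (∑ j, U d j * Matrix.transpose L j d') = - ∑ w : {t // O t}, B d w * Q w d' := by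
        rw [← Finset.sum_neg_distrib]
        refine Finset.sum_congr rfl fun w _ => ?_
        change B d w * Q d' w = _
        rw [S.Qskew d' w (Or.inr d'.2) (Or.inl w.2), mul_neg]
      rw [h2, h1]
      by_cases hdd : d = d'
      · rw [if_pos hdd, if_pos (congrArg Subtype.val hdd)]
      · rw [if_neg hdd, if_neg fun h => hdd (Subtype.ext h)])
    (by
      intro u w h d d'
      have h1 := hpar d d' u w d.2 d'.2 u.2 w.2 h.1
      change Q d u * Q d' w = Q d' u * Q d w
      rw [h1, mul_comm])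
    X' mate
    (by
      intro v hv
      have hv' := (hmX' v).1 hv
      have h1 := hm v hv'
      refine ⟨?_, ?_, ?_⟩
      · rw [hmate1 v hv', hmX']
        exact h1.1
      · rw [hmate1 v hv']
        exact ⟨h1.2.2.2, fun h => h1.2.2.1 (congrArg Subtype.val h).symm⟩
      · have h2 : mate v = ⟨m v, hXO _ h1.1⟩ := hmate1 v hv'
        rw [h2, hmate1 _ h1.1]
        exact Subtype.ext h1.2.1)
    (by
      intro x hx hBx
      have h1 := hinj (fun t => if h : O t then x ⟨t, h⟩ else 0) (by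
        intro t ht
        by_cases hO : O t
        · refine ⟨hO, fun htX => ht ?_⟩
          rw [dif_pos hO]
          exact hx ⟨t, hO⟩ ((hmX' _).2 htX)
        · exact absurd (dif_neg hO) ht) (by
        intro u hu huX
        have h2 := hBx ⟨u, hu⟩ fun h => huX ((hmX' _).1 h)
        have h3 : Matrix.mulVec B0 x ⟨u, hu⟩ = ∑ w : {t // O t}, B u w * x w := rfl
        rw [h3] at h2
        refine Eq.trans ?_ h2
        have h4 : ∑ w, B u w * (if h : O w then x ⟨w, h⟩ else 0) =
            ∑ w : {t // O t}, B u w * (if h : O (w : T) then x ⟨w, h⟩ else 0) := by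
          rw [← Finset.sum_subtype (Finset.univ.filter O) (p := O) (by simp)
            (fun w => B u w * (if h : O w then x ⟨w, h⟩ else 0))]
          refine (Finset.sum_subset (Finset.subset_univ _) fun w _ hw => ?_).symm
          rw [dif_neg fun h => hw (Finset.mem_filter.2 ⟨Finset.mem_univ _, h⟩), mul_zero]
        refine Eq.trans h4 ?_
        refine Finset.sum_congr rfl fun w _ => ?_
        rw [dif_pos w.2])
      funext t
      have h2 := h1 t
      rw [dif_pos t.2] at h2
      exact h2)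
  have hlb : ∀ v : {t // O t}, v ∈ Pool.Agent.FRC.Dom L ↔ Lb O Dl Q v := by
    intro v
    constructor
    · rintro ⟨d, hd⟩
      exact ⟨v.2, d, d.2, hd⟩
    · rintro ⟨_, d, hd, h⟩
      exact ⟨⟨d, hd⟩, h⟩
  have hdm : ∀ v ∈ Pool.Agent.FRC.Dom' G R L, D' (v : {t // O t}) := by
    rintro v (hv | ⟨d, u, w, huw, h⟩)
    · exact hD1 v ((hlb v).1 hv)
    · refine hD2 v ⟨v.2, d, u, w, d.2, u.2, w.2, huw.1, fun h0 => h ?_⟩
      change Q v u * Q d w = Q v w * Q d u
      rw [S.Qskew v u (Or.inl v.2) (Or.inl u.2), S.Qskew v w (Or.inl v.2) (Or.inl w.2)]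
      have h1 : Q d u * Q w v = Q d w * Q u v := sub_eq_zero.1 h0
      rw [neg_mul, neg_mul, mul_comm (Q u v), mul_comm (Q w v), h1]
  rcases key with ⟨v, hv, h1, h2⟩ | ⟨u, hu, v, hv, h1, h2, h3, h4⟩
  · exact Or.inl ⟨v, (hmX' v).1 hv, hdm v h1, fun h => h2 ((hlb v).2 h)⟩
  · refine Or.inr ⟨u, (hmX' u).1 hu, v, (hmX' v).1 hv, (hlb u).1 h1, (hlb v).1 h2,
      fun h => h3 ?_, cn_of_conn (G := G) (fun a b (h : G.Adj a b) => h.1) hdm h4⟩
    exact conn_of_cn (G := G) (fun a b h1 h2 => ⟨h1, h2⟩) (fun t h => h.1)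
      (fun a h => (hlb a).2 h) h u.2 v.2

end Pool.Agent.FNC
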