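import Pool.Agent.Lib.MP_0087d5_lc.FN.Main

set_option autoImplicit false
set_option linter.all false

/-!
# Bipartite graphs with an adjacency matrix of small nullity
-/

namespace Pool.Agent.PMNC

open Relation Matrix FNC FRC.Uni Module

section rank
variable {n : ℕ}

/-- extension of the field does not change the rank -/
theorem rank_map_eq {F K : Type*} [Field F] [Field K] (f : F →+* K) (A : Matrix (Fin n) (Fin n) F) :
    (A.map f).rank = A.rank := by
  classical
  obtain ⟨L, L', D, h⟩ := Pivot.exists_list_transvec_mul_mul_list_transvec_eq_diagonal A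
  set U := (L.map TransvectionStruct.toMatrix).prod with hU
  set V := (L'.map TransvectionStruct.toMatrix).prod with hV
  have hUd : U.det = 1 := TransvectionStruct.det_toMatrix_prod L
  have hVd : V.det = 1 := TransvectionStruct.det_toMatrix_prod L'
  have h1 : A.rank = (diagonal D).rank := by
    rw [← h, rank_mul_eq_left_of_isUnit_det _ _ (by rw [hVd]; exact isUnit_one),
      rank_mul_eq_right_of_isUnit_det _ _ (by rw [hUd]; exact isUnit_one)]
  have h2 : (A.map f).rank = (diagonal (fun i => f (D i))).rank := by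
    have h3 : U.map f * A.map f * V.map f = diagonal (fun i => f (D i)) := by
      rw [← Matrix.map_mul, ← Matrix.map_mul, h, Matrix.diagonal_map (map_zero f)]
    have hUd' : (U.map f).det = 1 := by
      rw [← RingHom.mapMatrix_apply, ← RingHom.map_det, hUd, map_one]
    have hVd' : (V.map f).det = 1 := by
      rw [← RingHom.mapMatrix_apply, ← RingHom.map_det, hVd, map_one]
    rw [← h3, rank_mul_eq_left_of_isUnit_det _ _ (by rw [hVd']; exact isUnit_one),
      rank_mul_eq_right_of_isUnit_det _ _ (by rw [hUd']; exact isUnit_one)]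
  rw [h1, h2, rank_diagonal, rank_diagonal]
  refine Fintype.card_congr (Equiv.subtypeEquivRight fun i => ?_)
  rw [Ne, Ne, map_eq_zero]

open Classical in
theorem adx_one (G : SimpleGraph (Fin n)) :
    adx G (wE 1) (RatFunc.X : RatFunc ℚ) = (G.adjMatrix ℚ).map (algebraMap ℚ (RatFunc ℚ)) := by
  ext u v
  unfold adx
  rw [Matrix.of_apply, Matrix.map_apply, SimpleGraph.adjMatrix_apply]
  have h : wE 1 u v = 0 := by
    unfold wE
    rw [if_neg (by norm_num)]
  by_cases huv : G.Adj u v
  · rw [if_pos huv, if_pos huv, h, pow_zero, map_one]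
  · rw [if_neg huv, if_neg huv, map_zero]

open Classical in
theorem cls_of_rank {c : ℕ} (G : SimpleGraph (Fin n)) (hG : G.Colorable 2)
    (h : n ≤ (G.adjMatrix ℚ).rank + Nat.log 2 n ^ c) : cls c 0 n G := by
  refine ⟨hG, 1, le_rfl, by simp, ?_⟩
  rw [adx_one, rank_map_eq]
  exact h

end rank

open Classical in
/-- **the main theorem, abstract form** -/
theorem main_inNC (c : ℕ) : ∃ P : ∀ n : ℕ, SimpleGraph (Fin n) → Prop, InNC P ∧
    (∀ n G, P n G → HasPM G) ∧
    (∀ (n : ℕ) (G : SimpleGraph (Fin n)) (X : Finset (Fin n)), X.card ≤ 2 * Nat.log 2 n ^ c →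
      (∃ M : (G.induce {v | v ∈ X}).Subgraph, M.IsPerfectMatching) →
      (∃ M : (G.induce {v | v ∉ X}).Subgraph, M.IsPerfectMatching) →
      (niceCycles (G.induce {v | v ∉ X})).ncard ≤ n ^ c → P n G) ∧
    (∀ (n : ℕ) (G : SimpleGraph (Fin n)), HasPM G →
      Nat.card {M : G.Subgraph // M.IsPerfectMatching} ≤ 2 ^ Nat.log 2 n ^ c → P n G) ∧
    (∀ (n : ℕ) (G : SimpleGraph (Fin n)), HasPM G → G.Colorable 2 →
      n ≤ (G.adjMatrix ℚ).rank + Nat.log 2 n ^ c → P n G) := by
  obtain ⟨P, h1, h2, h3, h4⟩ := local_inNC c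
  refine ⟨fun n G => P n G ∨ (cls c 0 n G ∧ HasPM G), h1.or (cls_pm_inNC c 0), ?_,
    fun n G X hX h5 h6 h7 => Or.inl (h3 n G X hX h5 h6 h7), fun n G h5 h6 => Or.inl (h4 n G h5 h6),
    fun n G h5 h6 h7 => Or.inr ⟨cls_of_rank G h6 h7, h5⟩⟩
  rintro n G (h | h)
  · exact h2 n G h
  · exact h.2

end Pool.Agent.PMNC
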