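import Pool.Agent.Lib.MP_0087d5_lc.FN.Prog

set_option autoImplicit false
set_option linter.all false

/-!
# The matrices and the two kinds of steps
-/

namespace Pool.Agent.FNC

open Matrix

section defs
variable {T K : Type*} [Fintype T] [DecidableEq T] [CommRing K]

/-- row and column `i` are unit vectors -/
def InaM (M : Matrix T T K) (i : T) : Prop :=
  ∀ j, M i j = (1 : Matrix T T K) i j ∧ M j i = (1 : Matrix T T K) j i

/-- active dummies -/
def ActM (Du : T → Prop) (M : Matrix T T K) (i : T) : Prop := Du i ∧ ¬ InaM M i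

/-- the invariant: `Du` are the dummies, `Ok` is the adjacency of the other vertices -/
structure Inv (Du : T → Prop) (Ok : T → T → Prop) (M : Matrix T T K) : Prop where
  det : M.det ≠ 0
  skew : ∀ r c, r ≠ c → M r c = - M c r
  diag : ∀ r, ¬ InaM M r → M r r = 0
  diagO : ∀ r, ¬ Du r → M r r = 0
  ok : ∀ u v, ¬ Du u → ¬ Du v → (M u v ≠ 0 ↔ Ok u v)

/-- labelled vertices -/
def LbM (Du : T → Prop) (M : Matrix T T K) : T → Prop :=
  Lb (fun t => ¬ Du t) (ActM Du M) (fun i j => M⁻¹ i j)

/-- vertices reached by one edge -/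
def RcM (Du : T → Prop) (Ok : T → T → Prop) (M : Matrix T T K) : T → Prop :=
  Rc (fun t => ¬ Du t) (ActM Du M) Ok (fun i j => M⁻¹ i j)

/-- two active dummies can be removed -/
def FlM (Du : T → Prop) (M : Matrix T T K) : Prop :=
  ∃ d d', ActM Du M d ∧ ActM Du M d' ∧ M⁻¹ d d' ≠ 0

/-- the labels are parallel along the edges -/
def ParM (Du : T → Prop) (Ok : T → T → Prop) (M : Matrix T T K) : Prop :=
  ∀ d d' u v, ActM Du M d → ActM Du M d' → ¬ Du u → ¬ Du v → Ok u v →
    M⁻¹ d u * M⁻¹ d' v = M⁻¹ d v * M⁻¹ d' u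

open Classical in
/-- the direction of the perturbation; `om` are the weights of the edges (`om r c = x ^ w r c`) -/
noncomputable def Cs (Du : T → Prop) (Ok : T → T → Prop) (lt : T → T → Prop) (idx : T → T → ℕ)
    (om : T → T → K) (s : K) : Matrix T T K :=
  Matrix.of fun r c => if ¬ Du r ∧ ¬ Du c ∧ Ok r c then
    (if lt r c then s ^ idx r c else - s ^ idx c r) * om r c else 0

/-- good parameters -/
def GoodM (Du : T → Prop) (Ok : T → T → Prop) (M N : Matrix T T K) : Prop :=
  N.det ≠ 0 ∧ (∀ u v, ¬ Du u → ¬ Du v → Ok u v → N u v ≠ 0) ∧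
    (FlM Du N ∨ (ParM Du Ok M ∧ ∀ w, (LbM Du M w ∨ RcM Du Ok M w) → LbM Du N w))

open Classical in
/-- remove two dummies -/
noncomputable def RemM (M : Matrix T T K) (d d' : T) : Matrix T T K :=
  Matrix.of fun r c => if r = d ∨ c = d ∨ r = d' ∨ c = d' then (1 : Matrix T T K) r c else M r c

end defs

section lemmas
variable {T K : Type*} [Fintype T] [DecidableEq T] [Field K]
variable {Du : T → Prop} {Ok : T → T → Prop} {M : Matrix T T K}

/-- the projection to `J` -/
private noncomputable def pjS (K : Type*) [Field K] (J : T → Prop) : Matrix T T K := by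
  classical
  exact diagonal fun r => if J r then 1 else 0

open Classical in
private theorem pjS_mul (J : T → Prop) (A : Matrix T T K) (r c : T) :
    (pjS K J * A) r c = if J r then A r c else 0 := by
  unfold pjS
  rw [diagonal_mul]
  split_ifs <;> simp

open Classical in
private theorem mul_pjS (J : T → Prop) (A : Matrix T T K) (r c : T) :
    (A * pjS K J) r c = if J c then A r c else 0 := by
  unfold pjS
  rw [mul_diagonal]
  split_ifs <;> simp

/-- skew symmetric on `J` and trivial outside -/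
private structure SkOn (J : T → Prop) (B : Matrix T T K) : Prop where
  sk : ∀ r c, J r → J c → B r c = - B c r
  off : ∀ r c, (¬ J r ∨ ¬ J c) → B r c = (1 : Matrix T T K) r c

section core
variable {J : T → Prop} {B Q : Matrix T T K}

private theorem SkOn.comm (h : SkOn J B) : pjS K J * B = B * pjS K J := by
  classical
  ext r c
  rw [pjS_mul, mul_pjS]
  by_cases h1 : J r <;> by_cases h2 : J c
  · simp [h1, h2]
  · simp only [h1, h2, if_true, if_false]
    rw [h.off r c (Or.inr h2), one_apply_ne]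
    rintro rfl
    exact h2 h1
  · simp only [h1, h2, if_true, if_false]
    rw [h.off r c (Or.inl h1), one_apply_ne]
    rintro rfl
    exact h1 h2
  · simp [h1, h2]

private theorem SkOn.core (h : SkOn J B) : (pjS K J * B)ᵀ = - (pjS K J * B) := by
  ext r c
  rw [transpose_apply, neg_apply, pjS_mul, pjS_mul]
  by_cases h1 : J r <;> by_cases h2 : J c
  · simp only [h1, h2, if_true]
    exact h.sk c r h2 h1
  · simp only [h1, h2, if_true, if_false]
    rw [h.off r c (Or.inr h2), one_apply_ne]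
    · simp
    · rintro rfl
      exact h2 h1
  · simp only [h1, h2, if_true, if_false]
    rw [h.off c r (Or.inr h1), one_apply_ne]
    · simp
    · rintro rfl
      exact h1 h2
  · simp [h1, h2]

private theorem pjS_T (J : T → Prop) : (pjS K J)ᵀ = pjS K J := by
  unfold pjS
  rw [diagonal_transpose]

private theorem SkOn.inv_comm (h : SkOn J B) (hBQ : B * Q = 1) : pjS K J * Q = Q * pjS K J := by
  have hQB : Q * B = 1 := mul_eq_one_comm.1 hBQ
  calc pjS K J * Q = Q * B * pjS K J * Q := by rw [hQB, one_mul]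
    _ = Q * (B * pjS K J) * Q := by rw [mul_assoc Q B]
    _ = Q * (pjS K J * B) * Q := by rw [h.comm]
    _ = Q * pjS K J * (B * Q) := by simp only [mul_assoc]
    _ = Q * pjS K J := by rw [hBQ, mul_one]

private theorem SkOn.inv_sk (h : SkOn J B) (hBQ : B * Q = 1) : (pjS K J * Q)ᵀ = - (pjS K J * Q) := by
  have h1 : Qᵀ * (pjS K J * B) = - pjS K J := by
    have h2 : (pjS K J * B * Q)ᵀ = (pjS K J)ᵀ := by rw [mul_assoc, hBQ, mul_one]
    rw [transpose_mul, h.core, pjS_T, Matrix.mul_neg] at h2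
    rw [← neg_neg (Qᵀ * (pjS K J * B)), h2]
  calc (pjS K J * Q)ᵀ = Qᵀ * pjS K J := by rw [transpose_mul, pjS_T]
    _ = Qᵀ * (pjS K J * B) * Q := by rw [mul_assoc, mul_assoc, hBQ, mul_one]
    _ = - (pjS K J * Q) := by rw [h1, Matrix.neg_mul]

private theorem SkOn.inv_apply (h : SkOn J B) (hBQ : B * Q = 1) {r c : T} (hr : J r) (hc : J c) :
    Q r c = - Q c r := by
  have h1 := congrFun (congrFun (h.inv_sk hBQ) c) r
  rw [transpose_apply, neg_apply, pjS_mul, pjS_mul, if_pos hr, if_pos hc] at h1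
  exact h1

private theorem SkOn.inv_out (h : SkOn J B) (hBQ : B * Q = 1) {r c : T} (hr : ¬ J r) (hc : J c) :
    Q r c = 0 := by
  have h1 := congrFun (congrFun (h.inv_comm hBQ) r) c
  rw [pjS_mul, mul_pjS, if_neg hr, if_pos hc] at h1
  exact h1.symm

private theorem SkOn.inv_diag (h : SkOn J B) (h2 : (2 : K) ≠ 0) (hBQ : B * Q = 1) {r : T} (hr : J r) :
    Q r r = 0 := by
  have h1 := h.inv_apply hBQ hr hr
  have h3 : (2 : K) * Q r r = 0 := by
    rw [two_mul]
    nth_rw 1 [h1]
    exact neg_add_cancel _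
  exact (mul_eq_zero.1 h3).resolve_left h2

private theorem SkOn.rem_det (h : SkOn J B) (h2 : (2 : K) ≠ 0) (hBQ : B * Q = 1) {d d' : T} (hd : J d)
    (hd' : J d') (hQ : Q d d' ≠ 0) : (RemM B d d').det ≠ 0 := by
  have hQB : Q * B = 1 := mul_eq_one_comm.1 hBQ
  have hne : d ≠ d' := by
    rintro rfl
    exact hQ (h.inv_diag h2 hBQ hd)
  intro h0
  obtain ⟨x, hx0, hx⟩ := Matrix.exists_mulVec_eq_zero_iff.2 h0
  have hxd : x d = 0 := by
    have h1 := congrFun hx d
    rw [mulVec, dotProduct, Finset.sum_eq_single d] at h1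
    · simpa [RemM] using h1
    · intro c _ hc
      simp [RemM, one_apply_ne (Ne.symm hc)]
    · simp
  have hxd' : x d' = 0 := by
    have h1 := congrFun hx d'
    rw [mulVec, dotProduct, Finset.sum_eq_single d'] at h1
    · simpa [RemM] using h1
    · intro c _ hc
      simp [RemM, one_apply_ne (Ne.symm hc)]
    · simp
  have hBx : ∀ r, r ≠ d → r ≠ d' → (B *ᵥ x) r = 0 := by
    intro r hr hr'
    have h1 : (RemM B d d' *ᵥ x) r = 0 := congrFun hx r
    rw [← h1]
    simp only [mulVec, dotProduct]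
    refine Finset.sum_congr rfl fun c _ => ?_
    by_cases hc : c = d
    · rw [hc, hxd, mul_zero, mul_zero]
    by_cases hc' : c = d'
    · rw [hc', hxd', mul_zero, mul_zero]
    simp [RemM, hr, hr', hc, hc']
  have hx2 : x = Q *ᵥ (B *ᵥ x) := by rw [mulVec_mulVec, hQB, one_mulVec]
  have hval : ∀ r, x r = Q r d * (B *ᵥ x) d + Q r d' * (B *ᵥ x) d' := by
    intro r
    have h1 : x r = (Q *ᵥ (B *ᵥ x)) r := congrFun hx2 r
    rw [h1]
    rw [mulVec, dotProduct, Fintype.sum_eq_add d d' hne]
    rintro c ⟨hc, hc'⟩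
    rw [hBx c hc hc', mul_zero]
  have e1 := hval d
  have e2 := hval d'
  rw [h.inv_diag h2 hBQ hd, zero_mul, zero_add, hxd] at e1
  rw [h.inv_diag h2 hBQ hd', zero_mul, add_zero, hxd'] at e2
  have hQ' : Q d' d ≠ 0 := by
    rw [h.inv_apply hBQ hd' hd]
    exact neg_ne_zero.2 hQ
  have f1 : (B *ᵥ x) d' = 0 := (mul_eq_zero.1 e1.symm).resolve_left hQ
  have f2 : (B *ᵥ x) d = 0 := (mul_eq_zero.1 e2.symm).resolve_left hQ'
  apply hx0
  funext r
  rw [hval r, f1, f2, mul_zero, mul_zero, add_zero]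
  rfl

end core

private theorem Inv.skOn (h : Inv Du Ok M) : SkOn (fun r => ¬ InaM M r) M := by
  constructor
  · intro r c hr hc
    by_cases hrc : r = c
    · subst hrc
      rw [h.diag r hr, neg_zero]
    · exact h.skew r c hrc
  · intro r c hrc
    rcases hrc with hr | hc
    · exact ((not_not.1 hr) c).1
    · exact ((not_not.1 hc) r).2

private theorem Inv.ord (h : Inv Du Ok M) {r : T} (hr : ¬ Du r) : ¬ InaM M r := by
  intro hi
  have h1 := (hi r).1
  rw [h.diagO r hr, one_apply_eq] at h1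
  exact zero_ne_one h1

private theorem Inv.live (h : Inv Du Ok M) {r : T} (hr : ¬ Du r ∨ ActM Du M r) : ¬ InaM M r := by
  rcases hr with hr | hr
  · exact h.ord hr
  · exact hr.2

private theorem Inv.mul_inv (h : Inv Du Ok M) : M * M⁻¹ = 1 :=
  Matrix.mul_nonsing_inv M (isUnit_iff_ne_zero.2 h.det)

/-- the structure of the progress lemma. The inverse matrix is skew-symmetric and zero on the diagonal
on the rows that are not trivial. -/
theorem Inv.sk (hK : (2 : K) ≠ 0) (h : Inv Du Ok M) (hsym : ∀ u v, Ok u v → Ok v u) :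
    Sk (fun t => ¬ Du t) (ActM Du M) Ok (fun i j => M i j) (fun i j => M⁻¹ i j) where
  two := hK
  BQ := by
    intro u v
    have h1 := congrFun (congrFun h.mul_inv u) v
    rw [Matrix.mul_apply, Matrix.one_apply] at h1
    exact h1
  dis := fun t ht ht' => ht' ht.1
  Qskew := fun u v hu hv => h.skOn.inv_apply h.mul_inv (h.live hu) (h.live hv)
  Qout := by
    intro t v ht ht' hv
    have hD : Du t := not_not.1 ht
    refine h.skOn.inv_out h.mul_inv ?_ (h.live hv)
    rw [not_not]
    by_contra hc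
    exact ht' ⟨hD, hc⟩
  Bskew := fun u v hu hv => h.skOn.sk u v (h.ord hu) (h.ord hv)
  Badj := fun u v hu hv huv => (h.ok u v hu hv).1 huv
  symm := hsym

private theorem remM_pos {d d' r c : T} (hrc : r = d ∨ c = d ∨ r = d' ∨ c = d') :
    RemM M d d' r c = (1 : Matrix T T K) r c := by
  unfold RemM
  rw [Matrix.of_apply, if_pos hrc]

private theorem remM_neg {d d' r c : T} (hrc : ¬ (r = d ∨ c = d ∨ r = d' ∨ c = d')) :
    RemM M d d' r c = M r c := by
  unfold RemM
  rw [Matrix.of_apply, if_neg hrc]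

private theorem inaM_rem {d d' r : T} (hr : r = d ∨ r = d' ∨ InaM M r) : InaM (RemM M d d') r := by
  intro j
  by_cases h1 : r = d ∨ j = d ∨ r = d' ∨ j = d'
  · have h2 : j = d ∨ r = d ∨ j = d' ∨ r = d' := by tauto
    exact ⟨remM_pos h1, remM_pos h2⟩
  · have h2 : ¬ (j = d ∨ r = d ∨ j = d' ∨ r = d') := by tauto
    rw [remM_neg h1, remM_neg h2]
    rcases hr with hr | hr | hr
    · exact absurd (Or.inl hr) h1
    · exact absurd (Or.inr (Or.inr (Or.inl hr))) h1
    · exact hr j

/-- removing two dummies -/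
theorem Inv.rem (hK : (2 : K) ≠ 0) (h : Inv Du Ok M) (hsym : ∀ u v, Ok u v → Ok v u) {d d' : T}
    (hd : ActM Du M d) (hd' : ActM Du M d') (hq : M⁻¹ d d' ≠ 0) :
    Inv Du Ok (RemM M d d') ∧ {i | ActM Du (RemM M d d') i}.ncard < {i | ActM Du M i}.ncard := by
  refine ⟨⟨?_, ?_, ?_, ?_, ?_⟩, ?_⟩
  · exact h.skOn.rem_det hK h.mul_inv hd.2 hd'.2 hq
  · intro r c hrc
    by_cases h1 : r = d ∨ c = d ∨ r = d' ∨ c = d'
    · have h2 : c = d ∨ r = d ∨ c = d' ∨ r = d' := by tauto
      rw [remM_pos h1, remM_pos h2, one_apply_ne hrc, one_apply_ne (Ne.symm hrc), neg_zero]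
    · have h2 : ¬ (c = d ∨ r = d ∨ c = d' ∨ r = d') := by tauto
      rw [remM_neg h1, remM_neg h2]
      exact h.skew r c hrc
  · intro r hr
    have h1 : ¬ (r = d ∨ r = d ∨ r = d' ∨ r = d') := fun hc => hr (inaM_rem (by tauto))
    rw [remM_neg h1]
    exact h.diag r fun hc => hr (inaM_rem (Or.inr (Or.inr hc)))
  · intro r hr
    have h1 : ¬ (r = d ∨ r = d ∨ r = d' ∨ r = d') := by
      rintro (rfl | rfl | rfl | rfl)
      · exact hr hd.1
      · exact hr hd.1
      · exact hr hd'.1
      · exact hr hd'.1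
    rw [remM_neg h1]
    exact h.diagO r hr
  · intro u v hu hv
    have h1 : ¬ (u = d ∨ v = d ∨ u = d' ∨ v = d') := by
      rintro (rfl | rfl | rfl | rfl)
      · exact hu hd.1
      · exact hv hd.1
      · exact hu hd'.1
      · exact hv hd'.1
    rw [remM_neg h1]
    exact h.ok u v hu hv
  · refine Set.ncard_lt_ncard ?_ (Set.toFinite _)
    refine ⟨fun i hi => ⟨hi.1, fun hc => hi.2 (inaM_rem (Or.inr (Or.inr hc)))⟩, fun hc => ?_⟩
    exact (hc hd).2 (inaM_rem (Or.inl rfl))

private theorem cs_dummy {lt : T → T → Prop} {idx : T → T → ℕ} {om : T → T → K} {s : K} {r c : T}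
    (h : Du r ∨ Du c) : Cs Du Ok lt idx om s r c = 0 := by
  unfold Cs
  rw [Matrix.of_apply, if_neg]
  tauto

private theorem pert_dummy {lt : T → T → Prop} {idx : T → T → ℕ} {om : T → T → K} {s e : K} {r c : T}
    (h : Du r ∨ Du c) : (M + e • Cs Du Ok lt idx om s) r c = M r c := by
  rw [Matrix.add_apply, Matrix.smul_apply, cs_dummy h, smul_zero, add_zero]

/-- the perturbation does not change the rows and columns of the dummies -/
theorem act_pert (M : Matrix T T K) (lt : T → T → Prop) (idx : T → T → ℕ) (om : T → T → K) (s e : K)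
    (i : T) : ActM Du (M + e • Cs Du Ok lt idx om s) i ↔ ActM Du M i := by
  unfold ActM InaM
  refine and_congr_right fun hi => not_congr (forall_congr' fun j => ?_)
  rw [pert_dummy (Or.inl hi), pert_dummy (Or.inr hi)]

/-- perturbing -/
theorem Inv.pert (h : Inv Du Ok M) (hsym : ∀ u v, Ok u v → Ok v u) (lt : T → T → Prop)
    (hlt : ∀ r c, r ≠ c → (lt r c ↔ ¬ lt c r)) (hirr : ∀ u, ¬ Ok u u) (idx : T → T → ℕ)
    (om : T → T → K) (hom : ∀ r c, om r c = om c r) (s e : K)
    (hg : GoodM Du Ok M (M + e • Cs Du Ok lt idx om s)) :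
    Inv Du Ok (M + e • Cs Du Ok lt idx om s) := by
  have hnok : ∀ r c, ¬ Ok r c → (M + e • Cs Du Ok lt idx om s) r c = M r c := by
    intro r c hrc
    have h1 : Cs Du Ok lt idx om s r c = 0 := by
      unfold Cs
      rw [Matrix.of_apply, if_neg]
      tauto
    rw [Matrix.add_apply, Matrix.smul_apply, h1, smul_zero, add_zero]
  have hcs : ∀ r c, r ≠ c → Cs Du Ok lt idx om s r c = - Cs Du Ok lt idx om s c r := by
    intro r c hrc
    unfold Cs
    rw [Matrix.of_apply, Matrix.of_apply]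
    by_cases h1 : ¬ Du r ∧ ¬ Du c ∧ Ok r c
    · have h2 : ¬ Du c ∧ ¬ Du r ∧ Ok c r := ⟨h1.2.1, h1.1, hsym _ _ h1.2.2⟩
      rw [if_pos h1, if_pos h2]
      by_cases h3 : lt r c
      · have h4 : ¬ lt c r := (hlt r c hrc).1 h3
        rw [if_pos h3, if_neg h4, hom c r]
        ring
      · have h4 : lt c r := (hlt c r (Ne.symm hrc)).2 h3
        rw [if_neg h3, if_pos h4, hom c r]
        ring
    · have h2 : ¬ (¬ Du c ∧ ¬ Du r ∧ Ok c r) := fun hc => h1 ⟨hc.2.1, hc.1, hsym _ _ hc.2.2⟩
      rw [if_neg h1, if_neg h2, neg_zero]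
  refine ⟨hg.1, ?_, ?_, ?_, ?_⟩
  · intro r c hrc
    rw [Matrix.add_apply, Matrix.add_apply, Matrix.smul_apply, Matrix.smul_apply, hcs r c hrc,
      h.skew r c hrc, smul_neg, neg_add]
  · intro r hr
    rw [hnok r r (hirr r)]
    by_cases hD : Du r
    · exact h.diag r ((act_pert M lt idx om s e r).1 ⟨hD, hr⟩).2
    · exact h.diagO r hD
  · intro r hr
    rw [hnok r r (hirr r)]
    exact h.diagO r hr
  · intro u v hu hv
    constructor
    · intro huv
      by_contra hc
      apply huv
      rw [hnok u v hc]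
      by_contra h1
      exact hc ((h.ok u v hu hv).1 h1)
    · exact hg.2.1 u v hu hv

end lemmas

end Pool.Agent.FNC
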